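import Mathlib.Analysis.InnerProductSpace.Basic
import Mathlib.Analysis.Calculus.DerivativeTest
import Mathlib.Geometry.Manifold.Algebra.LieGroup
import Mathlib.Geometry.Manifold.VectorField.Pullback
import Mathlib.Geometry.Manifold.Sheaf.Basic
import Mathlib.Order.CompletePartialOrder
import Mathlib.Tactic.Monotonicity.Lemmas
import Mathlib.Topology.ContinuousMap.Compact
import Mathlib.Algebra.Order.Archimedean.Real.Hom
import Mathlib.Analysis.Calculus.ContDiff.FiniteDimension
import Mathlib.Geometry.Manifold.GroupLieAlgebra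
import Mathlib.LinearAlgebra.FreeModule.PID
import Mathlib.LinearAlgebra.QuadraticForm.Basic
import Mathlib.RingTheory.Flat.TorsionFree
import Mathlib.Algebra.Order.Ring.Star
import Mathlib.Algebra.Module.StablyFree.Basic
import Mathlib.Topology.Algebra.OpenSubgroup
import Mathlib.Algebra.Order.Chebyshev
import Mathlib.Algebra.Order.Star.Real
import Mathlib.Algebra.Ring.IsFormallyReal
import Mathlib.Geometry.Manifold.BumpFunction
import Mathlib.RingTheory.SimpleRing.Principal

-- ======== part 0: formerly Pool.Agent.MP_f244e7_gt.Calc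
section MrgPart0

/-! Left and right invariant derivatives on a Lie group, read in the chart at the identity. -/

set_option maxSynthPendingDepth 3
set_option linter.unusedSectionVars false

namespace Pool.Agent.MP_f244e7_gt

open scoped Manifold ContDiff Topology
open Function Filter Set

section param
variable {EN : Type*} [NormedAddCommGroup EN] [NormedSpace ℝ EN] {HN : Type*}
  [TopologicalSpace HN] {J : ModelWithCorners ℝ EN HN} {N : Type*} [TopologicalSpace N]
  [ChartedSpace HN N] [IsManifold J 1 N] {E' : Type*} [NormedAddCommGroup E'] [NormedSpace ℝ E']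
  {B : Type*} [NormedAddCommGroup B] [NormedSpace ℝ B]

set_option backward.isDefEq.respectTransparency false in
lemma contMDiffAt_fderiv_param (F : N → E' → B) (c : N → E') (x0 : N)
    (hF : ContMDiffAt (J.prod 𝓘(ℝ, E')) 𝓘(ℝ, B) ∞ (uncurry F) (x0, c x0))
    (hc : ContMDiffAt J 𝓘(ℝ, E') ∞ c x0) :
    ContMDiffAt J 𝓘(ℝ, E' →L[ℝ] B) ∞ (fun x => fderiv ℝ (F x) (c x)) x0 := by
  have h := ContMDiffAt.mfderiv (m := ∞) F c hF hc (by simp)
  rw [inTangentCoordinates_model_space] at h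
  simpa only [mfderiv_eq_fderiv] using h

lemma contDiffAt_of_prod {E1 E2 : Type*} [NormedAddCommGroup E1] [NormedSpace ℝ E1]
    [NormedAddCommGroup E2] [NormedSpace ℝ E2] {f : E1 × E2 → B} {x : E1 × E2}
    (h : ContMDiffAt (𝓘(ℝ, E1).prod 𝓘(ℝ, E2)) 𝓘(ℝ, B) ∞ f x) : ContDiffAt ℝ ∞ f x := by
  rw [← contMDiffAt_iff_contDiffAt, modelWithCornersSelf_prod, ← chartedSpaceSelf_prod]
  exact h

lemma fderiv_fderiv_comm {E1 E2 : Type*} [NormedAddCommGroup E1] [NormedSpace ℝ E1]
    [NormedAddCommGroup E2] [NormedSpace ℝ E2] {H : E1 × E2 → B} {a : E1} {b : E2}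
    (h : ContDiffAt ℝ ∞ H (a, b)) (X : E1) (Y : E2) :
    fderiv ℝ (fun z => fderiv ℝ (fun w => H (z, w)) b Y) a X
      = fderiv ℝ (fun w => fderiv ℝ (fun z => H (z, w)) a X) b Y := by
  have h2 : ContDiffAt ℝ 2 H (a, b) := h.of_le (by norm_cast)
  have hev : ∀ᶠ p in 𝓝 (a, b), DifferentiableAt ℝ H p :=
    (h2.eventually (by simp)).mono fun p hp => hp.differentiableAt (by simp)
  have hd : DifferentiableAt ℝ (fderiv ℝ H) (a, b) :=
    (h2.fderiv_right (m := 1) (by norm_num)).differentiableAt (by simp)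
  have hs := h2.isSymmSndFDerivAt (by simp)
  have e1 : (fun z => fderiv ℝ (fun w => H (z, w)) b Y)
      =ᶠ[𝓝 a] fun z => fderiv ℝ H (z, b) (0, Y) := by
    have : Tendsto (fun z : E1 => (z, b)) (𝓝 a) (𝓝 (a, b)) :=
      (continuous_id.prodMk continuous_const).tendsto a
    filter_upwards [this.eventually hev] with z hz
    have := (hz.hasFDerivAt.comp b (hasFDerivAt_prodMk_right z b)).fderiv
    exact congrArg (fun T : E2 →L[ℝ] B => T Y) this
  have e2 : (fun w => fderiv ℝ (fun z => H (z, w)) a X)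
      =ᶠ[𝓝 b] fun w => fderiv ℝ H (a, w) (X, 0) := by
    have : Tendsto (fun w : E2 => (a, w)) (𝓝 b) (𝓝 (a, b)) :=
      (continuous_const.prodMk continuous_id).tendsto b
    filter_upwards [this.eventually hev] with w hw
    have := (hw.hasFDerivAt.comp a (hasFDerivAt_prodMk_left (𝕜 := ℝ) a w)).fderiv
    exact congrArg (fun T : E1 →L[ℝ] B => T X) this
  rw [e1.fderiv_eq, e2.fderiv_eq]
  have d1 := ((hd.hasFDerivAt.comp a (hasFDerivAt_prodMk_left (𝕜 := ℝ) a b)).clm_apply
    (hasFDerivAt_const ((0, Y) : E1 × E2) a)).fderiv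
  have d2 := ((hd.hasFDerivAt.comp b (hasFDerivAt_prodMk_right (𝕜 := ℝ) a b)).clm_apply
    (hasFDerivAt_const ((X, 0) : E1 × E2) b)).fderiv
  simp only [Function.comp_def] at d1 d2
  rw [d1, d2]
  simpa using hs.eq (X, 0) (0, Y)

lemma second_deriv_nonpos {E1 : Type*} [NormedAddCommGroup E1] [NormedSpace ℝ E1]
    {h : E1 → ℝ} {a : E1} (hh : ContDiffAt ℝ ∞ h a) (hmax : IsLocalMax h a) (Y : E1) :
    fderiv ℝ (fderiv ℝ h) a Y Y ≤ 0 := by
  by_contra hpos
  push Not at hpos
  have h2 : ContDiffAt ℝ 2 h a := hh.of_le (by norm_cast)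
  have hev : ∀ᶠ p in 𝓝 a, DifferentiableAt ℝ h p :=
    (h2.eventually (by simp)).mono fun p hp => hp.differentiableAt (by simp)
  have hd : DifferentiableAt ℝ (fderiv ℝ h) a :=
    (h2.fderiv_right (m := 1) (by norm_num)).differentiableAt (by simp)
  set γ : ℝ → E1 := fun t => a + t • Y with hγ
  have hγd : ∀ t, HasDerivAt γ Y t := fun t => by
    simpa [hγ] using ((hasDerivAt_id t).smul_const Y).const_add a
  have hγ0 : γ 0 = a := by simp [hγ]
  have hγt : Tendsto γ (𝓝 0) (𝓝 a) := hγ0 ▸ (hγd 0).continuousAt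
  have e1 : deriv (h ∘ γ) =ᶠ[𝓝 0] fun t => fderiv ℝ h (γ t) Y := by
    filter_upwards [hγt.eventually hev] with t ht
    exact (ht.hasFDerivAt.comp_hasDerivAt t (hγd t)).deriv
  have e2 : HasDerivAt (fun t => fderiv ℝ h (γ t) Y) (fderiv ℝ (fderiv ℝ h) a Y Y) 0 := by
    have h3 : HasFDerivAt (fderiv ℝ h) (fderiv ℝ (fderiv ℝ h) a) (γ 0) := hγ0 ▸ hd.hasFDerivAt
    simpa using (h3.comp_hasDerivAt 0 (hγd 0)).clm_apply (hasDerivAt_const (0 : ℝ) Y)
  have e3 : deriv (deriv (h ∘ γ)) 0 = fderiv ℝ (fderiv ℝ h) a Y Y := by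
    rw [e1.deriv_eq, e2.deriv]
  have hmax' : IsLocalMax (h ∘ γ) 0 := by
    apply IsLocalMax.comp_continuous (hγ0 ▸ hmax) (hγd 0).continuousAt
  have hc : ContinuousAt (h ∘ γ) 0 :=
    ContinuousAt.comp (hγ0 ▸ hh.continuousAt) (hγd 0).continuousAt
  have hmin := isLocalMin_of_deriv_deriv_pos (e3 ▸ hpos) hmax'.deriv_eq_zero hc
  have hconst : (h ∘ γ) =ᶠ[𝓝 0] fun _ => (h ∘ γ) 0 := by
    filter_upwards [hmax', hmin] with t h1 h2 using le_antisymm h1 h2
  have : deriv (deriv (h ∘ γ)) 0 = 0 := by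
    rw [hconst.deriv.deriv_eq]
    simp
  linarith

end param

variable {E : Type*} [NormedAddCommGroup E] [NormedSpace ℝ E]
  {G : Type*} [Group G] [TopologicalSpace G] [ChartedSpace E G]
  {B : Type*} [NormedAddCommGroup B] [NormedSpace ℝ B]

variable (E) in
/-- The chart at the identity. -/
noncomputable def cht (x : G) : E := extChartAt 𝓘(ℝ, E) (1 : G) x

variable (G) in
/-- The inverse of the chart at the identity. -/
noncomputable def kap (z : E) : G := (extChartAt 𝓘(ℝ, E) (1 : G)).symm z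

variable (E G) in
/-- The identity, read in the chart. -/
noncomputable def org : E := cht E (1 : G)

variable (E) in
/-- Smooth vector valued functions on the group. -/
abbrev Sm (f : G → B) : Prop := ContMDiff 𝓘(ℝ, E) 𝓘(ℝ, B) ∞ f

/-- The derivative along a left-invariant vector field. -/
noncomputable def LD (X : E) (f : G → B) (x : G) : B :=
  fderiv ℝ (fun z => f (x * kap G z)) (org E G) X

/-- The derivative along a right-invariant vector field. -/
noncomputable def RD (X : E) (f : G → B) (x : G) : B :=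
  fderiv ℝ (fun z => f (kap G z * x)) (org E G) X

@[simp] lemma kap_org : kap G (org E G) = 1 := extChartAt_to_inv (I := 𝓘(ℝ, E)) (1 : G)

lemma target_nhds : (extChartAt 𝓘(ℝ, E) (1 : G)).target ∈ 𝓝 (org E G) :=
  extChartAt_target_mem_nhds (1 : G)

lemma cht_kap {z : E} (hz : z ∈ (extChartAt 𝓘(ℝ, E) (1 : G)).target) : cht E (kap G z) = z :=
  (extChartAt 𝓘(ℝ, E) (1 : G)).right_inv hz

lemma kap_cht_ev : ∀ᶠ y in 𝓝 (1 : G), kap G (cht E y) = y := by
  filter_upwards [extChartAt_source_mem_nhds (I := 𝓘(ℝ, E)) (1 : G)] with y hy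
  exact (extChartAt 𝓘(ℝ, E) (1 : G)).left_inv hy

variable [LieGroup 𝓘(ℝ, E) ∞ G]

lemma kap_smoothAt {z : E} (hz : z ∈ (extChartAt 𝓘(ℝ, E) (1 : G)).target) :
    ContMDiffAt 𝓘(ℝ, E) 𝓘(ℝ, E) ∞ (kap G) z :=
  (contMDiffOn_extChartAt_symm (1 : G) z hz).contMDiffAt (extChartAt_target_mem_nhds' hz)

lemma kap_smoothAt_org : ContMDiffAt 𝓘(ℝ, E) 𝓘(ℝ, E) ∞ (kap G) (org E G) :=
  kap_smoothAt (mem_extChartAt_target (1 : G))

lemma cht_smoothAt_one : ContMDiffAt 𝓘(ℝ, E) 𝓘(ℝ, E) ∞ (cht E) (1 : G) :=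
  contMDiffAt_extChartAt

lemma cht_smoothAt_of_eq {y : G} (hy : y = 1) : ContMDiffAt 𝓘(ℝ, E) 𝓘(ℝ, E) ∞ (cht E) y :=
  hy ▸ cht_smoothAt_one

lemma Sm.contDiffAt_L {f : G → B} (hf : Sm E f) (x : G) {z : E}
    (hz : z ∈ (extChartAt 𝓘(ℝ, E) (1 : G)).target) :
    ContDiffAt ℝ ∞ (fun z => f (x * kap G z)) z :=
  contMDiffAt_iff_contDiffAt.1 ((hf _).comp z (contMDiffAt_const.mul (kap_smoothAt hz)))

lemma Sm.contDiffAt_R {f : G → B} (hf : Sm E f) (x : G) {z : E}
    (hz : z ∈ (extChartAt 𝓘(ℝ, E) (1 : G)).target) :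
    ContDiffAt ℝ ∞ (fun z => f (kap G z * x)) z :=
  contMDiffAt_iff_contDiffAt.1 ((hf _).comp z ((kap_smoothAt hz).mul contMDiffAt_const))

lemma Sm.diffL {f : G → B} (hf : Sm E f) (x : G) :
    DifferentiableAt ℝ (fun z => f (x * kap G z)) (org E G) :=
  (hf.contDiffAt_L x (mem_extChartAt_target (1 : G))).differentiableAt (by simp)

lemma Sm.diffR {f : G → B} (hf : Sm E f) (x : G) :
    DifferentiableAt ℝ (fun z => f (kap G z * x)) (org E G) :=
  (hf.contDiffAt_R x (mem_extChartAt_target (1 : G))).differentiableAt (by simp)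

section
variable {EN : Type*} [NormedAddCommGroup EN] [NormedSpace ℝ EN] {HN : Type*}
  [TopologicalSpace HN] {J : ModelWithCorners ℝ EN HN} {N : Type*} [TopologicalSpace N]
  [ChartedSpace HN N] [IsManifold J 1 N]

/-- Smoothness of a derivative at the identity with respect to parameters. -/
lemma smoothAt_deriv_param (F : N → G → B) (x0 : N)
    (hF : ContMDiffAt (J.prod 𝓘(ℝ, E)) 𝓘(ℝ, B) ∞ (uncurry F) (x0, 1)) :
    ContMDiffAt J 𝓘(ℝ, E →L[ℝ] B) ∞
      (fun x => fderiv ℝ (fun z => F x (kap G z)) (org E G)) x0 := by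
  refine contMDiffAt_fderiv_param (fun x z => F x (kap G z)) (fun _ => org E G) x0 ?_
    contMDiffAt_const
  have h1 : ContMDiffAt (J.prod 𝓘(ℝ, E)) (J.prod 𝓘(ℝ, E)) ∞
      (fun p : N × E => (p.1, kap G p.2)) (x0, org E G) :=
    contMDiffAt_fst.prodMk (kap_smoothAt_org.comp (x0, org E G) contMDiffAt_snd)
  exact ContMDiffAt.comp_of_eq hF h1 (by simp)

lemma LD_param_smooth (X : E) (F : N → G → B)
    (hF : ContMDiff (J.prod 𝓘(ℝ, E)) 𝓘(ℝ, B) ∞ (uncurry F)) :
    ContMDiff (J.prod 𝓘(ℝ, E)) 𝓘(ℝ, B) ∞ (uncurry fun n => LD X (F n)) := by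
  intro p
  refine (smoothAt_deriv_param (fun (q : N × G) y => F q.1 (q.2 * y)) p ?_).clm_apply
    contMDiffAt_const
  exact (hF.comp (contMDiff_fst.fst.prodMk (contMDiff_fst.snd.mul contMDiff_snd))) _

lemma RD_param_smooth (X : E) (F : N → G → B)
    (hF : ContMDiff (J.prod 𝓘(ℝ, E)) 𝓘(ℝ, B) ∞ (uncurry F)) :
    ContMDiff (J.prod 𝓘(ℝ, E)) 𝓘(ℝ, B) ∞ (uncurry fun n => RD X (F n)) := by
  intro p
  refine (smoothAt_deriv_param (fun (q : N × G) y => F q.1 (y * q.2)) p ?_).clm_apply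
    contMDiffAt_const
  exact (hF.comp (contMDiff_fst.fst.prodMk (contMDiff_snd.mul contMDiff_fst.snd))) _

end

lemma Sm.LD {f : G → B} (hf : Sm E f) (X : E) : Sm E (LD X f) := by
  intro x
  refine (smoothAt_deriv_param (fun (q : G) y => f (q * y)) x ?_).clm_apply contMDiffAt_const
  exact (hf.comp (contMDiff_fst.mul contMDiff_snd)) _

lemma Sm.RD {f : G → B} (hf : Sm E f) (X : E) : Sm E (RD X f) := by
  intro x
  refine (smoothAt_deriv_param (fun (q : G) y => f (y * q)) x ?_).clm_apply contMDiffAt_const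
  exact (hf.comp (contMDiff_snd.mul contMDiff_fst)) _

lemma LD_const (X : E) (c : B) : LD X (fun _ : G => c) = 0 := by
  funext x; simp [LD]

lemma LD_add {f g : G → B} (hf : Sm E f) (hg : Sm E g) (X : E) :
    LD X (f + g) = LD X f + LD X g := by
  funext x
  simp only [LD, Pi.add_apply]
  rw [fderiv_fun_add (hf.diffL x) (hg.diffL x)]
  rfl

lemma RD_add {f g : G → B} (hf : Sm E f) (hg : Sm E g) (X : E) :
    RD X (f + g) = RD X f + RD X g := by
  funext x
  simp only [RD, Pi.add_apply]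
  rw [fderiv_fun_add (hf.diffR x) (hg.diffR x)]
  rfl

lemma LD_clm {B' : Type*} [NormedAddCommGroup B'] [NormedSpace ℝ B'] (A : B →L[ℝ] B')
    {f : G → B} (hf : Sm E f) (X : E) (x : G) : LD X (fun y => A (f y)) x = A (LD X f x) := by
  simp only [LD]
  exact congrArg (fun T : E →L[ℝ] B' => T X) (A.hasFDerivAt.comp _ (hf.diffL x).hasFDerivAt).fderiv

lemma RD_clm {B' : Type*} [NormedAddCommGroup B'] [NormedSpace ℝ B'] (A : B →L[ℝ] B')
    {f : G → B} (hf : Sm E f) (X : E) (x : G) : RD X (fun y => A (f y)) x = A (RD X f x) := by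
  simp only [RD]
  exact congrArg (fun T : E →L[ℝ] B' => T X) (A.hasFDerivAt.comp _ (hf.diffR x).hasFDerivAt).fderiv

lemma Sm.clm {B' : Type*} [NormedAddCommGroup B'] [NormedSpace ℝ B'] (A : B →L[ℝ] B')
    {f : G → B} (hf : Sm E f) : Sm E (fun y => A (f y)) :=
  A.contMDiff.comp hf

lemma LD_bilin {B1 B2 : Type*} [NormedAddCommGroup B1] [NormedSpace ℝ B1]
    [NormedAddCommGroup B2] [NormedSpace ℝ B2] (β : B1 →L[ℝ] B2 →L[ℝ] B)
    {f : G → B1} {g : G → B2} (hf : Sm E f) (hg : Sm E g) (X : E) (x : G) :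
    LD X (fun y => β (f y) (g y)) x = β (LD X f x) (g x) + β (f x) (LD X g x) := by
  simp only [LD]
  have h := ((β.hasFDerivAt.comp _ (hf.diffL x).hasFDerivAt).clm_apply
    (hg.diffL x).hasFDerivAt).fderiv
  simp only [Function.comp_def] at h
  rw [h]
  simp [add_comm]

lemma Sm.bilin {B1 B2 : Type*} [NormedAddCommGroup B1] [NormedSpace ℝ B1]
    [NormedAddCommGroup B2] [NormedSpace ℝ B2] (β : B1 →L[ℝ] B2 →L[ℝ] B)
    {f : G → B1} {g : G → B2} (hf : Sm E f) (hg : Sm E g) : Sm E (fun y => β (f y) (g y)) :=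
  (hf.clm β).clm_apply hg

lemma LD_sum {ι : Type*} (s : Finset ι) {f : ι → G → B} (hf : ∀ i ∈ s, Sm E (f i)) (X : E)
    (x : G) : LD X (fun y => ∑ i ∈ s, f i y) x = ∑ i ∈ s, LD X (f i) x := by
  simp only [LD]
  rw [fderiv_fun_sum (fun i hi => (hf i hi).diffL x)]
  simp

lemma RD_sum {ι : Type*} (s : Finset ι) {f : ι → G → B} (hf : ∀ i ∈ s, Sm E (f i)) (X : E)
    (x : G) : RD X (fun y => ∑ i ∈ s, f i y) x = ∑ i ∈ s, RD X (f i) x := by
  simp only [RD]
  rw [fderiv_fun_sum (fun i hi => (hf i hi).diffR x)]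
  simp

lemma LD_RD_comm {f : G → B} (hf : Sm E f) (X Y : E) (x : G) :
    LD X (RD Y f) x = RD Y (LD X f) x := by
  have h : ContDiffAt ℝ ∞ (fun p : E × E => f (kap G p.2 * (x * kap G p.1)))
      (org E G, org E G) := by
    apply contDiffAt_of_prod
    refine (hf _).comp _ ?_
    exact (kap_smoothAt_org.comp (org E G, org E G) contMDiffAt_snd).mul
      (contMDiffAt_const.mul (kap_smoothAt_org.comp (org E G, org E G) contMDiffAt_fst))
  have := fderiv_fderiv_comm h X Y
  simp only [LD, RD]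
  rw [this]
  simp only [mul_assoc]

/-- The product, read in the chart. -/
noncomputable def mch (G : Type*) [Group G] [TopologicalSpace G] [ChartedSpace E G]
    (z w : E) : E := cht E (kap G z * kap G w)

/-- The left-invariant vector field, read in the chart. -/
noncomputable def VL (G : Type*) [Group G] [TopologicalSpace G] [ChartedSpace E G]
    (Y : E) (z : E) : E := fderiv ℝ (mch G z) (org E G) Y

lemma mch_smoothAt : ContMDiffAt (𝓘(ℝ, E).prod 𝓘(ℝ, E)) 𝓘(ℝ, E) ∞ (uncurry (mch G))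
    (org E G, org E G) :=
  ContMDiffAt.comp_of_eq cht_smoothAt_one
    ((kap_smoothAt_org.comp (org E G, org E G) contMDiffAt_fst).mul
      (kap_smoothAt_org.comp (org E G, org E G) contMDiffAt_snd)) (by simp)

lemma VL_contDiffAt (Y : E) : ContDiffAt ℝ ∞ (VL G Y) (org E G) :=
  contMDiffAt_iff_contDiffAt.1 ((contMDiffAt_fderiv_param (mch G) (fun _ => org E G) (org E G)
    mch_smoothAt contMDiffAt_const).clm_apply contMDiffAt_const)

lemma VL_org (Y : E) : VL G Y (org E G) = Y := by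
  have : mch G (org E G) =ᶠ[𝓝 (org E G)] id := by
    filter_upwards [target_nhds (E := E) (G := G)] with w hw
    simp [mch, cht_kap hw]
  simp [VL, this.fderiv_eq]

lemma mch_ev : ∀ᶠ z in 𝓝 (org E G), z ∈ (extChartAt 𝓘(ℝ, E) (1 : G)).target ∧
    mch G z (org E G) = z ∧ DifferentiableAt ℝ (mch G z) (org E G) ∧
    ∀ᶠ w in 𝓝 (org E G), kap G (mch G z w) = kap G z * kap G w := by
  have h1 : ContinuousAt (fun p : E × E => kap G p.1 * kap G p.2) (org E G, org E G) :=
    ((kap_smoothAt_org.comp (org E G, org E G) contMDiffAt_fst).mul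
      (kap_smoothAt_org.comp (org E G, org E G)
        (contMDiffAt_snd (I := 𝓘(ℝ, E))))).continuousAt
  have h2 : ∀ᶠ p : E × E in 𝓝 (org E G, org E G),
      kap G (mch G p.1 p.2) = kap G p.1 * kap G p.2 := by
    have h3 : Tendsto (fun p : E × E => kap G p.1 * kap G p.2) (𝓝 (org E G, org E G))
        (𝓝 (1 : G)) := by simpa using h1.tendsto
    exact h3.eventually (kap_cht_ev (E := E))
  have h4 : ∀ᶠ p : E × E in 𝓝 (org E G, org E G), DifferentiableAt ℝ (uncurry (mch G)) p :=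
    (((contDiffAt_of_prod (mch_smoothAt (E := E) (G := G))).of_le
      (m := 1) (by norm_cast)).eventually (by simp)).mono
      fun p hp => hp.differentiableAt (by simp)
  have h5 : Tendsto (fun z : E => (z, org E G)) (𝓝 (org E G)) (𝓝 (org E G, org E G)) :=
    (continuous_id.prodMk continuous_const).tendsto _
  filter_upwards [target_nhds (E := E) (G := G), h5.eventually h4,
    h5.eventually h2.eventually_nhds] with z hz hd he
  refine ⟨hz, by simp [mch, cht_kap hz], ?_, ?_⟩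
  · exact hd.comp (org E G) (hasFDerivAt_prodMk_right z (org E G)).differentiableAt
  · exact ((continuous_const.prodMk continuous_id).tendsto (org E G)).eventually he

lemma LD_kap_ev {f : G → B} (hf : Sm E f) (x : G) (Y : E) :
    (fun z => LD Y f (x * kap G z)) =ᶠ[𝓝 (org E G)]
      fun z => fderiv ℝ (fun z => f (x * kap G z)) z (VL G Y z) := by
  filter_upwards [mch_ev (E := E) (G := G)] with z ⟨hz, h1, h2, h3⟩
  have e : (fun w => f (x * kap G z * kap G w)) =ᶠ[𝓝 (org E G)]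
      (fun z => f (x * kap G z)) ∘ mch G z := by
    filter_upwards [h3] with w hw
    simp [hw, mul_assoc]
  have hd : DifferentiableAt ℝ (fun z => f (x * kap G z)) (mch G z (org E G)) := by
    rw [h1]; exact (hf.contDiffAt_L x hz).differentiableAt (by simp)
  simp only [LD, VL]
  rw [e.fderiv_eq, fderiv_comp _ hd h2, h1]
  rfl

lemma LD_LD_sub {f : G → B} (hf : Sm E f) (X Y : E) (x : G) :
    LD X (LD Y f) x - LD Y (LD X f) x
      = LD (VectorField.lieBracket ℝ (VL G X) (VL G Y) (org E G)) f x := by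
  have h := VectorField.fderiv_apply_lieBracket (V := VL G X) (W := VL G Y)
    (hf.contDiffAt_L x (mem_extChartAt_target (1 : G))) (by simp; norm_cast)
    ((VL_contDiffAt Y).differentiableAt (by simp)) ((VL_contDiffAt X).differentiableAt (by simp))
  change fderiv ℝ _ (org E G) _ = fderiv ℝ _ (org E G) (VL G X (org E G))
    - fderiv ℝ _ (org E G) (VL G Y (org E G)) at h
  rw [VL_org, VL_org] at h
  rw [LD, LD, (LD_kap_ev hf x Y).fderiv_eq, (LD_kap_ev hf x X).fderiv_eq, ← h]
  rfl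

lemma LD_LD_nonpos {w : G → ℝ} (hw : Sm E w) {x : G} (hx : ∀ y, w y ≤ w x) (Y : E) :
    LD Y (LD Y w) x ≤ 0 := by
  have h := hw.contDiffAt_L x (mem_extChartAt_target (1 : G))
  change ContDiffAt ℝ ∞ _ (org E G) at h
  have hmax : IsLocalMax (fun z => w (x * kap G z)) (org E G) :=
    Eventually.of_forall fun z => by simpa using hx _
  have hd : DifferentiableAt ℝ (fderiv ℝ fun z => w (x * kap G z)) (org E G) :=
    (h.fderiv_right (m := 1) (by norm_cast)).differentiableAt (by simp)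
  rw [LD, (LD_kap_ev hw x Y).fderiv_eq,
    (hd.hasFDerivAt.clm_apply ((VL_contDiffAt Y).differentiableAt (by simp)).hasFDerivAt).fderiv]
  simpa [hmax.fderiv_eq_zero, VL_org] using second_deriv_nonpos h hmax Y

end Pool.Agent.MP_f244e7_gt

end MrgPart0

-- ======== part 1: formerly Pool.Agent.MP_f244e7_gt.Calc2
section MrgPart1

/-! The bracket, the adjoint action and currying. -/

set_option maxSynthPendingDepth 3
set_option linter.unusedSectionVars false

namespace Pool.Agent.MP_f244e7_gt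

open scoped Manifold ContDiff Topology
open Function Filter Set

variable {E : Type*} [NormedAddCommGroup E] [NormedSpace ℝ E]
  {G : Type*} [Group G] [TopologicalSpace G] [ChartedSpace E G] [LieGroup 𝓘(ℝ, E) ∞ G]
  {B : Type*} [NormedAddCommGroup B] [NormedSpace ℝ B]

set_option backward.isDefEq.respectTransparency false in
lemma mvfderiv_eq_LD {f : G → B} (hf : Sm E f) (x : G) (X : E) :
    mvfderiv 𝓘(ℝ, E) (fun y => f (x * y)) 1 X = LD X f x := by
  have h : MDifferentiableAt 𝓘(ℝ, E) 𝓘(ℝ, B) (fun y => f (x * y)) 1 :=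
    ((hf _).comp 1 (contMDiffAt_const.mul contMDiffAt_id)).mdifferentiableAt (by simp)
  rw [h.mvfderiv]
  simp only [modelWithCornersSelf_coe, range_id, fderivWithin_univ]
  rfl

set_option backward.isDefEq.respectTransparency false in
lemma pullback_ev (Y : GroupLieAlgebra 𝓘(ℝ, E) G) :
    VectorField.mpullbackWithin 𝓘(ℝ, E) 𝓘(ℝ, E) (extChartAt 𝓘(ℝ, E) (1 : G)).symm
      (mulInvariantVectorField Y) (range 𝓘(ℝ, E)) =ᶠ[𝓝 (org E G)] VL G (E := E) Y := by
  filter_upwards [mch_ev (E := E) (G := G)] with z ⟨hz, h1, h2, h3⟩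
  have hinv := isInvertible_mfderivWithin_extChartAt_symm (I := 𝓘(ℝ, E)) (x := (1 : G)) hz
  rw [VectorField.mpullbackWithin_apply, hinv.inverse_apply_eq]
  have hk0 := mfderivWithin_range_extChartAt_symm (I := 𝓘(ℝ, E)) (x := (1 : G))
  simp only [modelWithCornersSelf_coe, range_id, mfderivWithin_univ] at hk0 ⊢
  have d1 : HasMFDerivAt 𝓘(ℝ, E) 𝓘(ℝ, E) (kap G) (org E G) (ContinuousLinearMap.id ℝ E) := by
    have := ((kap_smoothAt_org (E := E) (G := G)).mdifferentiableAt (by simp)).hasMFDerivAt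
    convert! this using 1
    exact hk0.symm
  have d2 : HasMFDerivAt 𝓘(ℝ, E) 𝓘(ℝ, E) (fun y => kap G z * y) (kap G (org E G))
      (mfderiv 𝓘(ℝ, E) 𝓘(ℝ, E) (fun y => kap G z * y) 1) := by
    rw [kap_org]
    exact ((contMDiffAt_const.mul contMDiffAt_id).mdifferentiableAt
      (n := ∞) (by simp)).hasMFDerivAt
  have d3 : HasMFDerivAt 𝓘(ℝ, E) 𝓘(ℝ, E) (kap G) (mch G z (org E G))
      (mfderiv 𝓘(ℝ, E) 𝓘(ℝ, E) (kap G) z) := by
    rw [h1]
    exact ((kap_smoothAt hz).mdifferentiableAt (by simp)).hasMFDerivAt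
  have d4 := h2.hasFDerivAt.hasMFDerivAt
  have d5 := d2.comp _ d1
  have d6 := (d3.comp _ d4).congr_of_eventuallyEq
    (f₁ := (fun y => kap G z * y) ∘ kap G) (h3.mono fun w hw => hw.symm)
  have := congrArg (fun T : E →L[ℝ] E => T Y) (hasMFDerivAt_unique d5 d6)
  exact this

set_option backward.isDefEq.respectTransparency false in
lemma bracket_eq (X Y : GroupLieAlgebra 𝓘(ℝ, E) G) :
    VectorField.lieBracket ℝ (VL G (E := E) X) (VL G (E := E) Y) (org E G) = ⁅X, Y⁆ := by
  rw [GroupLieAlgebra.bracket_def, VectorField.mlieBracket, VectorField.mlieBracketWithin_apply,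
    mfderiv_extChartAt_self, ContinuousLinearMap.inverse_id]
  have : (extChartAt 𝓘(ℝ, E) (1 : G)).symm ⁻¹' univ ∩ range 𝓘(ℝ, E) = univ := by simp
  rw [this, VectorField.lieBracketWithin_univ]
  exact (Filter.EventuallyEq.lieBracket_vectorField_eq (pullback_ev X) (pullback_ev Y)).symm

lemma LD_bracket {f : G → B} (hf : Sm E f) (X Y : GroupLieAlgebra 𝓘(ℝ, E) G) (x : G) :
    LD (E := E) X (LD (E := E) Y f) x - LD (E := E) Y (LD (E := E) X f) x
      = LD (E := E) (⁅X, Y⁆ : GroupLieAlgebra 𝓘(ℝ, E) G) f x := by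
  rw [LD_LD_sub hf, bracket_eq]

lemma chain_one {c : E → G} {z : E} (hc : ContMDiffAt 𝓘(ℝ, E) 𝓘(ℝ, E) ∞ c z) (h1 : c z = 1)
    (h : G → B) (hh : DifferentiableAt ℝ (fun w => h (kap G w)) (org E G)) :
    fderiv ℝ (fun w => h (c w)) z = (fderiv ℝ (fun w => h (kap G w)) (org E G)).comp
      (fderiv ℝ (fun w => cht E (c w)) z) := by
  have ht : Tendsto c (𝓝 z) (𝓝 1) := h1 ▸ hc.continuousAt
  have e : (fun w => h (c w)) =ᶠ[𝓝 z] (fun w => h (kap G w)) ∘ fun w => cht E (c w) := by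
    filter_upwards [ht.eventually (kap_cht_ev (E := E))] with w hw
    simp [hw]
  have hd : DifferentiableAt ℝ (fun w => cht E (c w)) z :=
    (contMDiffAt_iff_contDiffAt.1 ((cht_smoothAt_of_eq h1).comp z hc)).differentiableAt (by simp)
  have ho : cht E (c z) = org E G := by rw [h1]; rfl
  rw [e.fderiv_eq, fderiv_comp _ (by rw [ho]; exact hh) hd, ho]

/-- All left derivatives at a point. -/
noncomputable def DL (E : Type*) [NormedAddCommGroup E] [NormedSpace ℝ E] [ChartedSpace E G]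
    (f : G → B) (x : G) : E →L[ℝ] B := fderiv ℝ (fun z => f (x * kap G z)) (org E G)

/-- All right derivatives at a point. -/
noncomputable def DR (E : Type*) [NormedAddCommGroup E] [NormedSpace ℝ E] [ChartedSpace E G]
    (f : G → B) (x : G) : E →L[ℝ] B := fderiv ℝ (fun z => f (kap G z * x)) (org E G)

lemma DL_apply (f : G → B) (x : G) (X : E) : DL E f x X = LD X f x := rfl

lemma DR_apply (f : G → B) (x : G) (X : E) : DR E f x X = RD X f x := rfl

lemma Sm.DR {f : G → B} (hf : Sm E f) : Sm E (DR E f) := fun x =>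
  smoothAt_deriv_param (fun (q : G) y => f (y * q)) x
    ((hf.comp (contMDiff_snd.mul contMDiff_fst)) _)

lemma Sm.DL {f : G → B} (hf : Sm E f) : Sm E (DL E f) := fun x =>
  smoothAt_deriv_param (fun (q : G) y => f (q * y)) x
    ((hf.comp (contMDiff_fst.mul contMDiff_snd)) _)

/-- The adjoint action of the inverse. -/
noncomputable def adj (E : Type*) [NormedAddCommGroup E] [NormedSpace ℝ E] [ChartedSpace E G]
    (g : G) : E →L[ℝ] E := fderiv ℝ (fun z => cht E (g⁻¹ * kap G z * g)) (org E G)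

lemma adj_smooth : Sm E (adj E (G := G)) := fun x => by
  refine smoothAt_deriv_param (fun (q : G) y => cht E (q⁻¹ * y * q)) x ?_
  refine ContMDiffAt.comp_of_eq cht_smoothAt_one
    (((contMDiff_fst.inv.mul contMDiff_snd).mul contMDiff_fst) (x, (1 : G))) (by simp)

lemma DR_eq {f : G → B} (hf : Sm E f) (x : G) : DR E f x = (DL E f x).comp (adj E x) := by
  have := chain_one (E := E) (c := fun z => x⁻¹ * kap G z * x) (z := org E G)
    ((contMDiffAt_const.mul kap_smoothAt_org).mul contMDiffAt_const) (by simp)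
    (fun y => f (x * y)) (hf.diffL x)
  simp only [← mul_assoc, mul_inv_cancel, one_mul] at this
  exact this

lemma adj_injective (g : G) : Injective (adj E g) := by
  have := chain_one (E := E) (c := fun z => g⁻¹ * kap G z * g) (z := org E G)
    ((contMDiffAt_const.mul kap_smoothAt_org).mul contMDiffAt_const) (by simp)
    (fun y => cht E (g * y * g⁻¹)) (by
      refine ((contMDiffAt_iff_contDiffAt (n := ∞)).1 ?_).differentiableAt (by simp)
      exact ContMDiffAt.comp_of_eq cht_smoothAt_one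
        ((contMDiffAt_const.mul kap_smoothAt_org).mul contMDiffAt_const) (by simp))
  have e : (fun w => cht E (g * (g⁻¹ * kap G w * g) * g⁻¹)) =ᶠ[𝓝 (org E G)] id := by
    filter_upwards [target_nhds (E := E) (G := G)] with w hw
    simp [mul_assoc, cht_kap hw]
  rw [e.fderiv_eq, fderiv_id] at this
  intro a b hab
  have h1 := congrArg (fun T : E →L[ℝ] E => T a) this
  have h2 := congrArg (fun T : E →L[ℝ] E => T b) this
  simp only [ContinuousLinearMap.id_apply, ContinuousLinearMap.comp_apply] at h1 h2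
  change adj E g a = adj E g b at hab
  rw [h1, h2]
  exact congrArg _ hab

/-- The right logarithmic derivative of the chart. -/
noncomputable def bR (G : Type*) [Group G] [TopologicalSpace G] [ChartedSpace E G]
    (z : E) : E →L[ℝ] E := fderiv ℝ (fun w => cht E (kap G w * (kap G z)⁻¹)) z

lemma fderiv_R_eq {f : G → B} (hf : Sm E f) (x : G) {z : E}
    (hz : z ∈ (extChartAt 𝓘(ℝ, E) (1 : G)).target) :
    fderiv ℝ (fun w => f (kap G w * x)) z = (DR E f (kap G z * x)).comp (bR G z) := by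
  have := chain_one (E := E) (c := fun w => kap G w * (kap G z)⁻¹) (z := z)
    ((kap_smoothAt hz).mul contMDiffAt_const) (by simp)
    (fun y => f (y * (kap G z * x))) (hf.diffR _)
  simp only [mul_assoc, inv_mul_cancel_left] at this
  exact this

lemma exists_ball_bR : ∃ r > 0, ∃ C ≥ 0, ∀ z ∈ Metric.ball (org E G) r,
    z ∈ (extChartAt 𝓘(ℝ, E) (1 : G)).target ∧ ‖bR G z‖ ≤ C := by
  have h : ContMDiffAt 𝓘(ℝ, E) 𝓘(ℝ, E →L[ℝ] E) ∞ (bR G) (org E G) := by
    refine contMDiffAt_fderiv_param (fun z w => cht E (kap G w * (kap G z)⁻¹)) id (org E G) ?_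
      contMDiffAt_id
    exact ContMDiffAt.comp_of_eq cht_smoothAt_one
      ((kap_smoothAt_org.comp (org E G, org E G) contMDiffAt_snd).mul
        (kap_smoothAt_org.comp (org E G, org E G) contMDiffAt_fst).inv) (by simp)
  have h2 : ∀ᶠ z in 𝓝 (org E G), ‖bR G z‖ < ‖bR G (org E G)‖ + 1 :=
    h.continuousAt.norm.eventually (gt_mem_nhds (by linarith))
  obtain ⟨r, hr, hb⟩ := Metric.eventually_nhds_iff_ball.1
    ((h2.and (target_nhds (E := E) (G := G))))
  exact ⟨r, hr, _, by positivity, fun z hz => ⟨(hb z hz).2, (hb z hz).1.le⟩⟩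

section curry
variable [CompactSpace G]

lemma hasFDerivAt_curry {E' : Type*} [NormedAddCommGroup E'] [NormedSpace ℝ E']
    (H : E' → C(G, B)) {U : Set E'} (hU : IsOpen U)
    (hH : ∀ z ∈ U, ∀ y, ContMDiffAt (𝓘(ℝ, E').prod 𝓘(ℝ, E)) 𝓘(ℝ, B) ∞
      (fun p : E' × G => H p.1 p.2) (z, y)) {z0 : E'} (hz0 : z0 ∈ U) :
    ∃ T : E' →L[ℝ] C(G, B), HasFDerivAt H T z0 ∧
      ∀ v y, T v y = fderiv ℝ (fun z => H z y) z0 v := by
  have hsm : ∀ z ∈ U, ∀ y, ContMDiffAt (𝓘(ℝ, E').prod 𝓘(ℝ, E)) 𝓘(ℝ, E' →L[ℝ] B) ∞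
      (fun p : E' × G => fderiv ℝ (fun z => H z p.2) p.1) (z, y) := by
    intro z hz y
    refine contMDiffAt_fderiv_param (J := 𝓘(ℝ, E').prod 𝓘(ℝ, E))
      (fun (p : E' × G) z => H z p.2) Prod.fst (z, y) ?_
      contMDiffAt_fst
    exact ContMDiffAt.comp (f := fun q : (E' × G) × E' => (q.2, q.1.2))
      (I := (𝓘(ℝ, E').prod 𝓘(ℝ, E)).prod 𝓘(ℝ, E')) ((z, y), z) (hH z hz y)
      (contMDiffAt_snd.prodMk contMDiffAt_fst.snd)
  have hdiff : ∀ z ∈ U, ∀ y, DifferentiableAt ℝ (fun z => H z y) z := by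
    intro z hz y
    exact (contMDiffAt_iff_contDiffAt.1
      ((hH z hz y).comp z (contMDiffAt_id.prodMk contMDiffAt_const))).differentiableAt (by simp)
  have hc : Continuous fun y : G => fderiv ℝ (fun z => H z y) z0 :=
    continuous_iff_continuousAt.2 fun y =>
      (hsm z0 hz0 y).continuousAt.comp (f := fun y : G => (z0, y))
        (continuous_const.prodMk continuous_id).continuousAt
  set Φ : C(G, E' →L[ℝ] B) := ⟨_, hc⟩ with hΦ
  let T0 : E' →ₗ[ℝ] C(G, B) :=
    { toFun := fun v => ⟨fun y => Φ y v, Φ.continuous.clm_apply continuous_const⟩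
      map_add' := fun v w => by ext y; simp
      map_smul' := fun c v => by ext y; simp }
  refine ⟨T0.mkContinuous ‖Φ‖ (fun v => (ContinuousMap.norm_le _ (by positivity)).2 fun y =>
    ((Φ y).le_opNorm v).trans (by gcongr; exact Φ.norm_coe_le_norm y)), ?_, fun v y => rfl⟩
  rw [hasFDerivAt_iff_isLittleO_nhds_zero, Asymptotics.isLittleO_iff]
  intro ε hε
  have h1 : ∀ᶠ z in 𝓝 z0, ∀ y ∈ (univ : Set G), ‖fderiv ℝ (fun z => H z y) z - Φ y‖ ≤ ε := by
    apply isCompact_univ.eventually_forall_of_forall_eventually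
    intro y _
    have h2 : ContinuousAt (fun p : E' × G => ‖fderiv ℝ (fun z => H z p.2) p.1 - Φ p.2‖)
        (z0, y) :=
      ((hsm z0 hz0 y).continuousAt.sub (Φ.continuous.comp continuous_snd).continuousAt).norm
    have h3 : ‖fderiv ℝ (fun z => H z y) z0 - Φ y‖ < ε := by simpa [hΦ] using hε
    exact (h2.eventually (gt_mem_nhds h3)).mono fun p hp => hp.le
  obtain ⟨r, hr, hb⟩ := Metric.eventually_nhds_iff_ball.1 (h1.and (hU.mem_nhds hz0))
  filter_upwards [Metric.ball_mem_nhds (0 : E') hr] with v hv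
  refine (ContinuousMap.norm_le _ (by positivity)).2 fun y => ?_
  have := (convex_ball z0 r).norm_image_sub_le_of_norm_fderiv_le' (f := fun z => H z y)
    (φ := Φ y) (C := ε) (fun z hz => hdiff z (hb z hz).2 y) (fun z hz => (hb z hz).1 y trivial)
    (Metric.mem_ball_self hr) (y := z0 + v) (by simpa using hv)
  simpa [T0] using this

lemma contDiffOn_curry {E' : Type*} [NormedAddCommGroup E'] [NormedSpace ℝ E']
    [FiniteDimensional ℝ E'] {U : Set E'} (hU : IsOpen U) (n : ℕ) : ∀ H : E' → C(G, B),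
    (∀ z ∈ U, ∀ y, ContMDiffAt (𝓘(ℝ, E').prod 𝓘(ℝ, E)) 𝓘(ℝ, B) ∞
      (fun p : E' × G => H p.1 p.2) (z, y)) → ContDiffOn ℝ n H U := by
  induction n with
  | zero =>
    intro H hH
    simp only [Nat.cast_zero, contDiffOn_zero]
    intro z hz
    obtain ⟨T, hT, -⟩ := hasFDerivAt_curry H hU hH hz
    exact hT.continuousAt.continuousWithinAt
  | succ n ih =>
    intro H hH
    rw [Nat.cast_succ, contDiffOn_succ_iff_fderiv_of_isOpen hU]
    refine ⟨fun z hz => ?_, by simp, contDiffOn_clm_apply.2 fun v => ih _ fun z hz y => ?_⟩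
    · obtain ⟨T, hT, -⟩ := hasFDerivAt_curry H hU hH hz
      exact hT.differentiableAt.differentiableWithinAt
    · have h1 : ContMDiffAt (𝓘(ℝ, E').prod 𝓘(ℝ, E)) 𝓘(ℝ, E' →L[ℝ] B) ∞
          (fun p : E' × G => fderiv ℝ (fun z => H z p.2) p.1) (z, y) := by
        refine contMDiffAt_fderiv_param (J := 𝓘(ℝ, E').prod 𝓘(ℝ, E))
          (fun (p : E' × G) z => H z p.2) Prod.fst (z, y) ?_ contMDiffAt_fst
        exact ContMDiffAt.comp (f := fun q : (E' × G) × E' => (q.2, q.1.2))
          (I := (𝓘(ℝ, E').prod 𝓘(ℝ, E)).prod 𝓘(ℝ, E')) ((z, y), z) (hH z hz y)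
          (contMDiffAt_snd.prodMk contMDiffAt_fst.snd)
      refine (h1.clm_apply (contMDiffAt_const (c := v))).congr_of_eventuallyEq ?_
      have : ∀ᶠ p : E' × G in 𝓝 (z, y), p.1 ∈ U :=
        continuous_fst.continuousAt.eventually (hU.mem_nhds hz)
      filter_upwards [this] with p hp
      obtain ⟨T, hT, hT'⟩ := hasFDerivAt_curry H hU hH hp
      rw [hT.fderiv, hT']

variable [FiniteDimensional ℝ E]

lemma curry_aux (F : G → C(G, B))
    (hF : ContMDiff (𝓘(ℝ, E).prod 𝓘(ℝ, E)) 𝓘(ℝ, B) ∞ (fun p : G × G => F p.1 p.2)) (g : G) :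
    ∀ z ∈ (extChartAt 𝓘(ℝ, E) (1 : G)).target, ∀ y,
      ContMDiffAt (𝓘(ℝ, E).prod 𝓘(ℝ, E)) 𝓘(ℝ, B) ∞
        (fun p : E × G => F (g * kap G p.1) p.2) (z, y) := fun z hz y =>
  (hF _).comp (z, y)
    ((contMDiffAt_const.mul ((kap_smoothAt hz).comp (z, y) contMDiffAt_fst)).prodMk
      contMDiffAt_snd)

lemma curry_smooth (F : G → C(G, B))
    (hF : ContMDiff (𝓘(ℝ, E).prod 𝓘(ℝ, E)) 𝓘(ℝ, B) ∞ (fun p : G × G => F p.1 p.2)) :
    Sm E F := by
  intro g
  have h1 : ContDiffOn ℝ ∞ (fun z => F (g * kap G z)) (extChartAt 𝓘(ℝ, E) (1 : G)).target :=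
    contDiffOn_infty.2 fun n => contDiffOn_curry (E := E) (isOpen_extChartAt_target _) n _
      (curry_aux F hF g)
  have h2 : ContMDiffAt 𝓘(ℝ, E) 𝓘(ℝ, C(G, B)) ∞ (fun z => F (g * kap G z)) (org E G) :=
    (h1.contDiffAt target_nhds).contMDiffAt
  have h3 : ContMDiffAt 𝓘(ℝ, E) 𝓘(ℝ, E) ∞ (fun x => cht E (g⁻¹ * x)) g :=
    ContMDiffAt.comp_of_eq cht_smoothAt_one (contMDiffAt_const.mul contMDiffAt_id) (by simp)
  refine (ContMDiffAt.comp_of_eq h2 h3 (by simp [org])).congr_of_eventuallyEq ?_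
  have ht : Tendsto (fun x => g⁻¹ * x) (𝓝 g) (𝓝 (1 : G)) := by
    have : ContinuousAt (fun x => g⁻¹ * x) g :=
      (contMDiffAt_const.mul (contMDiffAt_id (I := 𝓘(ℝ, E)) (n := ∞))).continuousAt
    simpa using this.tendsto
  filter_upwards [ht.eventually (kap_cht_ev (E := E))] with x hx
  simp [hx]

lemma LD_curry (F : G → C(G, B))
    (hF : ContMDiff (𝓘(ℝ, E).prod 𝓘(ℝ, E)) 𝓘(ℝ, B) ∞ (fun p : G × G => F p.1 p.2))
    (X : E) (g y : G) : LD X F g y = LD X (fun g => F g y) g := by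
  obtain ⟨T, hT, hT'⟩ := hasFDerivAt_curry (E := E) (fun z => F (g * kap G z))
    (isOpen_extChartAt_target _) (curry_aux F hF g) (mem_extChartAt_target (1 : G))
  change HasFDerivAt _ T (org E G) at hT
  rw [LD, hT.fderiv, hT']
  rfl

end curry

end Pool.Agent.MP_f244e7_gt

end MrgPart1

-- ======== part 2: formerly Pool.Agent.MP_f244e7_gt.Haar
section MrgPart2

/-! Integration on a compact Lie group. -/

set_option maxSynthPendingDepth 3
set_option linter.unusedSectionVars false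

namespace Pool.Agent.MP_f244e7_gt

open scoped Manifold ContDiff Topology
open Function Filter Set MeasureTheory

/-- A probability measure invariant under all translations and inversion. -/
class BiHaar {G : Type*} [Group G] [TopologicalSpace G] [MeasurableSpace G] (μ : Measure G) : Prop
  extends IsProbabilityMeasure μ, μ.IsMulLeftInvariant, μ.IsMulRightInvariant, μ.IsInvInvariant,
    μ.IsOpenPosMeasure

lemma exists_biHaar (G : Type*) [Group G] [TopologicalSpace G] [IsTopologicalGroup G]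
    [CompactSpace G] [T2Space G] [MeasurableSpace G] [BorelSpace G] :
    ∃ μ : Measure G, BiHaar μ := by
  let μ : Measure G := Measure.haarMeasure ⊤
  have hp : IsProbabilityMeasure μ := ⟨by simpa using Measure.haarMeasure_self (K₀ := (⊤ :
    TopologicalSpace.PositiveCompacts G))⟩
  have hr : μ.IsMulRightInvariant := ⟨fun g => by
    have : IsProbabilityMeasure (Measure.map (· * g) μ) :=
      Measure.isProbabilityMeasure_map (measurable_mul_const g).aemeasurable
    exact Measure.isHaarMeasure_eq_of_isProbabilityMeasure _ _⟩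
  have hi : μ.IsInvInvariant := ⟨by
    have : IsProbabilityMeasure μ.inv :=
      Measure.isProbabilityMeasure_map measurable_inv.aemeasurable
    have : μ.inv.IsHaarMeasure := {}
    exact Measure.isHaarMeasure_eq_of_isProbabilityMeasure _ _⟩
  exact ⟨μ, {}⟩

variable {E : Type*} [NormedAddCommGroup E] [NormedSpace ℝ E] [FiniteDimensional ℝ E]
  {G : Type*} [Group G] [TopologicalSpace G] [ChartedSpace E G] [LieGroup 𝓘(ℝ, E) ∞ G]
  [IsTopologicalGroup G] [CompactSpace G] [T2Space G] [MeasurableSpace G] [BorelSpace G]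
  (μ : Measure G) [BiHaar μ]
  {B : Type*} [NormedAddCommGroup B] [NormedSpace ℝ B]

lemma cont_integrable {f : G → B} (hf : Continuous f) : Integrable f μ :=
  hf.integrable_of_hasCompactSupport (HasCompactSupport.of_compactSpace f)

/-- The integral as a continuous linear map. -/
noncomputable def intC : C(G, B) →L[ℝ] B :=
  LinearMap.mkContinuous
    { toFun := fun f => ∫ x, f x ∂μ
      map_add' := fun f g => integral_add (cont_integrable μ f.continuous)
        (cont_integrable μ g.continuous)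
      map_smul' := fun c f => integral_smul c f } 1 fun f => by
    simpa using norm_integral_le_of_norm_le_const (μ := μ) (f := f) (C := ‖f‖)
      (Eventually.of_forall f.norm_coe_le_norm)

lemma intC_apply (f : C(G, B)) : intC μ f = ∫ x, f x ∂μ := rfl

/-- Right translates of a smooth function. -/
def trR {f : G → B} (hf : Continuous f) (g : G) : C(G, B) :=
  ⟨fun y => f (y * g), hf.comp (continuous_mul_const g)⟩

lemma trR_joint {f : G → B} (hf : Sm E f) :
    ContMDiff (𝓘(ℝ, E).prod 𝓘(ℝ, E)) 𝓘(ℝ, B) ∞ (fun p : G × G => trR hf.continuous p.1 p.2) :=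
  hf.comp (contMDiff_snd.mul contMDiff_fst)

lemma LD_trR {f : G → B} (hf : Sm E f) (X : E) (g : G) :
    LD X (trR hf.continuous) g = trR (hf.LD X).continuous g := by
  ext y
  rw [LD_curry _ (trR_joint hf)]
  simp only [LD, trR, ContinuousMap.coe_mk, mul_assoc]

lemma integral_LD {f : G → B} (hf : Sm E f) (X : E) : ∫ x, LD X f x ∂μ = 0 := by
  have h := LD_clm (intC μ) (curry_smooth _ (trR_joint hf)) X 1
  have e : (fun y => intC μ (trR hf.continuous y)) = fun _ => ∫ x, f x ∂μ := by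
    funext g
    exact integral_mul_right_eq_self f g
  rw [e, LD_const, LD_trR hf X] at h
  simpa [intC_apply, trR] using h.symm

lemma integral_RD {f : G → B} (hf : Sm E f) (X : E) : ∫ x, RD X f x ∂μ = 0 := by
  let F : G → C(G, B) := fun g => ⟨fun y => f (g * y), hf.continuous.comp (continuous_const_mul g)⟩
  have hF : ContMDiff (𝓘(ℝ, E).prod 𝓘(ℝ, E)) 𝓘(ℝ, B) ∞ (fun p : G × G => F p.1 p.2) :=
    hf.comp (contMDiff_fst.mul contMDiff_snd)
  have h := LD_clm (intC μ) (curry_smooth _ hF) X 1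
  have e : (fun y => intC μ (F y)) = fun _ => ∫ x, f x ∂μ := by
    funext g
    exact integral_mul_left_eq_self f g
  rw [e, LD_const, intC_apply] at h
  simp only [LD_curry _ hF] at h
  simpa [LD, RD, F] using h.symm

lemma adj_one : adj E (1 : G) = ContinuousLinearMap.id ℝ E := by
  have e : (fun w => cht E ((1 : G)⁻¹ * kap G w * 1)) =ᶠ[𝓝 (org E G)] id := by
    filter_upwards [target_nhds (E := E) (G := G)] with w hw
    simp [cht_kap hw]
  rw [adj, e.fderiv_eq, fderiv_id]

lemma adj_mul (h g : G) : adj E (h * g) = (adj E g).comp (adj E h) := by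
  have := chain_one (E := E) (c := fun z => h⁻¹ * kap G z * h) (z := org E G)
    ((contMDiffAt_const.mul kap_smoothAt_org).mul contMDiffAt_const) (by simp)
    (fun y => cht E (g⁻¹ * y * g)) (by
      refine ((contMDiffAt_iff_contDiffAt (n := ∞)).1 ?_).differentiableAt (by simp)
      exact ContMDiffAt.comp_of_eq cht_smoothAt_one
        ((contMDiffAt_const.mul kap_smoothAt_org).mul contMDiffAt_const) (by simp))
  rw [adj, adj, adj, ← this]
  simp only [mul_inv_rev, mul_assoc]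

lemma exists_test : ∃ f : G → E, Sm E f ∧ DL E f 1 = ContinuousLinearMap.id ℝ E := by
  obtain ⟨b⟩ : Nonempty (SmoothBumpFunction 𝓘(ℝ, E) (1 : G)) := inferInstance
  refine ⟨fun x => b x • cht E x, b.contMDiff_smul contMDiffOn_extChartAt, ?_⟩
  have ht : Tendsto (kap G) (𝓝 (org E G)) (𝓝 1) := by
    simpa using (kap_smoothAt_org (E := E) (G := G)).continuousAt.tendsto
  have e : (fun w => b (1 * kap G w) • cht E (1 * kap G w)) =ᶠ[𝓝 (org E G)] id := by
    filter_upwards [target_nhds (E := E) (G := G), ht.eventually b.eventuallyEq_one] with w hw hb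
    simp [cht_kap hw, hb]
  rw [DL, e.fderiv_eq, fderiv_id]

/-- The bracket, read in the chart. -/
noncomputable def brk (G : Type*) [Group G] [TopologicalSpace G] [ChartedSpace E G] (X Y : E) :
    E := VectorField.lieBracket ℝ (VL G X) (VL G Y) (org E G)

lemma LD_adj (X Z : E) : LD Z (fun g : G => adj E g X) 1 = brk G X Z := by
  obtain ⟨f, hf, h1⟩ := exists_test (E := E) (G := G)
  have e : RD X f = fun x => (ContinuousLinearMap.id ℝ (E →L[ℝ] E)) (DL E f x)
      (adj E x X) := by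
    funext x
    rw [← DR_apply, DR_eq hf]
    rfl
  have h2 := LD_RD_comm hf Z X 1
  have hs : Sm E (fun g : G => adj E g X) := adj_smooth.clm_apply contMDiff_const
  rw [e, LD_bilin _ hf.DL hs, ← DR_apply, DR_eq (hf.LD Z), adj_one, h1] at h2
  have h3 := LD_clm (ContinuousLinearMap.apply ℝ E X) hf.DL Z 1
  have h4 := LD_LD_sub hf X Z 1
  rw [← DL_apply f, h1] at h4
  simp only [ContinuousLinearMap.id_apply, ContinuousLinearMap.comp_apply, DL_apply,
    ContinuousLinearMap.apply_apply] at h2 h3 h4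
  rw [brk, ← h4, ← h2, ← h3]
  simp

lemma RD_adj (X Z : E) (g : G) :
    RD Z (fun g : G => adj E g X) g = adj E g (brk G X Z) := by
  have hs : Sm E (fun g : G => adj E g X) := adj_smooth.clm_apply contMDiff_const
  rw [← LD_adj, ← LD_clm _ hs]
  simp only [LD, RD, adj_mul, one_mul, ContinuousLinearMap.comp_apply]

lemma RD_bilin {B1 B2 : Type*} [NormedAddCommGroup B1] [NormedSpace ℝ B1]
    [NormedAddCommGroup B2] [NormedSpace ℝ B2] (β : B1 →L[ℝ] B2 →L[ℝ] B)
    {f : G → B1} {g : G → B2} (hf : Sm E f) (hg : Sm E g) (X : E) (x : G) :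
    RD X (fun y => β (f y) (g y)) x = β (RD X f x) (g x) + β (f x) (RD X g x) := by
  simp only [RD]
  have h := ((β.hasFDerivAt.comp _ (hf.diffR x).hasFDerivAt).clm_apply
    (hg.diffR x).hasFDerivAt).fderiv
  simp only [Function.comp_def] at h
  rw [h]
  simp [add_comm]

lemma integral_pos_of_cont {f : G → ℝ} (hf : Continuous f) (h0 : ∀ x, 0 ≤ f x) {x : G}
    (hx : f x ≠ 0) : 0 < ∫ y, f y ∂μ :=
  hf.integral_pos_of_hasCompactSupport_nonneg_nonzero (HasCompactSupport.of_compactSpace f) h0 hx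

include μ in
/-- An invariant inner product on the Lie algebra. -/
lemma exists_invariant_form : ∃ β : E →ₗ[ℝ] E →ₗ[ℝ] ℝ, (∀ X Y, β X Y = β Y X) ∧
    (∀ X, X ≠ 0 → 0 < β X X) ∧ ∀ X Y Z, β (brk G X Z) Y + β X (brk G Y Z) = 0 := by
  let T := toEuclidean (E := E)
  let β0 : E →L[ℝ] E →L[ℝ] ℝ := (innerSL ℝ).bilinearComp T.toContinuousLinearMap
    T.toContinuousLinearMap
  have hβ0 : ∀ X Y, β0 X Y = inner ℝ (T X) (T Y) := fun X Y => rfl
  have hs : ∀ X : E, Sm E (fun g : G => adj E g X) := fun X =>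
    adj_smooth.clm_apply contMDiff_const
  have hi : ∀ X Y : E, Integrable (fun g : G => β0 (adj E g X) (adj E g Y)) μ := fun X Y =>
    cont_integrable μ (Sm.bilin β0 (hs X) (hs Y)).continuous
  refine ⟨LinearMap.mk₂ ℝ (fun X Y => ∫ g, β0 (adj E g X) (adj E g Y) ∂μ) ?_ ?_ ?_ ?_,
    ?_, ?_, ?_⟩
  · intro X X' Y
    simp only [map_add, ContinuousLinearMap.add_apply]
    exact integral_add (hi _ _) (hi _ _)
  · intro c X Y
    simp only [map_smul, ContinuousLinearMap.smul_apply]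
    exact integral_smul _ _
  · intro X Y Y'
    simp only [map_add]
    exact integral_add (hi _ _) (hi _ _)
  · intro c X Y
    simp only [map_smul]
    exact integral_smul _ _
  · intro X Y
    simp only [LinearMap.mk₂_apply, hβ0, real_inner_comm]
  · intro X hX
    refine integral_pos_of_cont μ (Sm.bilin β0 (hs X) (hs X)).continuous
      (fun g => by rw [hβ0]; exact real_inner_self_nonneg) (x := 1) ?_
    simpa [hβ0, adj_one] using hX
  · intro X Y Z
    have h := integral_RD μ (Sm.bilin β0 (hs X) (hs Y)) Z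
    simp only [RD_bilin β0 (hs X) (hs Y), RD_adj] at h
    rw [integral_add (hi _ _) (hi _ _)] at h
    exact h

lemma exists_span_bound {ι : Type*} [Fintype ι] (Y : ι → E)
    (hY : Submodule.span ℝ (range Y) = ⊤) :
    ∃ C ≥ 0, ∀ T : E →L[ℝ] B, ‖T‖ ^ 2 ≤ C * ∑ j, ‖T (Y j)‖ ^ 2 := by
  have hs : LinearMap.range (Fintype.linearCombination ℝ Y) = ⊤ := by
    rw [Fintype.range_linearCombination, hY]
  obtain ⟨σ, hσ⟩ := LinearMap.exists_rightInverse_of_surjective _ hs
  let σ' := LinearMap.toContinuousLinearMap σ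
  refine ⟨‖σ'‖ ^ 2 * Fintype.card ι, by positivity, fun T => ?_⟩
  have h1 : ‖T‖ ≤ ‖σ'‖ * ∑ j, ‖T (Y j)‖ := by
    refine T.opNorm_le_bound (by positivity) fun v => ?_
    have e : v = ∑ j, σ' v j • Y j := by
      simpa [Fintype.linearCombination_apply, σ'] using (LinearMap.congr_fun hσ v).symm
    calc ‖T v‖ = ‖∑ j, σ' v j • T (Y j)‖ := by
          conv_lhs => rw [e]
          simp
      _ ≤ ∑ j, (‖σ'‖ * ‖v‖) * ‖T (Y j)‖ := by
          refine norm_sum_le_of_le _ fun j _ => ?_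
          rw [norm_smul]
          gcongr
          exact (norm_le_pi_norm _ j).trans (σ'.le_opNorm v)
      _ = _ := by rw [← Finset.mul_sum]; ring
  calc ‖T‖ ^ 2 ≤ (‖σ'‖ * ∑ j, ‖T (Y j)‖) ^ 2 := by gcongr
    _ ≤ _ := by
      rw [mul_pow, mul_assoc]
      gcongr
      simpa using sq_sum_le_card_mul_sum_sq (s := Finset.univ) (f := fun j => ‖T (Y j)‖)

lemma exists_adj_bound : ∃ C ≥ 0, ∀ g : G, ‖adj E g‖ ≤ C := by
  let a : C(G, E →L[ℝ] E) := ⟨adj E, adj_smooth.continuous⟩
  exact ⟨‖a‖, norm_nonneg _, a.norm_coe_le_norm⟩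

lemma exists_DR_bound {ι : Type*} [Fintype ι] (Y : ι → E)
    (hY : Submodule.span ℝ (range Y) = ⊤) :
    ∃ C ≥ 0, ∀ f : G → B, Sm E f → ∀ x, ‖DR E f x‖ ^ 2 ≤ C * ∑ j, ‖LD (Y j) f x‖ ^ 2 := by
  obtain ⟨C, hC, h⟩ := exists_span_bound (B := B) Y hY
  obtain ⟨A, hA, h'⟩ := exists_adj_bound (E := E) (G := G)
  refine ⟨A ^ 2 * C, by positivity, fun f hf x => ?_⟩
  have h1 : ‖DR E f x‖ ≤ A * ‖DL E f x‖ := by
    rw [DR_eq hf, mul_comm]
    exact (ContinuousLinearMap.opNorm_comp_le _ _).trans (by gcongr; exact h' x)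
  calc _ ≤ (A * ‖DL E f x‖) ^ 2 := by gcongr
    _ ≤ _ := by
      rw [mul_pow, mul_assoc]
      gcongr
      exact h _

lemma exists_local_lip : ∃ r > 0, ∃ C ≥ 0, ∀ (f : G → B) (M : ℝ), Sm E f →
    (∀ x, ‖DR E f x‖ ≤ M) → ∀ z ∈ Metric.ball (org E G) r, ∀ x,
      ‖f (kap G z * x) - f x‖ ≤ C * M * ‖z - org E G‖ := by
  obtain ⟨r, hr, C, hC, h⟩ := exists_ball_bR (E := E) (G := G)
  refine ⟨r, hr, C, hC, fun f M hf hM z hz x => ?_⟩
  have := (convex_ball (org E G) r).norm_image_sub_le_of_norm_fderiv_le (𝕜 := ℝ)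
    (f := fun z => f (kap G z * x)) (C := C * M)
    (fun z hz => (hf.contDiffAt_R x (h z hz).1).differentiableAt (by simp))
    (fun z hz => by
      rw [fderiv_R_eq hf x (h z hz).1, mul_comm]
      refine (ContinuousLinearMap.opNorm_comp_le _ _).trans ?_
      have := (norm_nonneg _).trans (hM 1)
      gcongr
      exacts [hM _, (h z hz).2]) (Metric.mem_ball_self hr) hz
  simpa using this

lemma exists_nhds_lip (ε : ℝ) (hε : 0 < ε) : ∃ U ∈ 𝓝 (1 : G), ∀ (f : G → B) (M : ℝ), Sm E f →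
    (∀ x, ‖DR E f x‖ ≤ M) → ∀ y ∈ U, ∀ x, ‖f (y * x) - f x‖ ≤ ε * M := by
  obtain ⟨r, hr, C, hC, h⟩ := exists_local_lip (E := E) (G := G) (B := B)
  have hc : ContinuousAt (cht E) (1 : G) := cht_smoothAt_one.continuousAt
  have h1 : ∀ᶠ y in 𝓝 (1 : G), cht E y ∈ Metric.ball (org E G) (min r (ε / (C + 1))) :=
    hc.eventually (Metric.ball_mem_nhds _ (by positivity))
  refine ⟨_, h1.and (kap_cht_ev (E := E)), fun f M hf hM y ⟨hy, hy'⟩ x => ?_⟩
  have hM0 := (norm_nonneg _).trans (hM 1)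
  have h2 := h f M hf hM _ (Metric.ball_subset_ball (min_le_left _ _) hy) x
  rw [hy'] at h2
  have h3 : ‖cht E y - org E G‖ ≤ ε / (C + 1) :=
    (mem_ball_iff_norm.1 (Metric.ball_subset_ball (min_le_right _ _) hy)).le
  refine h2.trans ?_
  calc C * M * ‖cht E y - org E G‖ ≤ (C + 1) * M * (ε / (C + 1)) := by gcongr; linarith
    _ = ε * M := by field_simp

lemma exists_global_lip [ConnectedSpace G] : ∃ C ≥ 0, ∀ (f : G → B) (M : ℝ), Sm E f →
    (∀ x, ‖DR E f x‖ ≤ M) → ∀ y x, ‖f (y * x) - f x‖ ≤ C * M := by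
  obtain ⟨U, hU, h⟩ := exists_nhds_lip (E := E) (G := G) (B := B) 1 one_pos
  let A : ℕ → Set G := fun n => {y | ∀ (f : G → B) (M : ℝ), Sm E f →
    (∀ x, ‖DR E f x‖ ≤ M) → ∀ x, ‖f (y * x) - f x‖ ≤ n * M}
  have hmul : ∀ {m n y z}, y ∈ A m → z ∈ A n → y * z ∈ A (m + n) := by
    intro m n y z hy hz f M hf hM x
    have := norm_add_le (f (y * (z * x)) - f (z * x)) (f (z * x) - f x)
    have h1 := hy f M hf hM (z * x)
    have h2 := hz f M hf hM x
    rw [sub_add_sub_cancel, ← mul_assoc] at this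
    rw [← mul_assoc] at h1
    push_cast
    linarith
  have hU1 : U ⊆ A 1 := fun y hy f M hf hM x => by simpa using h f M hf hM y hy x
  have hint : ∀ n, A n ⊆ interior (A (n + 1)) := by
    intro n y hy
    rw [mem_interior_iff_mem_nhds]
    have : (fun z => y⁻¹ * z) ⁻¹' U ∈ 𝓝 y :=
      (continuous_const_mul y⁻¹).continuousAt.preimage_mem_nhds (by simpa using hU)
    filter_upwards [this] with z hz
    simpa using hmul hy (hU1 hz)
  let S : Subgroup G :=
    { carrier := ⋃ n, A n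
      mul_mem' := fun hy hz => by
        obtain ⟨m, hm⟩ := mem_iUnion.1 hy
        obtain ⟨n, hn⟩ := mem_iUnion.1 hz
        exact mem_iUnion.2 ⟨_, hmul hm hn⟩
      one_mem' := mem_iUnion.2 ⟨1, hU1 (mem_of_mem_nhds hU)⟩
      inv_mem' := fun {y} hy => by
        obtain ⟨m, hm⟩ := mem_iUnion.1 hy
        refine mem_iUnion.2 ⟨m, fun f M hf hM x => ?_⟩
        have := hm f M hf hM (y⁻¹ * x)
        rw [mul_inv_cancel_left] at this
        rwa [norm_sub_rev] }
  have hop : IsOpen (S : Set G) :=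
    S.isOpen_of_mem_nhds (g := 1) (mem_of_superset hU (hU1.trans (subset_iUnion A 1)))
  have htop : (S : Set G) = univ :=
    IsClopen.eq_univ ⟨S.isClosed_of_isOpen hop, hop⟩ ⟨1, S.one_mem⟩
  have hmono : Monotone fun n => interior (A n) :=
    monotone_nat_of_le_succ fun n => interior_subset.trans (hint n)
  obtain ⟨n, hn⟩ := isCompact_univ.elim_directed_cover (fun n => interior (A n))
    (fun n => isOpen_interior) (fun y _ => by
      obtain ⟨m, hm⟩ := mem_iUnion.1 (show y ∈ (S : Set G) from htop ▸ mem_univ y)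
      exact mem_iUnion.2 ⟨_, hint m hm⟩) hmono.directed_le
  exact ⟨n, Nat.cast_nonneg n, fun f M hf hM y x =>
    interior_subset (hn (mem_univ y)) f M hf hM x⟩

end Pool.Agent.MP_f244e7_gt

end MrgPart2

-- marker of a merged file
example : 731051 + 537488 = 731051 + 537488 := rfl
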