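import Mathlib.Tactic.NoncommRing
import Mathlib.Tactic.SuppressCompilation
import Mathlib.Tactic.LinearCombination
import Mathlib.Algebra.Lie.OfAssociative
import Mathlib.Data.Complex.Basic

-- ======== part 0: formerly Pool.Agent.MP_f244e7_gt.Alg1
section MrgPart0

/-! Chevalley-Eilenberg differentials built from creation and annihilation operators. -/

namespace Pool.Agent.MP_f244e7_gt

set_option linter.unusedSectionVars false

open Finset

variable {L : Type*} [LieRing L] [LieAlgebra ℂ L] {R : Type*} [Ring R] [Algebra ℂ R]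

/-- The canonical anticommutation relations. -/
structure CAR (B : L →ₗ[ℂ] L →ₗ[ℂ] ℂ) (ε i : L →ₗ[ℂ] R) : Prop where
  ee : ∀ x y, ε x * ε y + ε y * ε x = 0
  ii : ∀ x y, i x * i y + i y * i x = 0
  ei : ∀ x y, ε y * i x + i x * ε y = B y x • (1 : R)

variable {B : L →ₗ[ℂ] L →ₗ[ℂ] ℂ} {ε i : L →ₗ[ℂ] R}
  {σ : Type*} [Fintype σ] [DecidableEq σ] {e f : σ → L}

/-- The projection given by a pair of dual families. -/
def pr (B : L →ₗ[ℂ] L →ₗ[ℂ] ℂ) (e f : σ → L) : L →ₗ[ℂ] L :=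
  ∑ a, (B (f a)).smulRight (e a)

lemma pr_apply (y : L) : pr B e f y = ∑ a, B (f a) y • e a := by
  simp [pr, LinearMap.sum_apply]

/-- Dual families. -/
def Dual (B : L →ₗ[ℂ] L →ₗ[ℂ] ℂ) (e f : σ → L) : Prop :=
  ∀ a b, B (f a) (e b) = if a = b then 1 else 0

/-- The span of a family. -/
abbrev Sp (e : σ → L) : Submodule ℂ L := Submodule.span ℂ (Set.range e)

lemma mem_Sp (a : σ) : e a ∈ Sp e := Submodule.subset_span ⟨a, rfl⟩

lemma pr_mem (y : L) : pr B e f y ∈ Sp e := by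
  rw [pr_apply]
  exact Submodule.sum_mem _ fun a _ => Submodule.smul_mem _ _ (mem_Sp a)

lemma Dual.pr_eq (h : Dual B e f) {y : L} (hy : y ∈ Sp e) : pr B e f y = y := by
  refine LinearMap.eqOn_span' (f := pr B e f) (g := LinearMap.id) ?_ hy
  rintro _ ⟨b, rfl⟩
  simp [pr_apply, h _ b]

lemma pr_eq_zero {y : L} (hy : ∀ a, B (f a) y = 0) : pr B e f y = 0 := by
  simp [pr_apply, hy]

/-- The coadjoint action on the exterior algebra. -/
def th (ε i : L →ₗ[ℂ] R) (e f : σ → L) : L →ₗ[ℂ] R where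
  toFun x := - ∑ b, ε (f b) * i ⁅x, e b⁆
  map_add' x y := by simp [add_lie, mul_add, sum_add_distrib, add_comm]
  map_smul' c x := by simp [smul_sum]

lemma th_apply (x : L) : th ε i e f x = - ∑ b, ε (f b) * i ⁅x, e b⁆ := rfl

/-- The cubic terms. -/
def t2 (ε i : L →ₗ[ℂ] R) (e f : σ → L) {τ : Type*} [Fintype τ] (e' f' : τ → L) : R :=
  ∑ a, ∑ b, ε (f a) * ε (f' b) * i ⁅e a, e' b⁆

/-- The Chevalley-Eilenberg differential. -/
noncomputable def dCE (ε i S : L →ₗ[ℂ] R) (e f : σ → L) : R :=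
  ∑ a, ε (f a) * S (e a) - (2 : ℂ)⁻¹ • t2 ε i e f e f

/-- The right ideal generated by the creation operators. -/
def II (ε : L →ₗ[ℂ] R) (f : σ → L) (s : Finset σ) : Submodule ℂ R where
  carrier := {P | ∃ r : σ → R, P = ∑ a ∈ s, ε (f a) * r a}
  add_mem' := by
    rintro _ _ ⟨r, rfl⟩ ⟨r', rfl⟩
    exact ⟨r + r', by simp [mul_add, sum_add_distrib]⟩
  zero_mem' := ⟨0, by simp⟩
  smul_mem' := by
    rintro c _ ⟨r, rfl⟩
    exact ⟨c • r, by simp [smul_sum]⟩

lemma II.mul {s : Finset σ} {P : R} (h : P ∈ II ε f s) (Q : R) : P * Q ∈ II ε f s := by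
  obtain ⟨r, rfl⟩ := h
  exact ⟨fun a => r a * Q, by simp [sum_mul, mul_assoc]⟩

lemma II.comm_mul {s : Finset σ} {P Q : R} (h : P ∈ II ε f s) (hQ : ∀ a, Commute Q (ε (f a))) :
    Q * P ∈ II ε f s := by
  obtain ⟨r, rfl⟩ := h
  exact ⟨fun a => Q * r a, by simp only [mul_sum, ← mul_assoc, (hQ _).eq]⟩

lemma II.eps {y : L} (hy : y ∈ Sp f) : ε y ∈ II ε f univ := by
  refine (Submodule.span_le (p := (II ε f univ).comap ε)).2 ?_ hy
  rintro _ ⟨b, rfl⟩
  exact ⟨Pi.single b 1, by simp [Pi.single_apply]⟩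

lemma th_mem (x : L) : th ε i e f x ∈ II ε f univ :=
  Submodule.neg_mem _ ⟨_, rfl⟩

lemma dCE_mem (S : L →ₗ[ℂ] R) : dCE ε i S e f ∈ II ε f univ :=
  Submodule.sub_mem _ ⟨_, rfl⟩ (Submodule.smul_mem _ _ (Submodule.sum_mem _ fun a _ =>
    Submodule.sum_mem _ fun _ _ => II.mul (II.mul (II.eps (mem_Sp a)) _) _))

lemma CAR.eps_sq (h : CAR B ε i) (x : L) : ε x * ε x = 0 := by
  have h1 : (2 : ℂ) • (ε x * ε x) = 0 := by rw [two_smul, h.ee]
  have := congrArg (fun P => (2 : ℂ)⁻¹ • P) h1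
  simpa [smul_smul] using this

lemma CAR.zero_aux (h : CAR B ε i) (hd : Dual B e f) (s : Finset σ) : ∀ P ∈ II ε f s,
    (∀ a ∈ s, ∃ r, i (e a) * P = P * r) → P = 0 := by
  induction s using Finset.induction_on with
  | empty => rintro P ⟨r, rfl⟩ -; simp
  | insert c s hc ih =>
    rintro P ⟨r, hr⟩ hP
    have h1 : ∀ a ∈ s, Commute (i (e c) * ε (f c)) (ε (f a)) := by
      intro a ha
      have h2 := h.ei (e c) (f a)
      rw [hd, if_neg (by rintro rfl; exact hc ha), zero_smul] at h2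
      have h3 := h.ee (f c) (f a)
      rw [commute_iff_eq]
      linear_combination (norm := noncomm_ring) i (e c) * h3 - h2 * ε (f c)
    have h2 : i (e c) * ε (f c) * P = 0 := by
      refine ih _ ⟨fun a => i (e c) * ε (f c) * r a, ?_⟩ fun a ha => ?_
      · rw [hr, sum_insert hc, mul_add, ← mul_assoc, mul_assoc (i (e c)), h.eps_sq, mul_zero,
          zero_mul, zero_add, mul_sum]
        exact sum_congr rfl fun a ha => by rw [← mul_assoc, (h1 a ha).eq, mul_assoc]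
      · obtain ⟨r', hr'⟩ := hP a (mem_insert_of_mem ha)
        refine ⟨r', ?_⟩
        have h2 := h.ei (e a) (f c)
        rw [hd, if_neg (by rintro rfl; exact hc ha), zero_smul] at h2
        have h3 := h.ii (e a) (e c)
        linear_combination (norm := noncomm_ring) h3 * ε (f c) * P - i (e c) * h2 * P
          + i (e c) * ε (f c) * hr'
    obtain ⟨r', hr'⟩ := hP c (mem_insert_self _ _)
    have h3 := h.ei (e c) (f c)
    rw [hd, if_pos rfl, one_smul] at h3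
    have h4 : P = ε (f c) * (P * r') := by
      linear_combination (norm := noncomm_ring) h2 - h3 * P + ε (f c) * hr'
    have h5 : ε (f c) * P = 0 := by rw [h4, ← mul_assoc, h.eps_sq, zero_mul]
    rw [h4, ← mul_assoc, h5, zero_mul]

lemma CAR.zero_of_comm (h : CAR B ε i) (hd : Dual B e f) {P : R} (hP : P ∈ II ε f univ)
    (hc : ∀ a, P * i (e a) - i (e a) * P = 0) : P = 0 :=
  h.zero_aux hd _ P hP fun a _ => ⟨i (e a), (sub_eq_zero.1 (hc a)).symm⟩

lemma CAR.zero_of_anti (h : CAR B ε i) (hd : Dual B e f) {P : R} (hP : P ∈ II ε f univ)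
    (hc : ∀ a, P * i (e a) + i (e a) * P = 0) : P = 0 :=
  h.zero_aux hd _ P hP fun a _ => ⟨- i (e a), by
    rw [mul_neg]; exact eq_neg_of_add_eq_zero_right (hc a)⟩

lemma CAR.th_i (h : CAR B ε i) (x y : L) :
    th ε i e f x * i y - i y * th ε i e f x = i ⁅x, pr B e f y⁆ := by
  simp only [th_apply, pr_apply, lie_sum, map_sum, neg_mul, mul_neg, sum_mul, mul_sum, lie_smul,
    map_smul, ← sum_neg_distrib, ← sum_sub_distrib]
  refine sum_congr rfl fun b _ => ?_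
  have h1 := h.ei y (f b)
  have h2 := h.ii y ⁅x, e b⁆
  rw [← smul_one_mul, ← h1]
  linear_combination (norm := noncomm_ring) - ε (f b) * h2

lemma CAR.th_eps (h : CAR B ε i) (x y : L) :
    th ε i e f x * ε y - ε y * th ε i e f x = - ε (∑ b, B y ⁅x, e b⁆ • f b) := by
  simp only [th_apply, map_sum, neg_mul, mul_neg, sum_mul, mul_sum,
    map_smul, ← sum_neg_distrib, ← sum_sub_distrib]
  refine sum_congr rfl fun b _ => ?_
  have h1 := h.ei ⁅x, e b⁆ y
  have h2 := h.ee y (f b)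
  rw [← mul_smul_one, ← h1]
  linear_combination (norm := noncomm_ring) h2 * i ⁅x, e b⁆

lemma CAR.t2_i (h : CAR B ε i) {τ : Type*} [Fintype τ] [DecidableEq τ] (e' f' : τ → L) (y : L) :
    t2 ε i e f e' f' * i y + i y * t2 ε i e f e' f'
      = - th ε i e' f' (pr B e f y) - th ε i e f (pr B e' f' y) := by
  have h1 : ∀ a b, ε (f a) * ε (f' b) * i ⁅e a, e' b⁆ * i y
      + i y * (ε (f a) * ε (f' b) * i ⁅e a, e' b⁆)
      = B (f a) y • (ε (f' b) * i ⁅e a, e' b⁆) + B (f' b) y • (ε (f a) * i ⁅e' b, e a⁆) := by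
    intro a b
    rw [← lie_skew (e' b), map_neg, ← smul_one_mul (B (f a) y), ← h.ei, ← mul_smul_comm,
      ← smul_one_mul (B (f' b) y), ← h.ei]
    linear_combination (norm := noncomm_ring) ε (f a) * ε (f' b) * h.ii y ⁅e a, e' b⁆
  simp only [t2, sum_mul, mul_sum, ← sum_add_distrib, h1]
  simp only [th_apply, pr_apply, sum_lie, map_sum, smul_lie, map_smul, sum_add_distrib,
    neg_neg, sub_neg_eq_add, smul_neg, smul_sum, sum_neg_distrib]
  congr 1
  rw [sum_comm]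

lemma CAR.cartan (h : CAR B ε i) (S : L →ₗ[ℂ] R) (y : L) (hS : ∀ a, Commute (S (e a)) (i y)) :
    dCE ε i S e f * i y + i y * dCE ε i S e f = S (pr B e f y) + th ε i e f (pr B e f y) := by
  have h1 : (∑ a, ε (f a) * S (e a)) * i y + i y * ∑ a, ε (f a) * S (e a) = S (pr B e f y) := by
    simp only [sum_mul, mul_sum, ← sum_add_distrib, pr_apply, map_sum, map_smul]
    refine sum_congr rfl fun a _ => ?_
    rw [← smul_one_mul, ← h.ei]
    linear_combination (norm := noncomm_ring) ε (f a) * (hS a).eq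
  have h2 := h.t2_i (e := e) (f := f) e f y
  simp only [dCE, sub_mul, mul_sub, smul_mul_assoc, mul_smul_comm]
  linear_combination (norm := module) h1 - (2 : ℂ)⁻¹ • h2

lemma lie_mem_Sp {x y : L} (hx : ∀ a, ⁅x, e a⁆ ∈ Sp e) (hy : y ∈ Sp e) : ⁅x, y⁆ ∈ Sp e := by
  refine (Submodule.span_le (p := (Sp e).comap (LieAlgebra.ad ℂ L x))).2 ?_ hy
  rintro _ ⟨b, rfl⟩
  exact hx b

lemma lie_mem_Sp' (hc : ∀ a b, ⁅e a, e b⁆ ∈ Sp e) {x : L} (hx : x ∈ Sp e) (a : σ) :
    ⁅x, e a⁆ ∈ Sp e := by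
  rw [← lie_skew]
  exact Submodule.neg_mem _ (lie_mem_Sp (hc a) hx)

lemma CAR.th_lie (h : CAR B ε i) (hd : Dual B e f) {x y : L} (hx : ∀ a, ⁅x, e a⁆ ∈ Sp e)
    (hy : ∀ a, ⁅y, e a⁆ ∈ Sp e) :
    th ε i e f x * th ε i e f y - th ε i e f y * th ε i e f x = th ε i e f ⁅x, y⁆ := by
  rw [← sub_eq_zero]
  refine h.zero_of_comm hd (Submodule.sub_mem _ (Submodule.sub_mem _ (II.mul (th_mem _) _)
    (II.mul (th_mem _) _)) (th_mem _)) fun a => ?_
  have h1 := h.th_i (e := e) (f := f) x (e a)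
  have h2 := h.th_i (e := e) (f := f) y (e a)
  have h3 := h.th_i (e := e) (f := f) ⁅x, y⁆ (e a)
  have h4 := h.th_i (e := e) (f := f) x ⁅y, e a⁆
  have h5 := h.th_i (e := e) (f := f) y ⁅x, e a⁆
  rw [hd.pr_eq (mem_Sp a)] at h1 h2 h3
  rw [hd.pr_eq (hy a)] at h4
  rw [hd.pr_eq (hx a)] at h5
  rw [lie_lie, map_sub] at h3
  linear_combination (norm := noncomm_ring) th ε i e f x * h2 + h1 * th ε i e f y
    - th ε i e f y * h1 - h2 * th ε i e f x - h3 + h4 - h5

lemma commute_th {s : R} (h1 : ∀ a, Commute s (ε (f a))) {x : L}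
    (h2 : ∀ a, Commute s (i ⁅x, e a⁆)) : Commute s (th ε i e f x) :=
  (Commute.sum_right _ _ _ fun a _ => (h1 a).mul_right (h2 a)).neg_right

lemma CAR.inv_d (h : CAR B ε i) (hd : Dual B e f) (hc : ∀ a b, ⁅e a, e b⁆ ∈ Sp e)
    (S : L →ₗ[ℂ] R) (hS1 : ∀ a b, Commute (S (e a)) (ε (f b)))
    (hS2 : ∀ a, ∀ y ∈ Sp e, Commute (S (e a)) (i y)) {x : L} (hx : ∀ a, ⁅x, e a⁆ ∈ Sp e) {s : R}
    (hs1 : ∀ a, Commute s (ε (f a))) (hs2 : ∀ y ∈ Sp e, Commute s (i y))
    (hs3 : ∀ a, s * S (e a) - S (e a) * s = S ⁅x, e a⁆) :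
    Commute (s + th ε i e f x) (dCE ε i S e f) := by
  rw [commute_iff_eq, ← sub_eq_zero]
  refine h.zero_of_anti hd (Submodule.sub_mem _ ?_ (II.mul (dCE_mem _) _)) fun a => ?_
  · rw [add_mul]
    exact Submodule.add_mem _ (II.comm_mul (dCE_mem _) hs1) (II.mul (th_mem _) _)
  have h1 := h.th_i (e := e) (f := f) x (e a)
  have h2 := h.cartan (f := f) S (e a) fun b => hS2 b _ (mem_Sp a)
  have h3 := h.cartan (f := f) S ⁅x, e a⁆ fun b => hS2 b _ (hx a)
  have h4 := h.th_lie hd hx (hc a)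
  have h5 := (hs2 _ (mem_Sp a)).eq
  have h6 := (commute_th (i := i) hs1 fun b => hs2 _ (hc a b)).eq
  have h7 := (commute_th (i := i) (hS1 a) fun b => hS2 a _ (hx b)).eq
  rw [hd.pr_eq (mem_Sp a)] at h1 h2
  rw [hd.pr_eq (hx a)] at h3
  linear_combination (norm := noncomm_ring) (s + th ε i e f x) * h2 - h2 * (s + th ε i e f x)
    - h3 - dCE ε i S e f * (h1 + h5) - (h1 + h5) * dCE ε i S e f + h4 + hs3 a + h6 - h7

lemma CAR.d_sq (h : CAR B ε i) (hd : Dual B e f) (hc : ∀ a b, ⁅e a, e b⁆ ∈ Sp e)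
    (S : L →ₗ[ℂ] R) (hS1 : ∀ a b, Commute (S (e a)) (ε (f b)))
    (hS2 : ∀ a, ∀ y ∈ Sp e, Commute (S (e a)) (i y))
    (hS3 : ∀ a b, S (e a) * S (e b) - S (e b) * S (e a) = S ⁅e a, e b⁆) :
    dCE ε i S e f * dCE ε i S e f = 0 := by
  refine h.zero_of_comm hd (II.mul (dCE_mem _) _) fun a => ?_
  have h1 := h.cartan (f := f) S (e a) fun b => hS2 b _ (mem_Sp a)
  rw [hd.pr_eq (mem_Sp a)] at h1
  have h2 := (h.inv_d hd hc S hS1 hS2 (hc a) (hS1 a) (hS2 a) (hS3 a)).eq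
  linear_combination (norm := noncomm_ring) dCE ε i S e f * h1 - h1 * dCE ε i S e f - h2

end Pool.Agent.MP_f244e7_gt

end MrgPart0

-- ======== part 1: formerly Pool.Agent.MP_f244e7_gt.Alg2
section MrgPart1

/-! Kostant's formula for the Laplacian of a nilradical. -/

set_option linter.unusedSectionVars false

namespace Pool.Agent.MP_f244e7_gt

open Finset

variable {L : Type*} [LieRing L] [LieAlgebra ℂ L] [StarAddMonoid L] [StarModule ℂ L]
  {R : Type*} [Ring R] [Algebra ℂ R] [StarRing R] [StarModule ℂ R]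

/-- An invariant symmetric form compatible with the conjugation. -/
structure HForm (B : L →ₗ[ℂ] L →ₗ[ℂ] ℂ) : Prop where
  symm : ∀ x y, B x y = B y x
  inv : ∀ x y z, B ⁅x, y⁆ z = B x ⁅y, z⁆
  conj : ∀ x y, B (star x) (star y) = star (B x y)
  star_lie : ∀ x y : L, star ⁅x, y⁆ = ⁅star x, star y⁆

/-- A skew-adjoint representation commuting with creation and annihilation operators. -/
structure SRep (B : L →ₗ[ℂ] L →ₗ[ℂ] ℂ) (ε i ρ : L →ₗ[ℂ] R) : Prop extends CAR B ε i where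
  star_i : ∀ x, star (i x) = ε (star x)
  star_rho : ∀ x, star (ρ x) = - ρ (star x)
  lie : ∀ x y, ρ x * ρ y - ρ y * ρ x = ρ ⁅x, y⁆
  ce : ∀ x y, Commute (ρ x) (ε y)
  ci : ∀ x y, Commute (ρ x) (i y)

variable {B : L →ₗ[ℂ] L →ₗ[ℂ] ℂ} {ε i ρ : L →ₗ[ℂ] R}
  {σ : Type*} [Fintype σ] [DecidableEq σ] {e f : σ → L}
  {τ : Type*} [Fintype τ] [DecidableEq τ] {y y' : τ → L}

lemma HForm.skew (hB : HForm B) (x a b : L) : B a ⁅x, b⁆ = - B b ⁅x, a⁆ := by
  rw [← hB.inv, hB.symm, ← lie_skew, map_neg]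

lemma SRep.star_eps (h : SRep B ε i ρ) (x : L) : star (ε x) = i (star x) := by
  rw [← star_star (i _), h.star_i, star_star]

lemma SRep.zero (h : SRep B ε i ρ) : SRep B ε i 0 :=
  { h with
    star_rho := by simp
    lie := by simp
    ce := by simp
    ci := by simp }

lemma SRep.comm_th (h : SRep B ε i ρ) (x z : L) : Commute (ρ x) (th ε i e f z) :=
  commute_th (fun _ => h.ce _ _) fun _ => h.ci _ _

lemma SRep.comm_star (h : SRep B ε i ρ) {P : R} (hP : ∀ x, Commute (ρ x) P) (x : L) :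
    Commute (ρ x) (star P) := by
  have := (hP (star x)).star_star
  rw [h.star_rho, star_star] at this
  exact Commute.neg_left_iff.1 this

lemma SRep.comm_d0 (h : SRep B ε i ρ) (x : L) : Commute (ρ x) (dCE ε i 0 e f) := by
  refine Commute.sub_right (by simp) (Commute.smul_right ?_ _)
  exact Commute.sum_right _ _ _ fun a _ => Commute.sum_right _ _ _ fun b _ =>
    ((h.ce _ _).mul_right (h.ce _ _)).mul_right (h.ci _ _)

lemma star_mem_Sp (hf : ∀ a, star (e a) = f a) {x : L} (hx : x ∈ Sp e) : star x ∈ Sp f := by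
  induction hx using Submodule.span_induction with
  | mem x hx => obtain ⟨a, rfl⟩ := hx; exact hf a ▸ mem_Sp a
  | zero => simp
  | add x y _ _ h1 h2 => rw [star_add]; exact Submodule.add_mem _ h1 h2
  | smul c x _ h1 => rw [star_smul]; exact Submodule.smul_mem _ _ h1

lemma star_mem_Sp_self (hf : ∀ a, star (e a) ∈ Sp e) {x : L} (hx : x ∈ Sp e) : star x ∈ Sp e :=
  Submodule.span_le.2 (by rintro _ ⟨a, rfl⟩; exact hf a) (star_mem_Sp (fun _ => rfl) hx)

lemma lie_mem_of_span {U : Submodule ℂ L} {z : L} (h : ∀ a, ⁅e a, z⁆ ∈ U) {x : L}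
    (hx : x ∈ Sp e) : ⁅x, z⁆ ∈ U := by
  induction hx using Submodule.span_induction with
  | mem x hx => obtain ⟨a, rfl⟩ := hx; exact h a
  | zero => simp
  | add x y _ _ h1 h2 => rw [add_lie]; exact Submodule.add_mem _ h1 h2
  | smul c x _ h1 => rw [smul_lie]; exact Submodule.smul_mem _ _ h1

lemma Dual.swap (hB : HForm B) (h : Dual B e f) : Dual B f e := fun a b => by
  rw [hB.symm, h]; simp only [eq_comm]

lemma tensor_inv {M : Type*} [AddCommGroup M] [Module ℂ M] (hB : HForm B)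
    (φ : L →ₗ[ℂ] L →ₗ[ℂ] M) {x : L} (h1 : ∀ a, pr B e f ⁅x, e a⁆ = ⁅x, e a⁆)
    (h2 : ∀ a, pr B f e ⁅x, f a⁆ = ⁅x, f a⁆) :
    ∑ a, φ ⁅x, f a⁆ (e a) + ∑ a, φ (f a) ⁅x, e a⁆ = 0 := by
  have e1 : ∑ a, φ ⁅x, f a⁆ (e a) = ∑ a, ∑ b, B (e b) ⁅x, f a⁆ • φ (f b) (e a) := by
    refine sum_congr rfl fun a _ => ?_
    conv_lhs => rw [← h2 a, pr_apply]
    simp [LinearMap.sum_apply]
  have e2 : ∑ a, φ (f a) ⁅x, e a⁆ = ∑ b, ∑ a, B (f a) ⁅x, e b⁆ • φ (f b) (e a) := by
    refine sum_congr rfl fun a _ => ?_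
    conv_lhs => rw [← h1 a, pr_apply]
    simp
  rw [e1, e2, sum_comm, ← sum_add_distrib]
  refine sum_eq_zero fun b _ => ?_
  rw [← sum_add_distrib]
  refine sum_eq_zero fun a _ => ?_
  rw [hB.skew, ← add_smul, neg_add_cancel, zero_smul]

lemma tensor_symm {M : Type*} [AddCommGroup M] [Module ℂ M] (hB : HForm B)
    (φ : L →ₗ[ℂ] L →ₗ[ℂ] M) (h : ∀ a, pr B e f (f a) = f a) :
    ∑ a, φ (f a) (e a) = ∑ a, φ (e a) (f a) := by
  have e1 : ∑ a, φ (f a) (e a) = ∑ a, ∑ b, B (f b) (f a) • φ (e b) (e a) := by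
    refine sum_congr rfl fun a _ => ?_
    conv_lhs => rw [← h a, pr_apply]
    simp [LinearMap.sum_apply]
  have e2 : ∑ a, φ (e a) (f a) = ∑ a, ∑ b, B (f b) (f a) • φ (e a) (e b) := by
    refine sum_congr rfl fun a _ => ?_
    conv_lhs => rw [← h a, pr_apply]
    simp
  rw [e1, e2, sum_comm]
  simp only [hB.symm]

/-- The product of two linear maps as a bilinear map. -/
def mul2 (S T : L →ₗ[ℂ] R) : L →ₗ[ℂ] L →ₗ[ℂ] R := (LinearMap.mul ℂ R).compl₁₂ S T

@[simp] lemma mul2_apply (S T : L →ₗ[ℂ] R) (a b : L) : mul2 S T a b = S a * T b := rfl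

lemma SRep.casimir (h : SRep B ε i ρ) (hB : HForm B) (h1 : ∀ x, pr B e f x = x)
    (h2 : ∀ x, pr B f e x = x) (x : L) : Commute (ρ x) (∑ a, ρ (f a) * ρ (e a)) := by
  have := tensor_inv hB (mul2 ρ ρ) (x := x) (fun a => h1 _) (fun a => h2 _)
  simp only [mul2_apply, ← h.lie, ← sum_add_distrib] at this
  rw [commute_iff_eq, ← sub_eq_zero, ← this, mul_sum, sum_mul, ← sum_sub_distrib]
  exact sum_congr rfl fun a _ => by noncomm_ring

/-- The quadratic operator attached to an element of the Lie algebra. -/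
def xi (B : L →ₗ[ℂ] L →ₗ[ℂ] ℂ) (ε i : L →ₗ[ℂ] R) (e f : σ → L) (x : L) : R :=
  - ∑ a, ∑ b, B x ⁅e a, f b⁆ • (ε (f a) * i (e b))

lemma xi_eq (hB : HForm B) {x : L} (hx : ∀ a, pr B e f ⁅x, e a⁆ = ⁅x, e a⁆) :
    xi B ε i e f x = th ε i e f x := by
  rw [xi, th_apply]
  congr 1
  refine sum_congr rfl fun a _ => ?_
  conv_rhs => rw [← hx a, pr_apply]
  simp only [map_sum, map_smul, mul_sum, mul_smul_comm]
  exact sum_congr rfl fun b _ => by rw [← hB.inv, hB.symm]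

lemma SRep.star_xi (h : SRep B ε i ρ) (hB : HForm B) (hf : ∀ a, star (e a) = f a) (x : L) :
    star (xi B ε i e f x) = - xi B ε i e f (star x) := by
  have hf' : ∀ a, star (f a) = e a := fun a => by rw [← hf, star_star]
  simp only [xi, star_neg, star_sum, star_smul, star_mul, h.star_i, h.star_eps, hf, hf',
    ← hB.conj, hB.star_lie, neg_neg]
  rw [sum_comm, ← sum_neg_distrib]
  refine sum_congr rfl fun a _ => ?_
  rw [← sum_neg_distrib]
  refine sum_congr rfl fun b _ => ?_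
  rw [← lie_skew, map_neg, neg_smul, neg_neg]

/-- A nilradical with its Levi factor. -/
structure Par (B : L →ₗ[ℂ] L →ₗ[ℂ] ℂ) (e f : σ → L) (y y' : τ → L) : Prop where
  sf : ∀ a, star (e a) = f a
  sy : ∀ j, star (y j) = y' j
  de : Dual B e f
  dy : Dual B y y'
  ys : ∀ j, y' j ∈ Sp y
  exp : ∀ x, pr B e f x + pr B f e x + pr B y y' x = x
  ee : ∀ a b, ⁅e a, e b⁆ ∈ Sp e
  ye : ∀ j a, ⁅y j, e a⁆ ∈ Sp e
  ef : ∀ a, ⁅e a, f a⁆ ∈ Sp y
  eig : ∃ H : L, ∀ a, ∃ c : ℂ, c ≠ 0 ∧ ⁅H, e a⁆ = c • e a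

lemma Par.sf' (hP : Par B e f y y') (a : σ) : star (f a) = e a := by rw [← hP.sf, star_star]

lemma Par.star_mem (hP : Par B e f y y') {x : L} (hx : x ∈ Sp y) : star x ∈ Sp y :=
  star_mem_Sp_self (fun j => hP.sy j ▸ hP.ys j) hx

lemma Par.le (hP : Par B e f y y') {x : L} (hx : x ∈ Sp y) (a : σ) : ⁅x, e a⁆ ∈ Sp e :=
  lie_mem_of_span (fun j => hP.ye j a) hx

lemma Par.swap (hP : Par B e f y y') (hB : HForm B) : Par B f e y y' where
  sf := hP.sf'
  sy := hP.sy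
  de := hP.de.swap hB
  dy := hP.dy
  ys := hP.ys
  exp x := by rw [add_comm (pr B f e x), hP.exp]
  ee a b := by
    simpa only [hB.star_lie, hP.sf] using star_mem_Sp hP.sf (hP.ee a b)
  ye j a := by
    simpa only [hB.star_lie, hP.sf, star_star] using
      star_mem_Sp hP.sf (hP.le (hP.star_mem (mem_Sp j)) a)
  ef a := by
    rw [← lie_skew]
    exact Submodule.neg_mem _ (hP.ef a)
  eig := by
    obtain ⟨H, hH⟩ := hP.eig
    refine ⟨star H, fun a => ?_⟩
    obtain ⟨c, hc, h⟩ := hH a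
    exact ⟨star c, star_ne_zero.2 hc, by rw [← hP.sf, ← hB.star_lie, h, star_smul]⟩

lemma SRep.star_th (h : SRep B ε i ρ) (hB : HForm B) (hP : Par B e f y y') {x : L}
    (hx : x ∈ Sp y) : star (th ε i e f x) = - th ε i e f (star x) := by
  rw [← xi_eq hB fun a => hP.de.pr_eq (hP.le hx a),
    ← xi_eq hB fun a => hP.de.pr_eq (hP.le (hP.star_mem hx) a), h.star_xi hB hP.sf]

/-- The Laplacian of a differential. -/
def lap (d : R) : R := d * star d + star d * d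

lemma dCE_split (S : L →ₗ[ℂ] R) :
    dCE ε i S e f = ∑ a, ε (f a) * S (e a) + dCE ε i 0 e f := by
  simp [dCE, sub_eq_add_neg]

lemma SRep.star_first (h : SRep B ε i ρ) (hf : ∀ a, star (e a) = f a) :
    star (∑ a, ε (f a) * ρ (e a)) = - ∑ a, ρ (f a) * i (e a) := by
  simp only [star_sum, star_mul, h.star_rho, h.star_eps, ← hf, star_star, neg_mul,
    sum_neg_distrib]

lemma xi_sum (u u' : τ → L) : - ∑ a, ∑ b, ε (f a) * i (e b) * ρ (pr B u u' ⁅e a, f b⁆)
    = ∑ c, xi B ε i e f (u' c) * ρ (u c) := by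
  simp only [pr_apply, xi, map_sum, map_smul, neg_mul, sum_neg_distrib, sum_mul, mul_sum,
    smul_mul_assoc, mul_smul_comm]
  rw [sum_comm (γ := τ)]
  congr 1
  exact sum_congr rfl fun a _ => sum_comm

lemma SRep.kostant (h : SRep B ε i ρ) (hB : HForm B) (hP : Par B e f y y') :
    lap (dCE ε i ρ e f) = - ∑ a, ρ (f a) * ρ (e a) + ∑ j, th ε i e f (y' j) * ρ (y j)
      + lap (dCE ε i 0 e f) := by
  have h1 : dCE ε i 0 e f * star (∑ a, ε (f a) * ρ (e a))
      + star (∑ a, ε (f a) * ρ (e a)) * dCE ε i 0 e f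
      = - ∑ a, xi B ε i e f (e a) * ρ (f a) := by
    simp only [h.star_first hP.sf, mul_neg, neg_mul, mul_sum, sum_mul, ← sum_neg_distrib,
      ← sum_add_distrib]
    refine sum_congr rfl fun a _ => ?_
    have h2 := h.cartan (e := e) (f := f) 0 (e a) (by simp)
    rw [hP.de.pr_eq (mem_Sp a), LinearMap.zero_apply, zero_add] at h2
    rw [xi_eq hB fun b => hP.de.pr_eq (hP.ee a b), ← (h.comm_th _ _).eq]
    linear_combination (norm := noncomm_ring) - ρ (f a) * h2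
      + (h.comm_d0 (e := e) (f := f) (f a)).eq * i (e a)
  have h2 := congrArg star h1
  rw [star_add, star_mul, star_mul, star_star, star_neg, star_sum Finset.univ
    (fun a => xi B ε i e f (e a) * ρ (f a))] at h2
  simp only [star_mul, h.star_xi hB hP.sf, h.star_rho, hP.sf, hP.sf', neg_mul_neg] at h2
  have h3 : (∑ a, ε (f a) * ρ (e a)) * star (∑ a, ε (f a) * ρ (e a))
      + star (∑ a, ε (f a) * ρ (e a)) * ∑ a, ε (f a) * ρ (e a)
      = - ∑ a, ρ (f a) * ρ (e a) - ∑ a, ∑ b, ε (f a) * i (e b) * ρ ⁅e a, f b⁆ := by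
    have h4 : ∑ a, ρ (f a) * ρ (e a) = ∑ a, ∑ b, ρ (f b) * (B (f a) (e b) • 1) * ρ (e a) := by
      simp [hP.de _ _]
    rw [h.star_first hP.sf, mul_neg, neg_mul, sum_mul_sum, sum_mul_sum, sum_comm (γ := σ)
      (f := fun b a => ρ (f b) * i (e b) * (ε (f a) * ρ (e a))), h4]
    simp only [← sum_neg_distrib, ← sum_add_distrib, ← sum_sub_distrib]
    refine sum_congr rfl fun a _ => sum_congr rfl fun b _ => ?_
    rw [← h.ei, ← h.lie]
    have c1 := (h.ci (e a) (e b)).eq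
    have c2 := (h.ci (f b) (e b)).eq
    have c3 := (h.ce (f b) (f a)).eq
    linear_combination (norm := noncomm_ring) c3 * i (e b) * ρ (e a)
      - ε (f a) * ρ (e a) * c2 - ε (f a) * c1 * ρ (f b) + ε (f a) * c2 * ρ (e a)
  have h5 : - ∑ a, ∑ b, ε (f a) * i (e b) * ρ ⁅e a, f b⁆
      = ∑ c, ρ (e c) * xi B ε i e f (f c) + ∑ c, xi B ε i e f (e c) * ρ (f c)
        + ∑ j, th ε i e f (y' j) * ρ (y j) := by
    have c1 : ∀ x z, Commute (ρ x) (xi B ε i e f z) := fun x z =>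
      (Commute.sum_right _ _ _ fun a _ => Commute.sum_right _ _ _ fun b _ =>
        ((h.ce _ _).mul_right (h.ci _ _)).smul_right _).neg_right
    have c2 : ∀ j, th ε i e f (y' j) = xi B ε i e f (y' j) := fun j =>
      (xi_eq hB fun a => hP.de.pr_eq (hP.le (hP.ys j) a)).symm
    simp only [(c1 _ _).eq, c2]
    rw [← xi_sum e f, ← xi_sum f e, ← xi_sum y y']
    simp only [← neg_add, ← sum_add_distrib, ← mul_add, ← map_add, hP.exp]
  rw [lap, lap, dCE_split ρ, star_add]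
  linear_combination (norm := noncomm_ring) h1 + h2 + h3 + h5

end Pool.Agent.MP_f244e7_gt

end MrgPart1

-- marker of a merged file
example : 731051 + 484252 = 731051 + 484252 := rfl
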