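import Mathlib.RingTheory.Flat.TorsionFree
import Mathlib.RingTheory.SimpleRing.Principal
import Pool.Agent.MP_f244e7_gt.Alg2

/-! The Laplacian of a nilradical with trivial coefficients. -/

set_option linter.unusedSectionVars false

namespace Pool.Agent.MP_f244e7_gt

open Finset

variable {L : Type*} [LieRing L] [LieAlgebra ℂ L] [StarAddMonoid L] [StarModule ℂ L]
  {R : Type*} [Ring R] [Algebra ℂ R] [StarRing R] [StarModule ℂ R]
  {B : L →ₗ[ℂ] L →ₗ[ℂ] ℂ} {ε i ρ : L →ₗ[ℂ] R}
  {σ : Type*} [Fintype σ] [DecidableEq σ] {e f : σ → L}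
  {τ : Type*} [Fintype τ] [DecidableEq τ] {y y' : τ → L}

/-- The defect in the formula for the Laplacian with trivial coefficients. -/
noncomputable def PP (ε i : L →ₗ[ℂ] R) (e f : σ → L) (y y' : τ → L) : R :=
  (2 : ℂ) • lap (dCE ε i 0 e f) - ∑ j, th ε i e f (y' j) * th ε i e f (y j)
    - th ε i e f (∑ a, ⁅e a, f a⁆)

/-- The Casimir operator. -/
def cas (ρ : L →ₗ[ℂ] R) (e f : σ → L) (y y' : τ → L) : R :=
  ∑ a, ρ (f a) * ρ (e a) + ∑ a, ρ (e a) * ρ (f a) + ∑ j, ρ (y' j) * ρ (y j)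

lemma Par.pr_y' (hP : Par B e f y y') (j : τ) : pr B y y' (y' j) = y' j := hP.dy.pr_eq (hP.ys j)

lemma Par.H0_mem (hP : Par B e f y y') : ∑ a, ⁅e a, f a⁆ ∈ Sp y :=
  Submodule.sum_mem _ fun a _ => hP.ef a

lemma pr_swap (hB : HForm B) (h : ∀ j, pr B y y' (y' j) = y' j) (x : L) :
    pr B y' y x = pr B y y' x := by
  have := tensor_symm hB ((LinearMap.lsmul ℂ L).comp (B.flip x)) h
  simpa [pr_apply] using this.symm

lemma SRep.kostant2 (h : SRep B ε i ρ) (hB : HForm B) (hP : Par B e f y y') :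
    (2 : ℂ) • lap (dCE ε i ρ e f) = - cas ρ e f y y'
      + ∑ j, (ρ (y' j) + th ε i e f (y' j)) * (ρ (y j) + th ε i e f (y j))
      + (ρ (∑ a, ⁅e a, f a⁆) + th ε i e f (∑ a, ⁅e a, f a⁆)) + PP ε i e f y y' := by
  have h1 := tensor_symm hB (mul2 ρ (th ε i e f)) hP.pr_y'
  simp only [mul2_apply, (h.comm_th (y _) _).eq] at h1
  have h2 : ρ (∑ a, ⁅e a, f a⁆) = ∑ a, ρ (e a) * ρ (f a) - ∑ a, ρ (f a) * ρ (e a) := by
    simp only [map_sum, ← h.lie, sum_sub_distrib]
  simp only [h.kostant hB hP, PP, cas, add_mul, mul_add, sum_add_distrib, h1, h2]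
  module

lemma SRep.cas_comm (h : SRep B ε i ρ) (hB : HForm B) (hP : Par B e f y y') (x : L) :
    Commute (ρ x) (cas ρ e f y y') := by
  have := h.casimir hB (e := Sum.elim e (Sum.elim f y)) (f := Sum.elim f (Sum.elim e y'))
    (fun x => by simpa [pr_apply, add_assoc] using hP.exp x)
    (fun x => by
      have := hP.exp x
      rw [← pr_swap hB hP.pr_y', add_comm (pr B e f x)] at this
      simpa [pr_apply, add_assoc] using this) x
  simpa [cas, add_assoc] using this

lemma comm_cas {P : R} (hc : ∀ x, Commute (ρ x) P) : Commute (cas ρ e f y y') P :=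
  ((Commute.sum_left _ _ _ fun _ _ => (hc _).mul_left (hc _)).add_left
    (Commute.sum_left _ _ _ fun _ _ => (hc _).mul_left (hc _))).add_left
    (Commute.sum_left _ _ _ fun _ _ => (hc _).mul_left (hc _))

lemma SRep.inv_d_l (h : SRep B ε i ρ) (hP : Par B e f y y') {x : L} (hx : x ∈ Sp y) :
    Commute (ρ x + th ε i e f x) (dCE ε i ρ e f) :=
  h.inv_d hP.de hP.ee ρ (fun _ _ => h.ce _ _) (fun _ _ _ => h.ci _ _) (hP.le hx)
    (fun _ => h.ce _ _) (fun _ _ => h.ci _ _) fun _ => h.lie _ _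

lemma SRep.inv_star_d_l (h : SRep B ε i ρ) (hB : HForm B) (hP : Par B e f y y') {x : L}
    (hx : x ∈ Sp y) : Commute (ρ x + th ε i e f x) (star (dCE ε i ρ e f)) := by
  have := (h.inv_d_l hP (hP.star_mem hx)).star_star
  rw [star_add, h.star_rho, h.star_th hB hP (hP.star_mem hx), star_star, ← neg_add] at this
  exact Commute.neg_left_iff.1 this

lemma lap_comm {d : R} (hd : d * d = 0) : Commute (lap d) (star d) := by
  have h : star d * star d = 0 := by rw [← star_mul, hd, star_zero]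
  rw [commute_iff_eq, lap]
  linear_combination (norm := noncomm_ring) d * h - h * d

lemma SRep.PP_comm (h : SRep B ε i ρ) (hB : HForm B) (hP : Par B e f y y') :
    Commute (PP ε i e f y y') (star (dCE ε i ρ e f)) := by
  have h1 : PP ε i e f y y' = (2 : ℂ) • lap (dCE ε i ρ e f) + cas ρ e f y y'
      - ∑ j, (ρ (y' j) + th ε i e f (y' j)) * (ρ (y j) + th ε i e f (y j))
      - (ρ (∑ a, ⁅e a, f a⁆) + th ε i e f (∑ a, ⁅e a, f a⁆)) := by
    rw [h.kostant2 hB hP]; abel
  rw [h1]
  refine (((Commute.smul_left (lap_comm ?_) _).add_left ?_).sub_left ?_).sub_left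
    (h.inv_star_d_l hB hP hP.H0_mem)
  · exact h.d_sq hP.de hP.ee ρ (fun _ _ => h.ce _ _) (fun _ _ _ => h.ci _ _) fun _ _ => h.lie _ _
  · rw [dCE_split, star_add, h.star_first hP.sf]
    refine (Commute.sum_right _ _ _ fun a _ => ?_).neg_right.add_right
      (comm_cas (h.comm_star h.comm_d0))
    exact (h.cas_comm hB hP _).symm.mul_right (comm_cas fun x => h.ci x _)
  · exact Commute.sum_left _ _ _ fun j _ => (h.inv_star_d_l hB hP (hP.ys j)).mul_left
      (h.inv_star_d_l hB hP (mem_Sp j))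

lemma SRep.rho_PP (h : SRep B ε i ρ) (x : L) : Commute (ρ x) (PP ε i e f y y') := by
  have h1 := h.comm_d0 (e := e) (f := f) x
  have h2 := h.comm_star (h.comm_d0 (e := e) (f := f)) x
  exact ((((h1.mul_right h2).add_right (h2.mul_right h1)).smul_right _).sub_right
    (Commute.sum_right _ _ _ fun j _ => (h.comm_th _ _).mul_right (h.comm_th _ _))).sub_right
    (h.comm_th _ _)

lemma SRep.PP_first (h : SRep B ε i ρ) (hB : HForm B) (hP : Par B e f y y') :
    ∑ a, ρ (f a) * (PP ε i e f y y' * i (e a) - i (e a) * PP ε i e f y y') = 0 := by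
  have h1 := (h.PP_comm hB hP).eq
  have h2 := (h.zero.PP_comm hB hP).eq
  rw [dCE_split, star_add, h.star_first hP.sf] at h1
  have h3 : ∑ a, ρ (f a) * (PP ε i e f y y' * i (e a) - i (e a) * PP ε i e f y y')
      = PP ε i e f y y' * (∑ a, ρ (f a) * i (e a)) - (∑ a, ρ (f a) * i (e a)) * PP ε i e f y y' := by
    simp only [mul_sum, sum_mul, ← sum_sub_distrib, mul_sub, ← mul_assoc, (h.rho_PP _).eq]
  rw [h3]
  linear_combination (norm := noncomm_ring) h2 - h1

section matrix
variable {κ : Type*} [Fintype κ] [DecidableEq κ]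

/-- The adjoint representation with entries in an algebra. -/
def adM (R : Type*) [Ring R] [Algebra ℂ R] (B : L →ₗ[ℂ] L →ₗ[ℂ] ℂ) (b : κ → L) :
    L →ₗ[ℂ] Matrix κ κ R where
  toFun x := Matrix.of fun k l => B (star (b k)) ⁅x, b l⁆ • (1 : R)
  map_add' x z := by ext k l; simp [add_lie, add_smul]
  map_smul' c x := by ext k l; simp [smul_smul]

lemma star_scalar (r : R) : star (Matrix.scalarAlgHom κ ℂ r) = Matrix.scalarAlgHom κ ℂ (star r) := by
  simp [Matrix.star_eq_conjTranspose, Matrix.diagonal_conjTranspose]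

lemma adM_comm (b : κ → L) (x : L) (r : R) :
    Commute (adM R B b x) (Matrix.scalarAlgHom κ ℂ r) := by
  rw [commute_iff_eq]
  ext k l
  simp [adM]

lemma SRep.matrix (h : SRep B ε i ρ) (hB : HForm B) (b : κ → L)
    (hb : ∀ x, pr B b (fun k => star (b k)) x = x) :
    SRep B ((Matrix.scalarAlgHom κ ℂ).toLinearMap ∘ₗ ε) ((Matrix.scalarAlgHom κ ℂ).toLinearMap ∘ₗ i)
      (adM R B b) where
  ee x z := by simp only [LinearMap.comp_apply, AlgHom.toLinearMap_apply, ← map_mul, ← map_add,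
    h.ee, map_zero]
  ii x z := by simp only [LinearMap.comp_apply, AlgHom.toLinearMap_apply, ← map_mul, ← map_add,
    h.ii, map_zero]
  ei x z := by simp only [LinearMap.comp_apply, AlgHom.toLinearMap_apply, ← map_mul, ← map_add,
    h.ei, map_smul, map_one]
  star_i x := by simp only [LinearMap.comp_apply, AlgHom.toLinearMap_apply, star_scalar, h.star_i]
  star_rho x := by
    ext k l
    simp only [adM, LinearMap.coe_mk, AddHom.coe_mk, Matrix.star_apply, Matrix.of_apply,
      star_smul, star_one, Matrix.neg_apply, ← hB.conj, star_star, hB.star_lie]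
    rw [hB.skew, neg_smul]
  lie x z := by
    have h1 : ∀ x z k l, (adM R B b x * adM R B b z) k l
        = B (star (b k)) ⁅x, ⁅z, b l⁆⁆ • (1 : R) := by
      intro x z k l
      conv_rhs => rw [← hb ⁅z, b l⁆, pr_apply]
      simp [adM, Matrix.mul_apply, lie_sum, sum_smul, smul_smul, mul_comm]
    ext k l
    rw [Matrix.sub_apply, h1, h1]
    simp [adM, sub_smul]
  ce x z := adM_comm b x _
  ci x z := adM_comm b x _

end matrix

section transport
variable {R' : Type*} [Ring R'] [Algebra ℂ R'] [StarRing R'] [StarModule ℂ R'] (φ : R →ₐ[ℂ] R')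

lemma map_th (x : L) :
    th (φ.toLinearMap ∘ₗ ε) (φ.toLinearMap ∘ₗ i) e f x = φ (th ε i e f x) := by
  simp [th_apply]

lemma map_d0 : dCE (φ.toLinearMap ∘ₗ ε) (φ.toLinearMap ∘ₗ i) 0 e f = φ (dCE ε i 0 e f) := by
  simp [dCE, t2]

lemma map_PP (hφ : ∀ r, star (φ r) = φ (star r)) :
    PP (φ.toLinearMap ∘ₗ ε) (φ.toLinearMap ∘ₗ i) e f y y' = φ (PP ε i e f y y') := by
  simp only [PP, lap, map_th, map_d0, hφ, map_sub, map_smul, map_add, map_mul, map_sum φ]

end transport

lemma SRep.PP_mem (h : SRep B ε i ρ) (hB : HForm B) (hP : Par B e f y y') :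
    PP ε i e f y y' ∈ II ε f univ := by
  refine Submodule.sub_mem _ (Submodule.sub_mem _ (Submodule.smul_mem _ _ (Submodule.add_mem _
    (II.mul (dCE_mem _) _) (II.mul ?_ _))) (Submodule.sum_mem _ fun j _ =>
      II.mul (th_mem _) _)) (th_mem _)
  simp only [dCE, t2, LinearMap.zero_apply, mul_zero, sum_const_zero, zero_sub, star_neg,
    star_smul, star_sum, star_mul, h.star_i]
  exact Submodule.neg_mem _ (Submodule.smul_mem _ _ (Submodule.sum_mem _ fun a _ =>
    Submodule.sum_mem _ fun b _ => II.mul (II.eps (star_mem_Sp hP.sf (hP.ee a b))) _))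

theorem SRep.PP_eq_zero (h : SRep B ε i ρ) (hB : HForm B) (hP : Par B e f y y') :
    PP ε i e f y y' = 0 := by
  let b : σ ⊕ σ ⊕ τ → L := Sum.elim e (Sum.elim f y)
  have hb : ∀ x, pr B b (fun k => star (b k)) x = x := fun x => by
    simpa [b, pr_apply, add_assoc, hP.sf, hP.sf', hP.sy] using hP.exp x
  have h1 := (h.matrix hB b hb).PP_first hB hP
  rw [map_PP _ star_scalar] at h1
  simp only [LinearMap.comp_apply, AlgHom.toLinearMap_apply, ← map_mul, ← map_sub] at h1
  refine h.zero_of_comm hP.de (h.PP_mem hB hP) fun c => ?_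
  set Q := fun a => PP ε i e f y y' * i (e a) - i (e a) * PP ε i e f y y' with hQ
  have h2 : ∀ k l, ∑ a, B (star (b k)) ⁅f a, b l⁆ • Q a = 0 := by
    intro k l
    simpa [Matrix.sum_apply, adM] using congrFun (congrFun h1 k) l
  obtain ⟨H, hH⟩ := (hP.swap hB).eig
  have h3 : ∀ k, ∑ a, B (star (b k)) ⁅f a, H⁆ • Q a = 0 := by
    intro k
    have : ∑ l, B (star (b l)) H • ∑ a, B (star (b k)) ⁅f a, b l⁆ • Q a = 0 :=
      sum_eq_zero fun l _ => by rw [h2, smul_zero]
    simp only [smul_sum, smul_smul] at this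
    rw [← hb H, pr_apply, ← this, sum_comm]
    simp only [lie_sum, lie_smul, map_sum, map_smul, smul_eq_mul, sum_smul]
  obtain ⟨m, hm, hm'⟩ := hH c
  have h4 := h3 (Sum.inr (Sum.inl c))
  rw [sum_eq_single c] at h4
  · rw [← lie_skew, hm'] at h4
    simp only [b, Sum.elim_inr, Sum.elim_inl, hP.sf', map_neg, map_smul,
      (hP.swap hB).de c c, if_true, smul_eq_mul, mul_one, neg_smul, neg_eq_zero] at h4
    have := congrArg (m⁻¹ • ·) h4
    simpa [smul_smul, inv_mul_cancel₀ hm] using this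
  · intro a _ ha
    obtain ⟨m', -, h5⟩ := hH a
    rw [← lie_skew, h5]
    simp [b, hP.sf', (hP.swap hB).de c a, ha.symm]
  · simp

end Pool.Agent.MP_f244e7_gt
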