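import Mathlib.Tactic.Monotonicity.Lemmas
import Mathlib.LinearAlgebra.Eigenspace.Basic
import Mathlib.Analysis.CStarAlgebra.Module.Constructions
import Mathlib.Order.CompletePartialOrder
import Pool.Agent.MP_f244e7_gt.Alg3

-- ======== part 0: formerly Pool.Agent.MP_f244e7_gt.Alg4
section MrgPart0

/-! The Laplacian of the graded differential of an elliptic subalgebra. -/

set_option linter.unusedSectionVars false

namespace Pool.Agent.MP_f244e7_gt

open Finset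

section anti
variable {R : Type*} [Ring R]

/-- Anticommuting elements. -/
def Anti (a b : R) : Prop := a * b + b * a = 0

lemma Anti.symm {a b : R} (h : Anti a b) : Anti b a := by rw [Anti, add_comm]; exact h

lemma Anti.mul_comm {a b c : R} (h : Anti a b) (h' : Commute a c) : Anti a (b * c) := by
  unfold Anti at *
  linear_combination (norm := noncomm_ring) h * c - b * h'.eq

lemma Anti.comm_mul {a b c : R} (h' : Commute a c) (h : Anti a b) : Anti a (c * b) := by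
  unfold Anti at *
  linear_combination (norm := noncomm_ring) c * h + h'.eq * b

lemma Anti.mul_anti {a b c : R} (h : Anti a b) (h' : Anti a c) : Commute a (b * c) := by
  unfold Anti at *
  rw [commute_iff_eq]
  linear_combination (norm := noncomm_ring) h * c - b * h'

lemma Anti.sum {ι : Type*} {s : Finset ι} {a : R} {b : ι → R} (h : ∀ j ∈ s, Anti a (b j)) :
    Anti a (∑ j ∈ s, b j) := by
  unfold Anti at *
  rw [mul_sum, sum_mul, ← sum_add_distrib]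
  exact sum_eq_zero h

lemma Anti.neg {a b : R} (h : Anti a b) : Anti a (-b) := by
  unfold Anti at *
  linear_combination (norm := noncomm_ring) - h

lemma Anti.sub {a b c : R} (h : Anti a b) (h' : Anti a c) : Anti a (b - c) := by
  unfold Anti at *
  linear_combination (norm := noncomm_ring) h - h'

lemma Anti.smul [Algebra ℂ R] {a b : R} (h : Anti a b) (c : ℂ) : Anti a (c • b) := by
  unfold Anti at *
  rw [mul_smul_comm, smul_mul_assoc, ← smul_add, h, smul_zero]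

lemma Anti.star [StarRing R] {a b : R} (h : Anti a b) : Anti (star a) (star b) := by
  unfold Anti at *
  rw [← star_mul, ← star_mul, ← star_add, add_comm, h, star_zero]

end anti

variable {L : Type*} [LieRing L] [LieAlgebra ℂ L] [StarAddMonoid L] [StarModule ℂ L]
  {R : Type*} [Ring R] [Algebra ℂ R] [StarRing R] [StarModule ℂ R]
  {B : L →ₗ[ℂ] L →ₗ[ℂ] ℂ} {ε i ρ : L →ₗ[ℂ] R}
  {σ : Type*} [Fintype σ] [DecidableEq σ] {e f : σ → L}
  {τ : Type*} [Fintype τ] [DecidableEq τ] {y y' : τ → L}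
  {ν : Type*} [Fintype ν] [DecidableEq ν] {u u' : ν → L}

lemma form_zero {x z : L} (h : ∀ a j, B (e a) (y j) = 0) (hx : x ∈ Sp e) (hz : z ∈ Sp y) :
    B x z = 0 := by
  have h1 : ∀ j, B x (y j) = 0 := fun j =>
    (Submodule.span_le (p := LinearMap.ker (B.flip (y j)))).2 (by rintro _ ⟨a, rfl⟩; exact h a j) hx
  exact (Submodule.span_le (p := LinearMap.ker (B x))).2 (by rintro _ ⟨j, rfl⟩; exact h1 j) hz

/-- A nilradical with orthogonality relations. -/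
structure Par2 (B : L →ₗ[ℂ] L →ₗ[ℂ] ℂ) (e f : σ → L) (y y' : τ → L) : Prop
    extends Par B e f y y' where
  bee : ∀ a b, B (e a) (e b) = 0
  bey : ∀ a j, B (e a) (y j) = 0

lemma Par2.swap (hP : Par2 B e f y y') (hB : HForm B) : Par2 B f e y y' :=
  { hP.toPar.swap hB with
    bee := fun a b => by rw [← hP.sf, ← hP.sf, hB.conj, hP.bee, star_zero]
    bey := fun a j => by
      rw [← hP.sf, ← star_star (y j), hB.conj,
        form_zero hP.bey (mem_Sp a) (hP.star_mem (mem_Sp j)), star_zero] }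

lemma CAR.th_comm_i (h : CAR B ε i) (x : L) {z : L} (hz : ∀ a, B (f a) z = 0) :
    Commute (th ε i e f x) (i z) := by
  rw [commute_iff_eq, ← sub_eq_zero, h.th_i, pr_eq_zero hz, lie_zero, map_zero]

lemma CAR.th_comm_eps (h : CAR B ε i) {x z : L} (hz : ∀ a, B z ⁅x, e a⁆ = 0) :
    Commute (th ε i e f x) (ε z) := by
  rw [commute_iff_eq, ← sub_eq_zero, h.th_eps]
  simp [hz]

lemma CAR.th_i_l (h : CAR B ε i) (hB : HForm B) (hP : Par2 B e f y y') (x : L) {z : L}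
    (hz : z ∈ Sp y) : Commute (th ε i e f x) (i z) :=
  h.th_comm_i x fun a => form_zero (hP.swap hB).bey (mem_Sp a) hz

lemma CAR.th_eps_l (h : CAR B ε i) (hB : HForm B) (hP : Par2 B e f y y') {x z : L}
    (hx : x ∈ Sp y) (hz : z ∈ Sp y) : Commute (th ε i e f x) (ε z) :=
  h.th_comm_eps fun a => by rw [hB.symm]; exact form_zero hP.bey (hP.le hx a) hz

lemma CAR.thE_i (h : CAR B ε i) (hP : Par2 B e f y y') (x : L) {z : L}
    (hz : z ∈ Sp e) : Commute (th ε i f e x) (i z) :=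
  h.th_comm_i x fun a => form_zero hP.bee (mem_Sp a) hz

lemma CAR.thE_eps (h : CAR B ε i) (hB : HForm B) (hP : Par2 B e f y y') {x : L}
    (hx : x ∈ Sp y) (a : σ) : Commute (th ε i f e x) (ε (f a)) :=
  h.th_comm_eps fun b => form_zero (hP.swap hB).bee (mem_Sp a) ((hP.swap hB).le hx b)

lemma CAR.thE_th (h : CAR B ε i) (hB : HForm B) (hP : Par2 B e f y y') {x z : L}
    (hx : x ∈ Sp y) (hz : z ∈ Sp y) : Commute (th ε i f e x) (th ε i e f z) :=
  commute_th (h.thE_eps hB hP hx) fun a => h.thE_i hP x (hP.le hz a)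

lemma commute_dCE {s : R} {S : L →ₗ[ℂ] R} (h1 : ∀ a, Commute s (ε (f a)))
    (h2 : ∀ a b, Commute s (i ⁅e a, e b⁆)) (h3 : ∀ a, Commute s (S (e a))) :
    Commute s (dCE ε i S e f) :=
  (Commute.sum_right _ _ _ fun a _ => (h1 a).mul_right (h3 a)).sub_right
    ((Commute.sum_right _ _ _ fun a _ => Commute.sum_right _ _ _ fun b _ =>
      ((h1 a).mul_right (h1 b)).mul_right (h2 a b)).smul_right _)

lemma anti_dCE {s : R} {S : L →ₗ[ℂ] R} (h1 : ∀ a, Anti s (ε (f a)))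
    (h2 : ∀ a b, Anti s (i ⁅e a, e b⁆)) (h3 : ∀ a, Commute s (S (e a))) :
    Anti s (dCE ε i S e f) :=
  (Anti.sum fun a _ => (h1 a).mul_comm (h3 a)).sub
    ((Anti.sum fun a _ => Anti.sum fun b _ =>
      Anti.comm_mul ((h1 a).mul_anti (h1 b)) (h2 a b)).smul _)

/-- The action of the Levi factor. -/
def TT (ε i ρ : L →ₗ[ℂ] R) (e f : σ → L) : L →ₗ[ℂ] R := ρ + th ε i e f + th ε i f e

lemma TT_apply (x : L) : TT ε i ρ e f x = ρ x + th ε i e f x + th ε i f e x := rfl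

lemma SRep.T_eps (h : SRep B ε i ρ) (hB : HForm B) (hP : Par2 B e f y y') {x z : L}
    (hx : x ∈ Sp y) (hz : z ∈ Sp y) : Commute (TT ε i ρ e f x) (ε z) :=
  ((h.ce _ _).add_left (h.th_eps_l hB hP hx hz)).add_left (h.th_eps_l hB (hP.swap hB) hx hz)

lemma SRep.T_i (h : SRep B ε i ρ) (hB : HForm B) (hP : Par2 B e f y y') (x : L) {z : L}
    (hz : z ∈ Sp y) : Commute (TT ε i ρ e f x) (i z) :=
  ((h.ci _ _).add_left (h.th_i_l hB hP x hz)).add_left (h.th_i_l hB (hP.swap hB) x hz)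

lemma SRep.T_lie (h : SRep B ε i ρ) (hB : HForm B) (hP : Par2 B e f y y') {x z : L}
    (hx : x ∈ Sp y) (hz : z ∈ Sp y) :
    TT ε i ρ e f x * TT ε i ρ e f z - TT ε i ρ e f z * TT ε i ρ e f x = TT ε i ρ e f ⁅x, z⁆ := by
  simp only [TT_apply]
  linear_combination (norm := noncomm_ring) h.lie x z
    + h.th_lie hP.de (hP.le hx) (hP.le hz)
    + h.th_lie (hP.swap hB).de ((hP.swap hB).le hx) ((hP.swap hB).le hz)
    + (h.comm_th (e := e) (f := f) x z).eq - (h.comm_th (e := e) (f := f) z x).eq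
    + (h.comm_th (e := f) (f := e) x z).eq - (h.comm_th (e := f) (f := e) z x).eq
    + (h.thE_th hB hP hx hz).eq - (h.thE_th hB hP hz hx).eq

lemma SRep.star_T (h : SRep B ε i ρ) (hB : HForm B) (hP : Par2 B e f y y') {x : L}
    (hx : x ∈ Sp y) : star (TT ε i ρ e f x) = - TT ε i ρ e f (star x) := by
  simp only [TT_apply, star_add, h.star_rho, h.star_th hB hP.toPar hx,
    h.star_th hB (hP.swap hB).toPar hx, neg_add]

lemma SRep.T_dn (h : SRep B ε i ρ) (hB : HForm B) (hP : Par2 B e f y y') {x : L}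
    (hx : x ∈ Sp y) : Commute (TT ε i ρ e f x) (dCE ε i ρ e f) :=
  (h.inv_d_l hP.toPar hx).add_left (commute_dCE (h.thE_eps hB hP hx)
    (fun a b => h.thE_i hP x (hP.ee a b)) fun _ => (h.comm_th _ _).symm)

lemma SRep.T_star_dn (h : SRep B ε i ρ) (hB : HForm B) (hP : Par2 B e f y y') {x : L}
    (hx : x ∈ Sp y) : Commute (TT ε i ρ e f x) (star (dCE ε i ρ e f)) := by
  have := (h.T_dn hB hP (hP.star_mem hx)).star_star
  rw [h.star_T hB hP (hP.star_mem hx), star_star] at this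
  exact Commute.neg_left_iff.1 this

lemma SRep.dn_i (h : SRep B ε i ρ) (hB : HForm B) (hP : Par2 B e f y y') {z : L}
    (hz : z ∈ Sp y) : Anti (dCE ε i ρ e f) (i z) := by
  rw [Anti, h.cartan ρ z fun _ => h.ci _ _,
    pr_eq_zero fun a => form_zero (hP.swap hB).bey (mem_Sp a) hz]
  simp

lemma SRep.dn_eps (h : SRep B ε i ρ) (hB : HForm B) (hP : Par2 B e f y y') {z : L}
    (hz : z ∈ Sp y) : Anti (dCE ε i ρ e f) (ε z) := by
  refine (anti_dCE (fun a => h.ee _ _) (fun a b => ?_) fun a => (h.ce _ _).symm).symm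
  rw [Anti, h.ei, hB.symm, form_zero hP.bey (hP.ee a b) hz, zero_smul]

/-- The structure of an elliptic subalgebra. -/
structure Ell (B : L →ₗ[ℂ] L →ₗ[ℂ] ℂ) (e f : σ → L) (y y' : τ → L) (u u' : ν → L) : Prop
    extends Par2 B e f y y' where
  su : ∀ a, star (u a) = u' a
  du : Dual B u u'
  ul : ∀ a, u a ∈ Sp y
  lu : ∀ j a, ⁅y j, u a⁆ ∈ Sp u
  gen : ∀ j, ∃ a ∈ Sp u, ∃ b ∈ Sp u, y j = a + star b

lemma Ell.ul' (hP : Ell B e f y y' u u') (a : ν) : u' a ∈ Sp y := hP.su a ▸ hP.star_mem (hP.ul a)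

lemma Ell.Sp_le (hP : Ell B e f y y' u u') : Sp u ≤ Sp y :=
  Submodule.span_le.2 (by rintro _ ⟨a, rfl⟩; exact hP.ul a)

lemma Ell.lie_u (hP : Ell B e f y y' u u') {x : L} (hx : x ∈ Sp y) (a : ν) : ⁅x, u a⁆ ∈ Sp u :=
  lie_mem_of_span (fun j => hP.lu j a) hx

lemma Ell.lie_u' (hP : Ell B e f y y' u u') (hB : HForm B) {x : L} (hx : x ∈ Sp y) (a : ν) :
    ⁅x, u' a⁆ ∈ Sp u' := by
  simpa only [hB.star_lie, hP.su, star_star] using
    star_mem_Sp hP.su (hP.lie_u (hP.star_mem hx) a)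

/-- The graded differential. -/
noncomputable def d0 (ε i ρ : L →ₗ[ℂ] R) (e f : σ → L) (u u' : ν → L) : R :=
  dCE ε i ρ e f + dCE ε i (TT ε i ρ e f) u u'

/-- The codifferential. -/
noncomputable def del (ε i ρ : L →ₗ[ℂ] R) (e f : σ → L) (u u' : ν → L) (K : ℂ) : R :=
  star (dCE ε i ρ e f) + K • - ∑ a, TT ε i ρ e f (u' a) * i (u a)

lemma SRep.D0_eq (h : SRep B ε i ρ) (hB : HForm B) (hP : Ell B e f y y' u u') (K : ℂ) :
    d0 ε i ρ e f u u' * del ε i ρ e f u u' K + del ε i ρ e f u u' K * d0 ε i ρ e f u u'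
      = lap (dCE ε i ρ e f) - K • ∑ a, TT ε i ρ e f (u' a) * TT ε i ρ e f (u a) := by
  have hP2 := hP.toPar2
  set T := TT ε i ρ e f with hT
  have h1 : Anti (dCE ε i ρ e f) (∑ a, T (u' a) * i (u a)) :=
    Anti.sum fun a _ => Anti.comm_mul (h.T_dn hB hP2 (hP.ul' a)).symm (h.dn_i hB hP2 (hP.ul a))
  have h2 : Anti (star (dCE ε i ρ e f)) (dCE ε i T u u') := by
    refine anti_dCE (fun a => ?_) (fun a b => ?_) fun a => (h.T_star_dn hB hP2 (hP.ul a)).symm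
    · simpa only [h.star_i, hP.su] using (h.dn_i hB hP2 (hP.ul a)).star
    · simpa only [h.star_eps, star_star] using
        (h.dn_eps hB hP2 (hP.star_mem (hP.Sp_le (hP.lie_u (hP.ul a) b)))).star
  have h3 : ∀ a, T (u' a) * dCE ε i T u u' - dCE ε i T u u' * T (u' a)
      = ∑ b, ε (u' b) * T ⁅u' a, u b⁆ := by
    intro a
    have h4 : Commute (T (u' a)) (dCE ε i 0 u u') :=
      commute_dCE (fun b => h.T_eps hB hP2 (hP.ul' a) (hP.ul' b))
        (fun b c => h.T_i hB hP2 _ (hP.Sp_le (hP.lie_u (hP.ul b) c))) (by simp)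
    have h5 : T (u' a) * (∑ b, ε (u' b) * T (u b)) - (∑ b, ε (u' b) * T (u b)) * T (u' a)
        = ∑ b, ε (u' b) * T ⁅u' a, u b⁆ := by
      rw [mul_sum, sum_mul, ← sum_sub_distrib]
      refine sum_congr rfl fun b _ => ?_
      linear_combination (norm := noncomm_ring) ε (u' b) * h.T_lie hB hP2 (hP.ul' a) (hP.ul b)
        + (h.T_eps hB hP2 (hP.ul' a) (hP.ul' b)).eq * T (u b)
    rw [dCE_split T]
    linear_combination (norm := noncomm_ring) h5 + h4.eq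
  have h4 : ∑ a, T (u' a) * th ε i u u' (u a) = ∑ a, (∑ b, ε (u' b) * T ⁅u' a, u b⁆) * i (u a) := by
    simp only [th_apply, mul_neg, mul_sum, sum_mul, ← sum_neg_distrib]
    rw [sum_comm, sum_comm (f := fun a b => ε (u' b) * T ⁅u' a, u b⁆ * i (u a))]
    refine sum_congr rfl fun b _ => ?_
    have h5 := tensor_inv hB (mul2 T i) (x := u b) (fun a => hP.du.pr_eq (hP.lie_u (hP.ul b) a))
      fun a => (hP.du.swap hB).pr_eq (hP.lie_u' hB (hP.ul b) a)
    rw [← sub_eq_zero, ← mul_zero (ε (u' b)), ← h5]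
    simp only [mul2_apply, mul_add, mul_sum, ← sum_add_distrib, ← sum_sub_distrib]
    refine sum_congr rfl fun a _ => ?_
    rw [← lie_skew (u a), ← lie_skew (u' a), map_neg, map_neg]
    linear_combination (norm := noncomm_ring)
      (h.T_eps hB hP2 (hP.ul' a) (hP.ul' b)).eq * i ⁅u b, u a⁆
  have h5 : dCE ε i T u u' * (∑ a, T (u' a) * i (u a)) + (∑ a, T (u' a) * i (u a)) * dCE ε i T u u'
      = ∑ a, T (u' a) * T (u a) := by
    rw [← add_sub_cancel_right (∑ a, T (u' a) * T (u a)) (∑ a, T (u' a) * th ε i u u' (u a))]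
    conv_rhs => enter [2]; rw [h4]
    simp only [mul_sum _ _ (dCE ε i T u u'), sum_mul _ _ (dCE ε i T u u'), ← sum_add_distrib,
      ← sum_sub_distrib]
    refine sum_congr rfl fun a _ => ?_
    have h6 := h.cartan (e := u) (f := u') T (u a) fun b => h.T_i hB hP2 _ (hP.ul a)
    rw [hP.du.pr_eq (mem_Sp a)] at h6
    linear_combination (norm := noncomm_ring) T (u' a) * h6 - h3 a * i (u a)
  unfold Anti at h1 h2
  simp only [d0, del, lap, ← hT, mul_add, add_mul, mul_smul_comm, smul_mul_assoc, mul_neg, neg_mul]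
  linear_combination (norm := module) h2 - K • h1 - K • h5

lemma SRep.two_lap (h : SRep B ε i ρ) (hB : HForm B) (hP : Par2 B e f y y') :
    (2 : ℂ) • lap (dCE ε i ρ e f) = - cas ρ e f y y' + (2 : ℂ) • lap (dCE ε i 0 f e)
      + (∑ j, (TT ε i ρ e f (y' j) * TT ε i ρ e f (y j) - TT ε i ρ e f (y' j) * th ε i f e (y j)
        - th ε i f e (y' j) * TT ε i ρ e f (y j)) + TT ε i ρ e f (∑ a, ⁅e a, f a⁆)) := by
  have h1 := h.kostant2 hB hP.toPar
  have h2 := h.PP_eq_zero hB (hP.swap hB).toPar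
  have h3 : ∑ a, ⁅f a, e a⁆ = - ∑ a, ⁅e a, f a⁆ := by
    rw [← sum_neg_distrib]
    exact sum_congr rfl fun a _ => (lie_skew _ _).symm
  rw [h.PP_eq_zero hB hP.toPar, add_zero] at h1
  rw [PP, h3, map_neg] at h2
  have h4 : ∑ j, (ρ (y' j) + th ε i e f (y' j)) * (ρ (y j) + th ε i e f (y j))
      = ∑ j, (TT ε i ρ e f (y' j) * TT ε i ρ e f (y j) - TT ε i ρ e f (y' j) * th ε i f e (y j)
        - th ε i f e (y' j) * TT ε i ρ e f (y j)) + ∑ j, th ε i f e (y' j) * th ε i f e (y j) := by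
    rw [← sum_add_distrib]
    refine sum_congr rfl fun j _ => ?_
    simp only [TT_apply]
    noncomm_ring
  rw [h1, h4, TT_apply (∑ a, ⁅e a, f a⁆)]
  linear_combination (norm := module) - h2

end Pool.Agent.MP_f244e7_gt

end MrgPart0

-- ======== part 1: formerly Pool.Agent.MP_f244e7_gt.Alg5
section MrgPart1

/-! Coercivity of the Laplacian of the graded differential. -/

set_option linter.unusedSectionVars false

namespace Pool.Agent.MP_f244e7_gt

open Finset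

variable {L : Type*} [LieRing L] [LieAlgebra ℂ L] [StarAddMonoid L] [StarModule ℂ L]
  {R : Type*} [Ring R] [Algebra ℂ R] [StarRing R] [StarModule ℂ R]
  {B : L →ₗ[ℂ] L →ₗ[ℂ] ℂ} {ε i ρ : L →ₗ[ℂ] R}
  {σ : Type*} [Fintype σ] [DecidableEq σ] {e f : σ → L}
  {τ : Type*} [Fintype τ] [DecidableEq τ] {y y' : τ → L}
  {ν : Type*} [Fintype ν] [DecidableEq ν] {u u' : ν → L}
  {M : Type*} [NormedAddCommGroup M] [InnerProductSpace ℂ M] (π : R →ₐ[ℂ] Module.End ℂ M)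

/-- The action is compatible with adjoints. -/
def IsStarAct : Prop := ∀ P Φ Ψ, inner ℂ (π P Φ) Ψ = inner ℂ Φ (π (star P) Ψ)

/-- The quadratic form of an operator. -/
noncomputable def qf (P : R) (Φ : M) : ℝ := (inner ℂ Φ (π P Φ)).re

/-- Elements acting under the control of a function `q`. -/
def Ctrl (S : L →ₗ[ℂ] R) (q : M → ℝ) (hq : ∀ Φ, 0 ≤ q Φ) : Submodule ℂ L where
  carrier := {x | ∀ η > 0, ∃ C ≥ 0, ∀ Φ, ‖π (S x) Φ‖ ^ 2 ≤ C * q Φ + η * ‖Φ‖ ^ 2}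
  zero_mem' η hη := ⟨0, le_rfl, fun Φ => by simp; positivity⟩
  add_mem' {x z} hx hz η hη := by
    obtain ⟨C, hC, h1⟩ := hx (η / 4) (by positivity)
    obtain ⟨C', hC', h2⟩ := hz (η / 4) (by positivity)
    refine ⟨2 * C + 2 * C', by positivity, fun Φ => ?_⟩
    have h3 : ‖π (S (x + z)) Φ‖ ^ 2 ≤ (‖π (S x) Φ‖ + ‖π (S z) Φ‖) ^ 2 := by
      rw [map_add, map_add, LinearMap.add_apply]
      gcongr
      exact norm_add_le _ _
    nlinarith [h1 Φ, h2 Φ, sq_nonneg (‖π (S x) Φ‖ - ‖π (S z) Φ‖)]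
  smul_mem' c x hx η hη := by
    obtain ⟨C, hC, h1⟩ := hx (η / (‖c‖ ^ 2 + 1)) (by positivity)
    refine ⟨‖c‖ ^ 2 * C, by positivity, fun Φ => ?_⟩
    rw [map_smul, map_smul, LinearMap.smul_apply, norm_smul, mul_pow]
    have h2 : ‖c‖ ^ 2 * (η / (‖c‖ ^ 2 + 1)) ≤ η := by
      rw [← mul_div_assoc, div_le_iff₀ (by positivity)]
      nlinarith
    have h3 := mul_le_mul_of_nonneg_left (h1 Φ) (sq_nonneg ‖c‖)
    have h4 := mul_le_mul_of_nonneg_right h2 (sq_nonneg ‖Φ‖)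
    nlinarith

/-- Quadratic forms that are small compared with `q`. -/
def Small (q : M → ℝ) (P : R) : Prop :=
  ∀ η > 0, ∃ C ≥ 0, ∀ Φ, |qf π P Φ| ≤ C * q Φ + η * ‖Φ‖ ^ 2

/-- Bounded operators. -/
def Bdd (P : R) : Prop := ∃ b ≥ 0, ∀ Φ, ‖π P Φ‖ ≤ b * ‖Φ‖

variable {π}

lemma qf_add (P Q : R) (Φ : M) : qf π (P + Q) Φ = qf π P Φ + qf π Q Φ := by
  simp [qf, inner_add_right]

lemma qf_neg (P : R) (Φ : M) : qf π (-P) Φ = - qf π P Φ := by
  simp [qf]

lemma qf_sub (P Q : R) (Φ : M) : qf π (P - Q) Φ = qf π P Φ - qf π Q Φ := by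
  simp [qf, inner_sub_right]

lemma qf_smul (c : ℝ) (P : R) (Φ : M) : qf π ((c : ℂ) • P) Φ = c * qf π P Φ := by
  rw [qf, map_smul, LinearMap.smul_apply, inner_smul_right, Complex.re_ofReal_mul, qf]

lemma qf_sum {ι : Type*} (s : Finset ι) (P : ι → R) (Φ : M) :
    qf π (∑ j ∈ s, P j) Φ = ∑ j ∈ s, qf π (P j) Φ := by
  simp [qf, inner_sum, LinearMap.sum_apply]

lemma qf_star_mul (hπ : IsStarAct π) (P Q : R) (Φ : M) :
    qf π (star P * Q) Φ = (inner ℂ (π P Φ) (π Q Φ)).re := by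
  rw [qf, hπ, map_mul, Module.End.mul_apply]

lemma qf_star_mul_self (hπ : IsStarAct π) (P : R) (Φ : M) :
    qf π (star P * P) Φ = ‖π P Φ‖ ^ 2 := by
  rw [qf_star_mul hπ, inner_self_eq_norm_sq_to_K]
  norm_cast

lemma qf_lap_nonneg (hπ : IsStarAct π) (P : R) (Φ : M) : 0 ≤ qf π (lap P) Φ := by
  have := qf_star_mul_self hπ (star P) Φ
  rw [star_star] at this
  rw [lap, qf_add, this, qf_star_mul_self hπ]
  positivity

lemma Small.add {q : M → ℝ} {P Q : R} (hP : Small π q P) (hQ : Small π q Q) :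
    Small π q (P + Q) := by
  intro η hη
  obtain ⟨C, hC, h1⟩ := hP (η / 2) (by positivity)
  obtain ⟨C', hC', h2⟩ := hQ (η / 2) (by positivity)
  refine ⟨C + C', by positivity, fun Φ => ?_⟩
  rw [qf_add]
  linarith [abs_add_le (qf π P Φ) (qf π Q Φ), h1 Φ, h2 Φ]

lemma Small.neg {q : M → ℝ} {P : R} (hP : Small π q P) : Small π q (-P) := by
  simpa only [Small, qf_neg, abs_neg] using hP

lemma Small.sum {q : M → ℝ} {ι : Type*} (s : Finset ι) {P : ι → R}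
    (hP : ∀ j ∈ s, Small π q (P j)) : Small π q (∑ j ∈ s, P j) :=
  Finset.sum_induction _ _ (fun _ _ => Small.add)
    (fun η hη => ⟨0, le_rfl, fun Φ => by simp [qf]; positivity⟩) hP

lemma small_aux {S : L →ₗ[ℂ] R} {q : M → ℝ} {hq : ∀ Φ, 0 ≤ q Φ} {x : L} (hx : x ∈ Ctrl π S q hq)
    {Q P : R} (hQ : Bdd π Q) (h : ∀ Φ, |qf π P Φ| ≤ ‖π (S x) Φ‖ * ‖π Q Φ‖) : Small π q P := by
  intro η hη
  obtain ⟨b, hb, h1⟩ := hQ
  obtain ⟨C, hC, h2⟩ := hx (η ^ 2 / (b ^ 2 + 1)) (by positivity)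
  refine ⟨(b ^ 2 + 1) / (2 * η) * C, by positivity, fun Φ => ?_⟩
  have h3 := (h Φ).trans (mul_le_mul_of_nonneg_left (h1 Φ) (norm_nonneg _))
  have h4 := mul_le_mul_of_nonneg_left (h2 Φ) (show 0 ≤ (b ^ 2 + 1) / (2 * η) by positivity)
  have h5 : (b ^ 2 + 1) / (2 * η) * (η ^ 2 / (b ^ 2 + 1) * ‖Φ‖ ^ 2) = η / 2 * ‖Φ‖ ^ 2 := by
    field_simp
  have h6 : (b ^ 2 + 1) / (2 * η) * ‖π (S x) Φ‖ ^ 2 + η / 2 * ‖Φ‖ ^ 2
      - ‖π (S x) Φ‖ * (b * ‖Φ‖)
      = ((b * ‖π (S x) Φ‖ - η * ‖Φ‖) ^ 2 + ‖π (S x) Φ‖ ^ 2) / (2 * η) := by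
    field_simp
    ring
  have h7 : 0 ≤ ((b * ‖π (S x) Φ‖ - η * ‖Φ‖) ^ 2 + ‖π (S x) Φ‖ ^ 2) / (2 * η) := by positivity
  nlinarith

lemma abs_re_inner_le (a b : M) : |(inner ℂ a b).re| ≤ ‖a‖ * ‖b‖ :=
  (Complex.abs_re_le_norm _).trans (norm_inner_le_norm a b)

lemma bdd_one : Bdd π 1 := ⟨1, zero_le_one, fun Φ => by simp⟩

lemma Bdd.mul {P Q : R} (hP : Bdd π P) (hQ : Bdd π Q) : Bdd π (P * Q) := by
  obtain ⟨a, ha, h1⟩ := hP
  obtain ⟨b, hb, h2⟩ := hQ
  refine ⟨a * b, by positivity, fun Φ => ?_⟩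
  rw [map_mul, Module.End.mul_apply, mul_assoc]
  exact (h1 _).trans (mul_le_mul_of_nonneg_left (h2 Φ) ha)

lemma Bdd.sum {ι : Type*} (s : Finset ι) {P : ι → R} (hP : ∀ j ∈ s, Bdd π (P j)) :
    Bdd π (∑ j ∈ s, P j) := by
  refine Finset.sum_induction _ _ ?_ ⟨0, le_rfl, fun Φ => by simp⟩ hP
  rintro P Q ⟨a, ha, h1⟩ ⟨b, hb, h2⟩
  refine ⟨a + b, by positivity, fun Φ => ?_⟩
  rw [map_add, LinearMap.add_apply, add_mul]
  exact (norm_add_le _ _).trans (add_le_add (h1 Φ) (h2 Φ))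

lemma SRep.bdd (h : SRep B ε i ρ) (hπ : IsStarAct π) (x : L) :
    Bdd π (i x) ∧ Bdd π (ε (star x)) := by
  have h1 : ∀ Φ, ‖π (i x) Φ‖ ^ 2 + ‖π (ε (star x)) Φ‖ ^ 2 ≤ (√‖B (star x) x‖ * ‖Φ‖) ^ 2 := by
    intro Φ
    rw [← qf_star_mul_self hπ, ← qf_star_mul_self hπ, ← qf_add, h.star_i, h.star_eps, star_star,
      h.ei, mul_pow, Real.sq_sqrt (norm_nonneg _), qf]
    refine (le_abs_self _).trans ((abs_re_inner_le _ _).trans (le_of_eq ?_))
    simp only [map_smul, map_one, LinearMap.smul_apply, Module.End.one_apply, norm_smul]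
    ring
  refine ⟨⟨√‖B (star x) x‖, by positivity, fun Φ => ?_⟩, ⟨√‖B (star x) x‖, by positivity,
    fun Φ => ?_⟩⟩ <;>
  · refine (pow_le_pow_iff_left₀ (norm_nonneg _) (by positivity) two_ne_zero).1 ?_
    nlinarith [h1 Φ, sq_nonneg ‖π (i x) Φ‖, sq_nonneg ‖π (ε (star x)) Φ‖]

lemma SRep.bdd_th (h : SRep B ε i ρ) (hπ : IsStarAct π) (x : L) : Bdd π (th ε i e f x) := by
  obtain ⟨b, hb, h1⟩ : Bdd π (∑ b, ε (f b) * i ⁅x, e b⁆) := Bdd.sum _ fun b _ =>
    Bdd.mul (by simpa using (h.bdd hπ (star (f b))).2) (h.bdd hπ _).1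
  refine ⟨b, hb, fun Φ => ?_⟩
  simpa only [th_apply, map_neg, LinearMap.neg_apply, norm_neg] using h1 Φ

lemma ctrl_of_le {S : L →ₗ[ℂ] R} {q : M → ℝ} {hq : ∀ Φ, 0 ≤ q Φ} {x : L}
    (h : ∀ Φ, ‖π (S x) Φ‖ ^ 2 ≤ q Φ) : x ∈ Ctrl π S q hq := fun η hη =>
  ⟨1, zero_le_one, fun Φ => by nlinarith [h Φ, mul_nonneg hη.le (sq_nonneg ‖Φ‖)]⟩

lemma ctrl_span (S : L →ₗ[ℂ] R) {q : M → ℝ} {hq : ∀ Φ, 0 ≤ q Φ}
    (h : ∀ Φ, ∑ a, ‖π (S (u a)) Φ‖ ^ 2 ≤ q Φ) : Sp u ≤ Ctrl π S q hq :=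
  Submodule.span_le.2 (by
    rintro _ ⟨a, rfl⟩
    exact ctrl_of_le fun Φ => (single_le_sum (f := fun a => ‖π (S (u a)) Φ‖ ^ 2)
      (fun _ _ => sq_nonneg _) (mem_univ a)).trans (h Φ))

lemma SRep.poinc (h : SRep B ε i ρ) (hπ : IsStarAct π) (hP : Par B e f y y')
    {ι : Type*} [Fintype ι] (z : ι → L) {C : ℝ} (hC : 0 ≤ C)
    (hz : ∀ Φ, ‖Φ‖ ^ 2 ≤ C * ∑ j, ‖π (ρ (z j)) Φ‖ ^ 2) :
    ∃ c > 0, ∀ Φ, c * ‖Φ‖ ^ 2 ≤ qf π (- cas ρ e f y y') Φ := by
  set q := fun Φ => ∑ a, ‖π (ρ (e a)) Φ‖ ^ 2 + ∑ a, ‖π (ρ (f a)) Φ‖ ^ 2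
    + ∑ a, ‖π (ρ (y a)) Φ‖ ^ 2 with hq
  have hq0 : ∀ Φ, 0 ≤ q Φ := fun Φ => by positivity
  have h1 : ∀ Φ, qf π (- cas ρ e f y y') Φ = q Φ := by
    intro Φ
    simp only [hq, ← qf_star_mul_self hπ, h.star_rho, hP.sf, hP.sf', hP.sy, cas, qf_neg, qf_add,
      qf_sum, neg_mul, sum_neg_distrib, neg_add]
  have h2 : ∀ x, x ∈ Ctrl π ρ q hq0 := by
    intro x
    rw [← hP.exp x]
    refine Submodule.add_mem _ (Submodule.add_mem _ (ctrl_span ρ (fun Φ => ?_) (pr_mem x))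
      (ctrl_span ρ (fun Φ => ?_) (pr_mem x))) (ctrl_span ρ (fun Φ => ?_) (pr_mem x))
    all_goals
      have a1 : 0 ≤ ∑ a, ‖π (ρ (e a)) Φ‖ ^ 2 := by positivity
      have a2 : 0 ≤ ∑ a, ‖π (ρ (f a)) Φ‖ ^ 2 := by positivity
      have a3 : 0 ≤ ∑ a, ‖π (ρ (y a)) Φ‖ ^ 2 := by positivity
      simp only [hq]
      linarith
  choose D hD h3 using fun j => h2 (z j) (1 / (2 * (C * Fintype.card ι + 1))) (by positivity)
  have hD0 : 0 ≤ ∑ j, D j := sum_nonneg fun j _ => hD j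
  refine ⟨1 / (2 * (C * ∑ j, D j + 1)), by positivity, fun Φ => ?_⟩
  have h4 := (hz Φ).trans (mul_le_mul_of_nonneg_left (sum_le_sum fun j _ => h3 j Φ) hC)
  rw [sum_add_distrib, ← sum_mul, sum_const, card_univ, nsmul_eq_mul] at h4
  have h5 : C * (Fintype.card ι * (1 / (2 * (C * Fintype.card ι + 1)) * ‖Φ‖ ^ 2))
      ≤ 1 / 2 * ‖Φ‖ ^ 2 := by
    rw [← mul_assoc, ← mul_assoc]
    gcongr
    rw [mul_one_div, div_le_div_iff₀ (by positivity) (by positivity)]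
    linarith
  rw [h1, one_div, inv_mul_le_iff₀ (by positivity)]
  nlinarith [hq0 Φ]

theorem SRep.coercive (h : SRep B ε i ρ) (hB : HForm B) (hP : Ell B e f y y' u u')
    (hπ : IsStarAct π) {ι : Type*} [Fintype ι] (z : ι → L) {C : ℝ} (hC : 0 ≤ C)
    (hz : ∀ Φ, ‖Φ‖ ^ 2 ≤ C * ∑ j, ‖π (ρ (z j)) Φ‖ ^ 2) :
    ∃ c > 0, ∃ K0 : ℝ, ∀ K : ℝ, K0 ≤ K → ∀ Φ, c * ‖Φ‖ ^ 2 ≤ qf π (lap (dCE ε i ρ e f)
      - (K : ℂ) • ∑ a, TT ε i ρ e f (u' a) * TT ε i ρ e f (u a)) Φ := by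
  have hP2 := hP.toPar2
  obtain ⟨c, hc, h1⟩ := h.poinc hπ hP.toPar z hC hz
  set T := TT ε i ρ e f with hT
  set q := fun Φ => ∑ a, ‖π (T (u a)) Φ‖ ^ 2 with hq
  have hq0 : ∀ Φ, 0 ≤ q Φ := fun Φ => by positivity
  have h2 : Sp u ≤ Ctrl π T q hq0 := ctrl_span T fun Φ => le_rfl
  have hs : ∀ {x}, x ∈ Ctrl π T q hq0 → Small π q (T x) := fun hx =>
    small_aux hx bdd_one fun Φ => by
      simpa [qf, mul_comm] using abs_re_inner_le Φ (π (T _) Φ)
  have h3 : ∀ x ∈ Sp u, star x ∈ Ctrl π T q hq0 := by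
    intro x hx η hη
    have hl := hP.Sp_le hx
    obtain ⟨C1, hC1, h4⟩ := h2 hx (η / 2) (by positivity)
    obtain ⟨C2, hC2, h5⟩ := hs (h2 (lie_mem_Sp (hP.lie_u (hP.star_mem hl)) hx)) (η / 2)
      (by positivity)
    refine ⟨C1 + C2, by positivity, fun Φ => ?_⟩
    have h6 : star (T (star x)) * T (star x) = star (T x) * T x + T ⁅star x, x⁆ := by
      rw [h.star_T hB hP2 hl, h.star_T hB hP2 (hP.star_mem hl), star_star,
        ← h.T_lie hB hP2 (hP.star_mem hl) hl]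
      noncomm_ring
    have h7 := congrArg (qf π · Φ) h6
    simp only [qf_add, qf_star_mul_self hπ] at h7
    linarith [h4 Φ, (le_abs_self _).trans (h5 Φ)]
  have h4 : Sp y ≤ Ctrl π T q hq0 := Submodule.span_le.2 (by
    rintro _ ⟨j, rfl⟩
    obtain ⟨a, ha, b, hb, hj⟩ := hP.gen j
    rw [hj]
    exact Submodule.add_mem _ (h2 ha) (h3 b hb))
  have h5 : Small π q (∑ j, (T (y' j) * T (y j) - T (y' j) * th ε i f e (y j)
      - th ε i f e (y' j) * T (y j)) + T (∑ a, ⁅e a, f a⁆)) := by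
    refine (Small.sum _ fun j _ => ?_).add (hs (h4 hP.H0_mem))
    have e1 : T (y' j) = - star (T (y j)) := by
      rw [h.star_T hB hP2 (mem_Sp j), hP.sy, neg_neg]
    have e2 : th ε i f e (y' j) = - star (th ε i f e (y j)) := by
      rw [h.star_th hB (hP2.swap hB).toPar (mem_Sp j), hP.sy, neg_neg]
    rw [e1, e2, neg_mul, neg_mul, neg_mul, sub_neg_eq_add, sub_neg_eq_add]
    refine ((Small.neg ?_).add ?_).add ?_
    · intro η hη
      obtain ⟨C1, hC1, h6⟩ := h4 (mem_Sp j) η hη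
      exact ⟨C1, hC1, fun Φ => by
        rw [qf_star_mul_self hπ, abs_of_nonneg (sq_nonneg _)]; exact h6 Φ⟩
    · refine small_aux (h4 (mem_Sp j)) (h.bdd_th (e := f) (f := e) hπ (y j)) fun Φ => ?_
      rw [qf_star_mul hπ]
      exact abs_re_inner_le _ _
    · refine small_aux (h4 (mem_Sp j)) (h.bdd_th (e := f) (f := e) hπ (y j)) fun Φ => ?_
      rw [qf_star_mul hπ, mul_comm]
      exact abs_re_inner_le _ _
  obtain ⟨C1, hC1, h6⟩ := h5 (c / 2) (by positivity)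
  refine ⟨c / 4, by positivity, C1 / 2, fun K hK Φ => ?_⟩
  have h7 := congrArg (qf π · Φ) (h.two_lap hB hP2)
  have e2 : (2 : ℂ) = ((2 : ℝ) : ℂ) := by norm_num
  simp only [e2, qf_smul, ← hT] at h7
  rw [qf_add, qf_add, qf_smul] at h7
  have h8 : qf π (∑ a, T (u' a) * T (u a)) Φ = - q Φ := by
    simp only [hq, qf_sum, ← qf_star_mul_self hπ, ← sum_neg_distrib, ← qf_neg]
    refine sum_congr rfl fun a _ => ?_
    rw [h.star_T hB hP2 (hP.ul a), hP.su, neg_mul, neg_neg]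
  rw [qf_sub, qf_smul, h8]
  have h9 := mul_le_mul_of_nonneg_right hK (hq0 Φ)
  linarith [h1 Φ, (abs_le.1 (h6 Φ)).1, qf_lap_nonneg hπ (dCE ε i 0 f e) Φ]

end Pool.Agent.MP_f244e7_gt

end MrgPart1

-- ======== part 2: formerly Pool.Agent.MP_f244e7_gt.Fil
section MrgPart2

/-! Filtrations by eigenvalues. -/

set_option linter.unusedSectionVars false

namespace Pool.Agent.MP_f244e7_gt

open Set Module

variable {M : Type*} [AddCommGroup M] [Module ℂ M] {M' : Type*} [AddCommGroup M'] [Module ℂ M']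

/-- The sum of the eigenspaces with eigenvalue in a set of reals. -/
noncomputable def Fil (N : End ℂ M) (S : Set ℝ) : Submodule ℂ M :=
  ⨆ c ∈ S, N.eigenspace (c : ℂ)

lemma mem_Fil {N : End ℂ M} {S : Set ℝ} {c : ℝ} (hc : c ∈ S) {x : M} (hx : N x = (c : ℂ) • x) :
    x ∈ Fil N S :=
  le_biSup (fun c : ℝ => N.eigenspace (c : ℂ)) hc (End.mem_eigenspace_iff.2 hx)

lemma Fil_le {N : End ℂ M} {S : Set ℝ} {U : Submodule ℂ M}
    (h : ∀ c ∈ S, ∀ x, N x = (c : ℂ) • x → x ∈ U) : Fil N S ≤ U :=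
  iSup₂_le fun c hc x hx => h c hc x (End.mem_eigenspace_iff.1 hx)

lemma Fil_mono {N : End ℂ M} {S S' : Set ℝ} (h : S ⊆ S') : Fil N S ≤ Fil N S' :=
  Fil_le fun _ hc _ hx => mem_Fil (h hc) hx

lemma Fil_map {N : End ℂ M} {N' : End ℂ M'} {S S' : Set ℝ} (φ : M →ₗ[ℂ] M') (s : ℝ)
    (hφ : ∀ x, N' (φ x) = φ (N x) + (s : ℂ) • φ x) (hS : ∀ c ∈ S, c + s ∈ S') {x : M}
    (hx : x ∈ Fil N S) : φ x ∈ Fil N' S' :=
  Fil_le (U := (Fil N' S').comap φ) (fun c hc x hx => mem_Fil (hS c hc) (by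
    rw [hφ, hx, map_smul, Complex.ofReal_add, add_smul])) hx

lemma Fil_disjoint (N : End ℂ M) {S S' : Set ℝ} (h : Disjoint S S') :
    Disjoint (Fil N S) (Fil N S') :=
  (N.eigenspaces_iSupIndep.comp Complex.ofReal_injective).disjoint_biSup_biSup h

lemma Fil_union (N : End ℂ M) (S S' : Set ℝ) : Fil N (S ∪ S') = Fil N S ⊔ Fil N S' :=
  iSup_union

lemma Fil_top {ι : Type*} (n : ι → End ℂ M) (w : ι → ℝ) (h1 : ∀ k, n k * n k = n k)
    (h2 : ∀ k l, Commute (n k) (n l)) (s : Finset ι) :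
    ∃ C, ∀ x, x ∈ Fil (∑ k ∈ s, (w k : ℂ) • n k) (Icc (-C) C) := by
  classical
  induction s using Finset.induction_on with
  | empty => exact ⟨0, fun x => mem_Fil (c := 0) (by simp) (by simp)⟩
  | insert a s ha ih =>
    obtain ⟨C, hC⟩ := ih
    refine ⟨C + |w a|, fun x => ?_⟩
    have hc : Commute (∑ k ∈ s, (w k : ℂ) • n k) (n a) :=
      Commute.sum_left _ _ _ fun k _ => (h2 k a).smul_left _
    have h3 := Fil_map (N' := ∑ k ∈ insert a s, (w k : ℂ) • n k) (S' := Icc (-(C + |w a|)) (C + |w a|))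
      (n a) (w a) (fun x => by
        rw [Finset.sum_insert ha, LinearMap.add_apply, ← End.mul_apply (∑ k ∈ s, _), hc.eq,
          LinearMap.smul_apply, ← End.mul_apply (n a) (n a), h1, add_comm]
        rfl)
      (fun c hc => ⟨by linarith [hc.1, neg_abs_le (w a)], by linarith [hc.2, le_abs_self (w a)]⟩)
      (hC x)
    have h4 := Fil_map (N' := ∑ k ∈ insert a s, (w k : ℂ) • n k) (S' := Icc (-(C + |w a|)) (C + |w a|))
      (1 - n a) 0 (fun x => by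
        rw [Finset.sum_insert ha, LinearMap.add_apply, ← End.mul_apply (∑ k ∈ s, _),
          ((Commute.one_right _).sub_right hc).eq,
          LinearMap.smul_apply, ← End.mul_apply (n a), mul_sub, h1]
        simp)
      (fun c hc => ⟨by linarith [hc.1, abs_nonneg (w a)], by linarith [hc.2, abs_nonneg (w a)]⟩)
      (hC x)
    simpa using Submodule.add_mem _ h3 h4

/-- Operators raising the filtration by at least `s`. -/
def Up (N : End ℂ M) (s : ℝ) : Submodule ℂ (End ℂ M) where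
  carrier := {P | ∀ t, ∀ x ∈ Fil N (Ici t), P x ∈ Fil N (Ici (t + s))}
  add_mem' hP hQ t x hx := Submodule.add_mem _ (hP t x hx) (hQ t x hx)
  zero_mem' _ _ _ := Submodule.zero_mem _
  smul_mem' c _ hP t x hx := Submodule.smul_mem _ c (hP t x hx)

lemma Up.mono {N P : End ℂ M} {s s' : ℝ} (h : P ∈ Up N s) (hs : s' ≤ s) : P ∈ Up N s' :=
  fun t x hx => Fil_mono (Ici_subset_Ici.2 (by linarith)) (h t x hx)

lemma Up.mul {N P Q : End ℂ M} {s s' : ℝ} (h : P ∈ Up N s) (h' : Q ∈ Up N s') :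
    P * Q ∈ Up N (s + s') := fun t x hx => by
  rw [add_comm s, ← add_assoc]
  exact h _ _ (h' t x hx)

lemma Up.of_hom {N P : End ℂ M} {s : ℝ} (h : N * P = P * N + (s : ℂ) • P) : P ∈ Up N s :=
  fun t _ hx => Fil_map P s (fun x => LinearMap.congr_fun h x)
    (fun c hc => by simpa using hc) hx

lemma Up.of_comm {N P : End ℂ M} (h : Commute N P) : P ∈ Up N 0 :=
  Up.of_hom (by simpa using h.eq)

/-- Operators strictly raising the filtration. -/
def Raise (N : End ℂ M) : Submodule ℂ (End ℂ M) where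
  carrier := {P | ∃ s > 0, P ∈ Up N s}
  add_mem' := by
    rintro P Q ⟨s, hs, hP⟩ ⟨s', hs', hQ⟩
    exact ⟨min s s', lt_min hs hs', Submodule.add_mem _ (Up.mono hP (min_le_left _ _))
      (Up.mono hQ (min_le_right _ _))⟩
  zero_mem' := ⟨1, one_pos, Submodule.zero_mem _⟩
  smul_mem' := by
    rintro c P ⟨s, hs, hP⟩
    exact ⟨s, hs, Submodule.smul_mem _ c hP⟩

lemma Fil_inv {N D : End ℂ M} (hD : Function.Bijective D) (h : Commute N D) {S : Set ℝ} {x : M}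
    (hx : D x ∈ Fil N S) : x ∈ Fil N S := by
  let e := LinearEquiv.ofBijective D hD
  have := Fil_map (N' := N) (S' := S) e.symm.toLinearMap 0 (fun x => hD.1 (by
    have h1 : ∀ z, D (e.symm z) = z := e.apply_symm_apply
    simp only [LinearEquiv.coe_coe, Complex.ofReal_zero, zero_smul, add_zero, h1]
    rw [← End.mul_apply, ← h.eq, End.mul_apply, h1])) (fun c hc => by simpa using hc) hx
  exact (e.symm_apply_apply x) ▸ this

theorem filtered_exact {N1 N2 d d0 δ : End ℂ M} (hd : d * d = 0)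
    (hD : Function.Bijective (d0 * δ + δ * d0 : End ℂ M)) (h1 : Commute N1 d0)
    (h1' : Commute N1 δ) (h2 : Commute N2 d0) (h2' : Commute N2 δ) (h3 : d - d0 ∈ Up N1 0)
    (h4 : d - d0 ∈ Raise N2) {C : ℝ} (hC : ∀ x, x ∈ Fil N2 (Icc (-C) C)) {p : ℝ} {x : M}
    (hx : x ∈ Fil N1 (Ici p)) (hdx : d x ∈ Fil N1 (Ici (p + 1))) :
    ∃ θ ∈ Fil N1 (Ici p), x - d θ ∈ Fil N1 (Ici (p + 1)) := by
  obtain ⟨s, hs, h4⟩ := h4
  set D0 := d0 * δ + δ * d0 with hD0
  set R1 := (d - d0) * δ + δ * (d - d0) with hR1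
  have hc1 : Commute N1 D0 := (h1.mul_right h1').add_right (h1'.mul_right h1)
  have hc2 : Commute N2 D0 := (h2.mul_right h2').add_right (h2'.mul_right h2)
  have hR : R1 ∈ Up N1 0 := Submodule.add_mem _ (by simpa using Up.mul h3 (Up.of_comm h1'))
    (by simpa using Up.mul (Up.of_comm h1') h3)
  have hR' : R1 ∈ Up N2 s := Submodule.add_mem _ (by simpa using Up.mul h4 (Up.of_comm h2'))
    (by simpa using Up.mul (Up.of_comm h2') h4)
  obtain ⟨n, hn⟩ := exists_nat_gt (2 * C / s)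
  rw [div_lt_iff₀ hs] at hn
  have hbot : ∀ z ∈ Fil N2 (Ici (-C + n * s)), z = 0 := fun z hz =>
    (Submodule.disjoint_def.1 (Fil_disjoint N2 (Set.disjoint_left.2 fun c hc hc' => by
      linarith [mem_Ici.1 hc, hc'.2]))) z hz (hC z)
  have htop : ∀ z, z ∈ Fil N2 (Ici (-C)) := fun z => Fil_mono Icc_subset_Ici_self (hC z)
  have hinj : ∀ z, (D0 + R1) z = 0 → z = 0 := by
    intro z hz
    have : ∀ m : ℕ, z ∈ Fil N2 (Ici (-C + m * s)) := by
      intro m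
      induction m with
      | zero => simpa using htop z
      | succ m ih =>
        refine Fil_inv hD hc2 ?_
        rw [eq_neg_of_add_eq_zero_left hz, Nat.cast_succ, add_mul, one_mul, ← add_assoc]
        exact Submodule.neg_mem _ (hR' _ _ ih)
    exact hbot z (this n)
  have hsur : ∀ (t : ℝ) (m : ℕ), ∀ z ∈ Fil N1 (Ici t), z ∈ Fil N2 (Ici (-C + n * s - m * s)) →
      ∃ v ∈ Fil N1 (Ici t), (D0 + R1) v = z := by
    intro t m
    induction m with
    | zero =>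
      intro z _ hz
      exact ⟨0, Submodule.zero_mem _, by rw [map_zero, hbot z (by simpa using hz)]⟩
    | succ m ih =>
      intro z hz hz'
      obtain ⟨v, rfl⟩ := hD.2 z
      have hv := Fil_inv hD hc1 hz
      obtain ⟨w, hw, hw'⟩ := ih (R1 v) (by simpa using hR _ _ hv) (by
        convert hR' _ _ (Fil_inv hD hc2 hz') using 3
        push_cast
        ring)
      exact ⟨v - w, Submodule.sub_mem _ hv hw, by rw [map_sub, hw']; simp⟩
  have hD' : D0 + R1 = d * δ + δ * d := by rw [hD0, hR1]; noncomm_ring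
  obtain ⟨v, hv, rfl⟩ := hsur p n x hx (by simpa using htop x)
  obtain ⟨w, hw, hw'⟩ := hsur (p + 1) n _ hdx (by simpa using htop _)
  have h5 : d * (D0 + R1) = (D0 + R1) * d := by
    rw [hD']
    linear_combination (norm := noncomm_ring) hd * δ - δ * hd
  have h6 : w = d v := by
    rw [← sub_eq_zero]
    refine hinj _ ?_
    rw [map_sub, hw', ← End.mul_apply, h5, End.mul_apply, sub_self]
  refine ⟨δ v, by simpa using Up.of_comm h1' _ _ hv, ?_⟩
  have h7 : (D0 + R1) v - d (δ v) = δ w := by simp [hD', h6]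
  rw [h7]
  simpa using Up.of_comm h1' _ _ hw

end Pool.Agent.MP_f244e7_gt

end MrgPart2

-- marker of a merged file
example : 731051 + 532552 = 731051 + 532552 := rfl
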