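import Pool.Agent.MP_f244e7_gt.Fil

/-! Weights of the terms of the differential. -/

set_option linter.unusedSectionVars false

namespace Pool.Agent.MP_f244e7_gt

open Finset

variable {L : Type*} [LieRing L] [LieAlgebra ℂ L] [StarAddMonoid L] [StarModule ℂ L]
  {R : Type*} [Ring R] [Algebra ℂ R] [StarRing R] [StarModule ℂ R]
  {B : L →ₗ[ℂ] L →ₗ[ℂ] ℂ} {ε i ρ : L →ₗ[ℂ] R}
  {σ : Type*} [Fintype σ] [DecidableEq σ] {e f : σ → L}
  {τ : Type*} [Fintype τ] [DecidableEq τ] {y y' : τ → L}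
  {ν : Type*} [Fintype ν] [DecidableEq ν] {u u' : ν → L}
  {χ : Type*} [Fintype χ] [DecidableEq χ] {q q' : χ → L}

/-- Homogeneous elements. -/
def Hom (N : R) (s : ℝ) (P : R) : Prop := N * P = P * N + (s : ℂ) • P

lemma Hom.mul {N P Q : R} {s t : ℝ} (h : Hom N s P) (h' : Hom N t Q) : Hom N (s + t) (P * Q) := by
  unfold Hom at *
  rw [← mul_assoc, h, add_mul, mul_assoc, h', Complex.ofReal_add, add_smul]
  simp only [mul_add, mul_assoc, smul_mul_assoc, mul_smul_comm]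
  abel

lemma Hom.comm {N P : R} {s : ℝ} (h : Hom N s P) (hs : s = 0) : Commute N P := by
  simpa [Hom, hs, commute_iff_eq] using h

lemma Hom.of_comm {N P : R} (h : Commute N P) : Hom N 0 P := by
  simpa [Hom] using h.eq

/-- The weighted number operator. -/
def NN (ε i : L →ₗ[ℂ] R) (e f : σ → L) (w : σ → ℝ) : R := ∑ k, (w k : ℂ) • (ε (f k) * i (e k))

lemma CAR.hom_eps (h : CAR B ε i) (hd : Dual B e f) (hs : ∀ x z, B x z = B z x) (w : σ → ℝ)
    (k : σ) : Hom (NN ε i e f w) (w k) (ε (f k)) := by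
  have h1 : ∀ l, ε (f l) * i (e l) * ε (f k)
      = ε (f k) * (ε (f l) * i (e l)) + B (f k) (e l) • ε (f l) := by
    intro l
    rw [← mul_smul_one, ← h.ei]
    linear_combination (norm := noncomm_ring) - h.ee (f l) (f k) * i (e l)
  simp [Hom, NN, sum_mul, mul_sum, h1, sum_add_distrib, hd k]

lemma CAR.hom_i (h : CAR B ε i) (hd : Dual B e f) (w : σ → ℝ) (k : σ) :
    Hom (NN ε i e f w) (- w k) (i (e k)) := by
  have h1 : ∀ l, ε (f l) * i (e l) * i (e k)
      = i (e k) * (ε (f l) * i (e l)) - B (f l) (e k) • i (e l) := by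
    intro l
    rw [← smul_one_mul, ← h.ei]
    linear_combination (norm := noncomm_ring) ε (f l) * h.ii (e l) (e k)
  simp [Hom, NN, sum_mul, mul_sum, h1, sum_add_distrib, hd _ k, smul_sub, sub_eq_add_neg]

lemma CAR.num_sq (h : CAR B ε i) (hd : Dual B e f) (k : σ) :
    ε (f k) * i (e k) * (ε (f k) * i (e k)) = ε (f k) * i (e k) := by
  have h1 := h.ei (e k) (f k)
  rw [hd, if_pos rfl, one_smul] at h1
  linear_combination (norm := noncomm_ring) ε (f k) * h1 * i (e k)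
    - h.eps_sq (f k) * i (e k) * i (e k)

lemma CAR.num_comm (h : CAR B ε i) (hd : Dual B e f) (k l : σ) :
    Commute (ε (f k) * i (e k)) (ε (f l) * i (e l)) := by
  by_cases hkl : k = l
  · rw [hkl]
  have h1 : Anti (ε (f l)) (i (e k)) := by rw [Anti, h.ei, hd, if_neg (Ne.symm hkl), zero_smul]
  have h2 : Anti (ε (f k)) (i (e l)) := by rw [Anti, h.ei, hd, if_neg hkl, zero_smul]
  exact (Anti.mul_anti (h.ee _ _) h2).mul_left (h1.symm.mul_anti (h.ii _ _))

lemma SRep.star_NN (h : SRep B ε i ρ) (hf : ∀ k, star (e k) = f k) (w : σ → ℝ) :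
    star (NN ε i e f w) = NN ε i e f w := by
  simp only [NN, star_sum, star_smul, star_mul, h.star_i, h.star_eps, ← hf, star_star,
    Complex.star_def, Complex.conj_ofReal]

lemma SRep.NN_rho (h : SRep B ε i ρ) (w : σ → ℝ) (x : L) : Commute (NN ε i e f w) (ρ x) :=
  Commute.sum_left _ _ _ fun _ _ => ((h.ce _ _).mul_right (h.ci _ _)).symm.smul_left _

lemma selection (hB : HForm B) {H a b c : L} {α β γ : ℝ} (ha : ⁅H, a⁆ = (α : ℂ) • a)
    (hb : ⁅H, b⁆ = (β : ℂ) • b) (hc : ⁅H, c⁆ = (γ : ℂ) • c) (h : B c ⁅a, b⁆ ≠ 0) :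
    α + β + γ = 0 := by
  have h1 := hB.skew H c ⁅a, b⁆
  rw [leibniz_lie, ha, hb, hc, hB.symm ⁅a, b⁆] at h1
  simp only [smul_lie, lie_smul, map_add, map_smul, LinearMap.smul_apply, smul_eq_mul] at h1
  have h2 : ((α + β + γ : ℝ) : ℂ) * B c ⁅a, b⁆ = 0 := by
    push_cast
    linear_combination h1
  exact_mod_cast (mul_eq_zero.1 h2).resolve_right h

lemma comm_i_span {N : R} (h : ∀ a, Commute N (i (e a))) {x : L} (hx : x ∈ Sp e) :
    Commute N (i x) := by
  induction hx using Submodule.span_induction with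
  | mem x hx => obtain ⟨a, rfl⟩ := hx; exact h a
  | zero => simp
  | add x y _ _ h1 h2 => rw [map_add]; exact h1.add_right h2
  | smul c x _ h1 => rw [map_smul]; exact h1.smul_right _

lemma CAR.t2_symm (h : CAR B ε i) : t2 ε i e f y y' = t2 ε i y y' e f := by
  rw [t2, t2, sum_comm]
  refine sum_congr rfl fun a _ => sum_congr rfl fun b _ => ?_
  rw [← lie_skew (y a), map_neg]
  linear_combination (norm := noncomm_ring) h.ee (f b) (y' a) * i ⁅e b, y a⁆

lemma t2_th : ∑ a, ε (y' a) * th ε i e f (y a) = - t2 ε i y y' e f := by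
  simp only [th_apply, t2, mul_neg, mul_sum, sum_neg_distrib, mul_assoc]

/-- The structure of an elliptic subalgebra, with a basis of eigenvectors. -/
structure Ell2 (B : L →ₗ[ℂ] L →ₗ[ℂ] ℂ) (e f : σ → L) (u u' : ν → L) (q q' : χ → L) (H : L)
    (lam : σ → ℝ) : Prop extends Ell B e f (Sum.elim u q) (Sum.elim u' q') u u' where
  uq : ∀ a c, ⁅u a, q c⁆ = 0
  pos : ∀ a, 0 < lam a
  He : ∀ a, ⁅H, e a⁆ = ((- lam a : ℝ) : ℂ) • e a
  Hf : ∀ a, ⁅H, f a⁆ = (lam a : ℂ) • f a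
  Hy : ∀ j, ⁅H, Sum.elim u q j⁆ = 0

/-- The full basis. -/
abbrev full (e f : σ → L) (u : ν → L) (q : χ → L) : σ ⊕ σ ⊕ ν ⊕ χ → L :=
  Sum.elim e (Sum.elim f (Sum.elim u q))

/-- The weights. -/
def wt (ν χ : Type*) (lam : σ → ℝ) (s : ℝ) : σ ⊕ σ ⊕ ν ⊕ χ → ℝ :=
  Sum.elim 0 (Sum.elim (fun a => 1 + s * lam a) (Sum.elim 0 1))

variable {H : L} {lam : σ → ℝ}

lemma Par2.full_dual (hP : Par2 B e f y y') (hB : HForm B) :
    Dual B (Sum.elim e (Sum.elim f y)) (Sum.elim f (Sum.elim e y')) := by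
  have h1 := fun a j => form_zero hP.bey (mem_Sp a) (hP.ys j)
  have h2 := fun a j => form_zero (hP.swap hB).bey (mem_Sp a) (hP.ys j)
  rintro (a | a | a) (b | b | b) <;>
    simp [hP.de _ _, (hP.swap hB).de _ _, hP.dy _ _, hP.bee, (hP.swap hB).bee, hP.bey,
      (hP.swap hB).bey, hB.symm (y' _) (e _), hB.symm (y' _) (f _), h1, h2]

lemma Par.full_pr (hP : Par B e f y y') (x : L) :
    pr B (Sum.elim e (Sum.elim f y)) (Sum.elim f (Sum.elim e y')) x = x := by
  simpa [pr_apply, add_assoc] using hP.exp x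

lemma Ell2.Hl (hP : Ell2 B e f u u' q q' H lam) {x : L} (hx : x ∈ Sp (Sum.elim u q)) :
    ⁅H, x⁆ = ((0 : ℝ) : ℂ) • x := by
  rw [Complex.ofReal_zero, zero_smul]
  exact (Submodule.span_le (p := LinearMap.ker (LieAlgebra.ad ℂ L H))).2
    (by rintro _ ⟨j, rfl⟩; exact hP.Hy j) hx

lemma SRep.N_T (h : SRep B ε i ρ) (hB : HForm B) (hP : Ell2 B e f u u' q q' H lam) (s : ℝ) {x : L}
    (hx : x ∈ Sp (Sum.elim u q)) :
    Commute (NN ε i (full e f u q) (full f e u' q') (wt ν χ lam s)) (TT ε i ρ e f x) := by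
  have hd := hP.full_dual hB
  refine ((h.NN_rho _ _).add_right (commute_th (fun a => ?_) fun a => ?_)).add_right ?_
  · exact (h.hom_eps hd hB.symm _ (Sum.inl a)).comm rfl
  · exact comm_i_span (fun b => (h.hom_i hd _ (Sum.inl b)).comm neg_zero) (hP.le hx a)
  · refine (Commute.sum_right _ _ _ fun a _ => ?_).neg_right
    rw [← (hP.swap hB).de.pr_eq ((hP.swap hB).le hx a), pr_apply, map_sum, mul_sum]
    refine Commute.sum_right _ _ _ fun b _ => ?_
    by_cases hc : B (e b) ⁅x, f a⁆ = 0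
    · simp [hc]
    have h1 := selection hB (hP.Hl hx) (hP.Hf a) (hP.He b) hc
    rw [map_smul, mul_smul_comm]
    refine (((h.hom_eps hd hB.symm _ (Sum.inr (Sum.inl a))).mul
      (h.hom_i hd _ (Sum.inr (Sum.inl b)))).comm ?_).smul_right _
    have : lam a = lam b := by linarith
    simp [wt, this]

lemma SRep.N_dn (h : SRep B ε i ρ) (hB : HForm B) (hP : Ell2 B e f u u' q q' H lam) (s : ℝ) :
    Commute (NN ε i (full e f u q) (full f e u' q') (wt ν χ lam s)) (dCE ε i ρ e f) := by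
  have hd := hP.full_dual hB
  exact commute_dCE (fun a => (h.hom_eps hd hB.symm _ (Sum.inl a)).comm rfl)
    (fun a b => comm_i_span (fun b => (h.hom_i hd _ (Sum.inl b)).comm neg_zero) (hP.ee a b))
    fun a => h.NN_rho _ _

lemma SRep.N_d0 (h : SRep B ε i ρ) (hB : HForm B) (hP : Ell2 B e f u u' q q' H lam) (s : ℝ) :
    Commute (NN ε i (full e f u q) (full f e u' q') (wt ν χ lam s)) (d0 ε i ρ e f u u') := by
  have hd := hP.full_dual hB
  exact (h.N_dn hB hP s).add_right (commute_dCE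
    (fun a => (h.hom_eps hd hB.symm _ (Sum.inr (Sum.inr (Sum.inl a)))).comm rfl)
    (fun a b => comm_i_span (fun b => (h.hom_i hd _ (Sum.inr (Sum.inr (Sum.inl b)))).comm neg_zero)
      (hP.lie_u (hP.ul a) b)) fun a => h.N_T hB hP s (hP.ul a))

lemma Par.full_star (hP : Par B e f y y') (k : σ ⊕ σ ⊕ τ) :
    star (Sum.elim e (Sum.elim f y) k) = Sum.elim f (Sum.elim e y') k := by
  rcases k with a | a | a
  exacts [hP.sf a, hP.sf' a, hP.sy a]

lemma SRep.N_del (h : SRep B ε i ρ) (hB : HForm B) (hP : Ell2 B e f u u' q q' H lam) (s : ℝ)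
    (K : ℂ) :
    Commute (NN ε i (full e f u q) (full f e u' q') (wt ν χ lam s)) (del ε i ρ e f u u' K) := by
  have hd := hP.full_dual hB
  have h1 := (h.N_dn hB hP s).star_star
  rw [h.star_NN hP.full_star] at h1
  exact h1.add_right ((Commute.sum_right _ _ _ fun a _ => (h.N_T hB hP s (hP.ul' a)).mul_right
    ((h.hom_i hd _ (Sum.inr (Sum.inr (Sum.inl a)))).comm neg_zero)).neg_right.smul_right _)

lemma SRep.d_sub (h : SRep B ε i ρ) (hP : Ell2 B e f u u' q q' H lam) :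
    dCE ε i ρ (full e f u q) (full f e u' q') - d0 ε i ρ e f u u'
      = ∑ a, ε (e a) * ρ (f a) + ∑ a, ε (q' a) * ρ (q a)
        - ((2 : ℂ)⁻¹ • t2 ε i f e f e + (2 : ℂ)⁻¹ • t2 ε i q q' q q' + t2 ε i e f f e
          + t2 ε i e f q q' + t2 ε i f e q q') := by
  have h1 : t2 ε i (full e f u q) (full f e u' q') (full e f u q) (full f e u' q')
      = t2 ε i e f e f + t2 ε i e f f e + t2 ε i e f u u' + t2 ε i e f q q'
        + (t2 ε i f e e f + t2 ε i f e f e + t2 ε i f e u u' + t2 ε i f e q q')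
        + (t2 ε i u u' e f + t2 ε i u u' f e + t2 ε i u u' u u' + t2 ε i u u' q q')
        + (t2 ε i q q' e f + t2 ε i q q' f e + t2 ε i q q' u u' + t2 ε i q q' q q') := by
    simp only [t2, Fintype.sum_sum_type, Sum.elim_inl, Sum.elim_inr, sum_add_distrib]
    abel
  have h2 : t2 ε i u u' q q' = 0 := by simp [t2, hP.uq]
  rw [h.t2_symm (e := f) (y := e), h.t2_symm (e := e) (y := u), h.t2_symm (e := f) (y := u),
    h.t2_symm (e := q) (f := q') (y := e), h.t2_symm (e := q) (f := q') (y := f),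
    h.t2_symm (e := q) (y := u), h2] at h1
  simp only [d0, dCE, h1, TT_apply, mul_add, sum_add_distrib, t2_th, Fintype.sum_sum_type,
    Sum.elim_inl, Sum.elim_inr]
  module

lemma SRep.d_sub_mem (h : SRep B ε i ρ) (hB : HForm B) (hP : Ell2 B e f u u' q q' H lam) {s : ℝ}
    (hs : 0 ≤ s) (U : Submodule ℂ R)
    (hU : ∀ P r, Hom (NN ε i (full e f u q) (full f e u' q') (wt ν χ lam s)) r P → 0 ≤ r →
      (0 < s → 0 < r) → P ∈ U) :
    dCE ε i ρ (full e f u q) (full f e u' q') - d0 ε i ρ e f u u' ∈ U := by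
  have hd := hP.full_dual hB
  let Λ : σ ⊕ σ ⊕ ν ⊕ χ → ℝ := Sum.elim (fun a => - lam a) (Sum.elim lam 0)
  have hΛ : ∀ k, ⁅H, full e f u q k⁆ = (Λ k : ℂ) • full e f u q k := by
    rintro (a | a | a)
    exacts [hP.He a, hP.Hf a, hP.Hl (mem_Sp a)]
  have hΛ' : ∀ k, ⁅H, full f e u' q' k⁆ = ((- Λ k : ℝ) : ℂ) • full f e u' q' k := by
    rintro (a | a | a)
    · simpa [Λ] using hP.Hf a
    · exact hP.He a
    · simpa [Λ] using hP.Hl (hP.ys a)
  have hw : ∀ c, (Λ c < 0 ∧ wt ν χ lam s c = 0) ∨ (0 ≤ Λ c ∧ wt ν χ lam s c ≤ 1 + s * Λ c) := by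
    rintro (a | a | a | a)
    · exact Or.inl ⟨neg_lt_zero.2 (hP.pos a), rfl⟩
    · exact Or.inr ⟨(hP.pos a).le, le_rfl⟩
    · simp [wt, Λ]
    · simp [wt, Λ]
  have key : ∀ a b, (∀ c, Λ c = Λ a + Λ b → 0 ≤ wt ν χ lam s a + wt ν χ lam s b - wt ν χ lam s c
      ∧ (0 < s → 0 < wt ν χ lam s a + wt ν χ lam s b - wt ν χ lam s c)) →
      ε (full f e u' q' a) * ε (full f e u' q' b) * i ⁅full e f u q a, full e f u q b⁆ ∈ U := by
    intro a b hab
    rw [← hP.full_pr ⁅full e f u q a, full e f u q b⁆, pr_apply, map_sum, mul_sum]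
    refine Submodule.sum_mem _ fun c _ => ?_
    by_cases hc : B (full f e u' q' c) ⁅full e f u q a, full e f u q b⁆ = 0
    · rw [hc, zero_smul, map_zero, mul_zero]
      exact U.zero_mem
    have h1 := hab c (by linarith [selection hB (hΛ a) (hΛ b) (hΛ' c) hc])
    rw [map_smul, mul_smul_comm]
    exact U.smul_mem _ (hU _ _ (((h.hom_eps hd hB.symm _ a).mul (h.hom_eps hd hB.symm _ b)).mul
      (h.hom_i hd _ c)) h1.1 h1.2)
  rw [h.d_sub hP]
  refine U.sub_mem (U.add_mem (U.sum_mem fun a _ => ?_) (U.sum_mem fun a _ => ?_))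
    (U.add_mem (U.add_mem (U.add_mem (U.add_mem (U.smul_mem _ ?_) (U.smul_mem _ ?_)) ?_) ?_) ?_)
  · have := mul_nonneg hs (hP.pos a).le
    refine hU _ _ ((h.hom_eps hd hB.symm _ (Sum.inr (Sum.inl a))).mul
      (Hom.of_comm (h.NN_rho _ _))) ?_ fun _ => ?_ <;> simp only [wt, Sum.elim_inl, Sum.elim_inr] <;>
      linarith
  · exact hU _ _ ((h.hom_eps hd hB.symm _ (Sum.inr (Sum.inr (Sum.inr a)))).mul
      (Hom.of_comm (h.NN_rho _ _))) (by simp [wt]) fun _ => by simp [wt]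
  all_goals refine U.sum_mem fun a _ => U.sum_mem fun b _ => ?_
  · refine key (Sum.inr (Sum.inl a)) (Sum.inr (Sum.inl b)) fun c hc => ?_
    have := hP.pos a
    have := hP.pos b
    simp only [Λ, Sum.elim_inl, Sum.elim_inr] at hc
    rcases hw c with h1 | h1 <;> simp only [wt, Sum.elim_inl, Sum.elim_inr] at h1 ⊢ <;>
      constructor <;> intros <;> nlinarith [h1.1, h1.2]
  · refine key (Sum.inr (Sum.inr (Sum.inr a))) (Sum.inr (Sum.inr (Sum.inr b))) fun c hc => ?_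
    simp only [Λ, Sum.elim_inl, Sum.elim_inr, Pi.zero_apply] at hc
    rcases hw c with h1 | h1 <;>
      simp only [wt, Sum.elim_inl, Sum.elim_inr, Pi.one_apply] at h1 ⊢ <;>
      constructor <;> intros <;> nlinarith [h1.1, h1.2]
  · refine key (Sum.inl a) (Sum.inr (Sum.inl b)) fun c hc => ?_
    have := hP.pos a
    have := hP.pos b
    simp only [Λ, Sum.elim_inl, Sum.elim_inr] at hc
    rcases hw c with h1 | h1 <;>
      simp only [wt, Sum.elim_inl, Sum.elim_inr, Pi.zero_apply] at h1 ⊢ <;>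
      constructor <;> intros <;> nlinarith [h1.1, h1.2]
  · refine key (Sum.inl a) (Sum.inr (Sum.inr (Sum.inr b))) fun c hc => ?_
    have := hP.pos a
    simp only [Λ, Sum.elim_inl, Sum.elim_inr, Pi.zero_apply] at hc
    rcases hw c with h1 | h1 <;>
      simp only [wt, Sum.elim_inl, Sum.elim_inr, Pi.zero_apply, Pi.one_apply] at h1 ⊢ <;>
      constructor <;> intros <;> nlinarith [h1.1, h1.2]
  · refine key (Sum.inr (Sum.inl a)) (Sum.inr (Sum.inr (Sum.inr b))) fun c hc => ?_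
    have := hP.pos a
    simp only [Λ, Sum.elim_inl, Sum.elim_inr, Pi.zero_apply] at hc
    rcases hw c with h1 | h1 <;>
      simp only [wt, Sum.elim_inl, Sum.elim_inr, Pi.zero_apply, Pi.one_apply] at h1 ⊢ <;>
      constructor <;> intros <;> nlinarith [h1.1, h1.2]

end Pool.Agent.MP_f244e7_gt
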