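import Pool.Agent.MP_f244e7_gt.Alg6

/-! Exactness of the graded complex, and the principal part of its Laplacian. -/

set_option linter.unusedSectionVars false

namespace Pool.Agent.MP_f244e7_gt

open Finset

variable {L : Type*} [LieRing L] [LieAlgebra ℂ L] [StarAddMonoid L] [StarModule ℂ L]
  {R : Type*} [Ring R] [Algebra ℂ R] [StarRing R] [StarModule ℂ R]
  {B : L →ₗ[ℂ] L →ₗ[ℂ] ℂ} {ε i ρ : L →ₗ[ℂ] R}
  {σ : Type*} [Fintype σ] [DecidableEq σ] {e f : σ → L}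
  {τ : Type*} [Fintype τ] [DecidableEq τ] {y y' : τ → L}
  {ν : Type*} [Fintype ν] [DecidableEq ν] {u u' : ν → L}
  {χ : Type*} [Fintype χ] [DecidableEq χ] {q q' : χ → L}
  {H : L} {lam : σ → ℝ}

lemma CAR.NN_top {M : Type*} [AddCommGroup M] [Module ℂ M] (π : R →ₐ[ℂ] Module.End ℂ M)
    (h : CAR B ε i) (hd : Dual B e f) (w : σ → ℝ) :
    ∃ C, ∀ x, x ∈ Fil (π (NN ε i e f w)) (Set.Icc (-C) C) := by
  have := Fil_top (fun k => π (ε (f k) * i (e k))) w
    (fun k => by rw [← map_mul, h.num_sq hd]) (fun k l => (h.num_comm hd k l).map π) univ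
  simpa only [NN, map_sum, map_smul] using this

lemma Hom.up {M : Type*} [AddCommGroup M] [Module ℂ M] (π : R →ₐ[ℂ] Module.End ℂ M) {N P : R}
    {s : ℝ} (h : Hom N s P) : π P ∈ Up (π N) s :=
  Up.of_hom (by rw [← map_mul, h, map_add, map_mul, map_smul])

theorem SRep.exact {M : Type*} [AddCommGroup M] [Module ℂ M] (π : R →ₐ[ℂ] Module.End ℂ M)
    (h : SRep B ε i ρ) (hB : HForm B) (hP : Ell2 B e f u u' q q' H lam) (K : ℂ)
    (hD : Function.Bijective (π (lap (dCE ε i ρ e f)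
      - K • ∑ a, TT ε i ρ e f (u' a) * TT ε i ρ e f (u a)))) {p : ℝ} {x : M}
    (hx : x ∈ Fil (π (NN ε i (full e f u q) (full f e u' q') (wt ν χ lam 0))) (Set.Ici p))
    (hdx : π (dCE ε i ρ (full e f u q) (full f e u' q')) x
      ∈ Fil (π (NN ε i (full e f u q) (full f e u' q') (wt ν χ lam 0))) (Set.Ici (p + 1))) :
    ∃ θ ∈ Fil (π (NN ε i (full e f u q) (full f e u' q') (wt ν χ lam 0))) (Set.Ici p),
      x - π (dCE ε i ρ (full e f u q) (full f e u' q')) θ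
        ∈ Fil (π (NN ε i (full e f u q) (full f e u' q') (wt ν χ lam 0))) (Set.Ici (p + 1)) := by
  have hd := hP.full_dual hB
  obtain ⟨C, hC⟩ := h.NN_top π hd (wt ν χ lam 1)
  have hall : ∀ x, x ∈ Sp (full e f u q) := fun x => hP.full_pr x ▸ pr_mem x
  rw [← h.D0_eq hB hP.toEll, map_add, map_mul, map_mul] at hD
  refine filtered_exact ?_ hD ((h.N_d0 hB hP 0).map π) ((h.N_del hB hP 0 K).map π)
    ((h.N_d0 hB hP 1).map π) ((h.N_del hB hP 1 K).map π) ?_ ?_ hC hx hdx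
  · rw [← map_mul, h.d_sq hd (fun _ _ => hall _) ρ (fun _ _ => h.ce _ _) (fun _ _ _ => h.ci _ _)
      fun _ _ => h.lie _ _, map_zero]
  · rw [← map_sub]
    exact h.d_sub_mem hB hP le_rfl ((Up _ 0).comap π.toLinearMap)
      fun P r hr h0 _ => Up.mono (hr.up π) h0
  · rw [← map_sub]
    exact h.d_sub_mem hB hP zero_le_one ((Raise _).comap π.toLinearMap)
      fun P r hr _ h0 => ⟨r, h0 one_pos, hr.up π⟩

/-- Operators of order at most one. -/
def O1 (A : Subalgebra ℂ R) (ρ : L →ₗ[ℂ] R) : Submodule ℂ R :=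
  Submodule.span ℂ {P | ∃ a ∈ A, P = a ∨ ∃ x, P = a * ρ x}

lemma O1.zero {A : Subalgebra ℂ R} {a : R} (ha : a ∈ A) : a ∈ O1 A ρ :=
  Submodule.subset_span ⟨a, ha, Or.inl rfl⟩

lemma O1.one {A : Subalgebra ℂ R} {a : R} (ha : a ∈ A) (x : L) : a * ρ x ∈ O1 A ρ :=
  Submodule.subset_span ⟨a, ha, Or.inr ⟨x, rfl⟩⟩

lemma SRep.sq_mem (h : SRep B ε i ρ) (A : Subalgebra ℂ R) {x a b : L} (ha : star a = a)
    (hb : star b = b) (hx : x = a + Complex.I • b) :
    ρ a * ρ a + ρ b * ρ b - ρ (star x) * ρ x ∈ O1 A ρ := by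
  have h1 : ρ a * ρ a + ρ b * ρ b - ρ (star x) * ρ x = (- Complex.I) • (1 * ρ ⁅a, b⁆) := by
    rw [hx, star_add, star_smul, ha, hb, ← h.lie]
    simp only [map_add, map_smul, mul_add, add_mul, smul_mul_assoc, mul_smul_comm, smul_smul,
      Complex.star_def, Complex.conj_I, one_mul, smul_add, neg_mul, mul_neg, Complex.I_mul_I]
    module
  rw [h1]
  exact Submodule.smul_mem _ _ (O1.one A.one_mem _)

lemma SRep.principal (h : SRep B ε i ρ) (hB : HForm B) (hP : Ell B e f y y' u u')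
    (A : Subalgebra ℂ R) (hε : ∀ x, ε x ∈ A) (hi : ∀ x, i x ∈ A) (hs : ∀ a ∈ A, star a ∈ A)
    (re im : L → L) (h1 : ∀ x, star (re x) = re x) (h2 : ∀ x, star (im x) = im x)
    (h3 : ∀ x, x = re x + Complex.I • im x) (k : ℂ) (z : σ ⊕ σ ⊕ ν ⊕ ν → L)
    (hz : z = Sum.elim (fun a => re (e a)) (Sum.elim (fun a => im (e a))
      (Sum.elim (fun a => k • re (u a)) (fun a => k • im (u a))))) :
    lap (dCE ε i ρ e f) - (k ^ 2) • ∑ a, TT ε i ρ e f (u' a) * TT ε i ρ e f (u a)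
      + ∑ j, ρ (z j) * ρ (z j) ∈ O1 A ρ := by
  have hth : ∀ (e f : σ → L) x, th ε i e f x ∈ A := fun e f x =>
    A.neg_mem (A.sum_mem fun _ _ => A.mul_mem (hε _) (hi _))
  have hd : dCE ε i 0 e f ∈ A :=
    A.sub_mem (by simp) (A.smul_mem (A.sum_mem fun _ _ => A.sum_mem fun _ _ =>
      A.mul_mem (A.mul_mem (hε _) (hε _)) (hi _)) _)
  set θ := fun x => th ε i e f x + th ε i f e x with hθ
  have hθA : ∀ x, θ x ∈ A := fun x => A.add_mem (hth _ _ _) (hth _ _ _)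
  have h4 : ∀ a, TT ε i ρ e f (u' a) * TT ε i ρ e f (u a) = ρ (u' a) * ρ (u a)
      + (θ (u a) * ρ (u' a) + θ (u' a) * ρ (u a) + θ (u' a) * θ (u a)) := by
    intro a
    rw [← ((h.comm_th _ _).add_right (h.comm_th _ _)).eq]
    simp only [TT_apply, hθ]
    noncomm_ring
  have h5 : lap (dCE ε i ρ e f) - (k ^ 2) • ∑ a, TT ε i ρ e f (u' a) * TT ε i ρ e f (u a)
      + ∑ j, ρ (z j) * ρ (z j)
      = ∑ a, (ρ (re (e a)) * ρ (re (e a)) + ρ (im (e a)) * ρ (im (e a))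
          - ρ (star (e a)) * ρ (e a))
        + (k ^ 2) • ∑ a, (ρ (re (u a)) * ρ (re (u a)) + ρ (im (u a)) * ρ (im (u a))
          - ρ (star (u a)) * ρ (u a))
        + ∑ j, th ε i e f (y' j) * ρ (y j) + lap (dCE ε i 0 e f)
        - (k ^ 2) • ∑ a, (θ (u a) * ρ (u' a) + θ (u' a) * ρ (u a) + θ (u' a) * θ (u a)) := by
    simp only [h.kostant hB hP.toPar, h4, hz, Fintype.sum_sum_type, Sum.elim_inl, Sum.elim_inr,
      map_smul, smul_mul_assoc, mul_smul_comm, ← smul_sum, hP.sf, hP.su, sum_add_distrib,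
      sum_sub_distrib]
    module
  rw [h5]
  refine Submodule.sub_mem _ (Submodule.add_mem _ (Submodule.add_mem _ (Submodule.add_mem _
    (Submodule.sum_mem _ fun a _ => h.sq_mem A (h1 _) (h2 _) (h3 _))
    (Submodule.smul_mem _ _ (Submodule.sum_mem _ fun a _ => h.sq_mem A (h1 _) (h2 _) (h3 _))))
    (Submodule.sum_mem _ fun j _ => O1.one (hth _ _ _) _))
    (O1.zero (A.add_mem (A.mul_mem hd (hs _ hd)) (A.mul_mem (hs _ hd) hd))))
    (Submodule.smul_mem _ _ (Submodule.sum_mem _ fun a _ => Submodule.add_mem _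
      (Submodule.add_mem _ (O1.one (hθA _) _) (O1.one (hθA _) _))
      (O1.zero (A.mul_mem (hθA _) (hθA _)))))

lemma O1.exists_form {A : Subalgebra ℂ R} {ι : Type*} [Fintype ι] (z : ι → L)
    (hz : ∀ x, x ∈ Sp z) {P : R} (hP : P ∈ O1 A ρ) :
    ∃ a : ι → R, (∀ j, a j ∈ A) ∧ ∃ n ∈ A, P = ∑ j, a j * ρ (z j) + n := by
  induction hP using Submodule.span_induction with
  | mem P hP =>
    obtain ⟨a, ha, rfl | ⟨x, rfl⟩⟩ := hP
    · exact ⟨0, fun _ => A.zero_mem, P, ha, by simp⟩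
    · obtain ⟨c, rfl⟩ := (Submodule.mem_span_range_iff_exists_fun ℂ).1 (hz x)
      exact ⟨fun j => c j • a, fun j => A.smul_mem ha _, 0, A.zero_mem, by simp [mul_sum]⟩
  | zero => exact ⟨0, fun _ => A.zero_mem, 0, A.zero_mem, by simp⟩
  | add P Q _ _ h1 h2 =>
    obtain ⟨a, ha, n, hn, rfl⟩ := h1
    obtain ⟨a', ha', n', hn', rfl⟩ := h2
    refine ⟨a + a', fun j => A.add_mem (ha j) (ha' j), n + n', A.add_mem hn hn', ?_⟩
    simp only [Pi.add_apply, add_mul, sum_add_distrib]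
    abel
  | smul c P _ h1 =>
    obtain ⟨a, ha, n, hn, rfl⟩ := h1
    exact ⟨c • a, fun j => A.smul_mem (ha j) _, c • n, A.smul_mem hn _, by simp [smul_sum]⟩

end Pool.Agent.MP_f244e7_gt
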