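import Mathlib.Analysis.InnerProductSpace.Basic
import Mathlib.Analysis.CStarAlgebra.Classes
import Mathlib.Geometry.Manifold.GroupLieAlgebra

/-! Elliptic structures on Lie groups, in the left trivialisation. -/

namespace Pool.Agent.MP_f244e7_gt

open scoped Manifold ContDiff TensorProduct

/-- Complex conjugation of the complexification of a real vector space. -/
noncomputable def conjC (g : Type*) [AddCommGroup g] [Module ℝ g] :
    ℂ ⊗[ℝ] g →ₗ[ℝ] ℂ ⊗[ℝ] g :=
  LinearMap.rTensor g Complex.conjAe.toLinearMap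

/-- `v + conj v` is the whole complexification. -/
def IsElliptic {g : Type*} [AddCommGroup g] [Module ℝ g] (v : Set (ℂ ⊗[ℝ] g)) : Prop :=
  ∀ z : ℂ ⊗[ℝ] g, ∃ a ∈ v, ∃ b ∈ v, z = a + conjC g b

/-- The `k`-covector `φ` lies in the ideal generated by the `p`-th exterior power of the
annihilator of `v`: it vanishes as soon as `k - p + 1` of its arguments lie in `v`. -/
def InFilt {L : Type*} (v : Set L) (p : ℕ) {k : ℕ} (φ : (Fin k → L) → ℂ) : Prop :=
  ∀ (X : Fin k → L) (S : Finset (Fin k)), k < p + S.card → (∀ i ∈ S, X i ∈ v) → φ X = 0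

/-- The invariant formula for the exterior derivative, evaluated on left-invariant vector fields;
`D f x z` is the derivative at `x` of the function `f` along the left-invariant field `z`. -/
noncomputable def extD {G L : Type*} [LieRing L] (D : (G → ℂ) → G → L → ℂ) {k : ℕ}
    (α : G → (Fin k → L) → ℂ) (x : G) (X : Fin (k + 1) → L) : ℂ :=
  ∑ i : Fin (k + 1), (-1) ^ (i : ℕ) * (D (fun y => α y (i.removeNth X)) x (X i)
    - ∑ j : Fin (k + 1), if i < j then α x (i.removeNth (Function.update X j ⁅X i, X j⁆)) else 0)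

section
variable (E : Type*) [NormedAddCommGroup E] [NormedSpace ℝ E]
  {G : Type*} [Group G] [TopologicalSpace G] [ChartedSpace E G]

/-- The derivative at `x` of `f` along the complex left-invariant vector field given by `z`. -/
noncomputable def leftDeriv (f : G → ℂ) (x : G) (z : ℂ ⊗[ℝ] GroupLieAlgebra 𝓘(ℝ, E) G) : ℂ :=
  LinearMap.liftBaseChange ℂ (mvfderiv 𝓘(ℝ, E) (fun y => f (x * y)) 1).toLinearMap z

/-- A form, given by its values on left-invariant vector fields, is smooth. -/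
def IsSmoothForm {L : Type*} {k : ℕ} (α : G → (Fin k → L) → ℂ) : Prop :=
  ∀ X : Fin k → L, ContMDiff 𝓘(ℝ, E) 𝓘(ℝ, ℂ) ∞ fun x => α x X

/-- The `k`-form `φ` is, modulo the `(p+1)`-st step of the filtration, the exterior derivative of
a smooth `(k-1)`-form in the `p`-th step of the filtration (for `k = 0` there are no such forms
but zero). -/
def IsExactMod {L : Type*} [LieRing L] [LieAlgebra ℂ L] (D : (G → ℂ) → G → L → ℂ) (v : Set L)
    (p : ℕ) : {k : ℕ} → (G → (Fin k → L) → ℂ) → Prop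
  | 0, φ => ∀ x, InFilt v (p + 1) (φ x)
  | k + 1, φ => ∃ θ : G → L [⋀^Fin k]→ₗ[ℂ] ℂ, IsSmoothForm E (fun x => ⇑(θ x)) ∧
      (∀ x, InFilt v p (θ x)) ∧
      ∀ x, InFilt v (p + 1) (φ x - extD D (fun y => ⇑(θ y)) x)

/-- Every class in bidegree `(p, q)` of the complex associated with `v` has a left-invariant
representative. -/
def HasInvariantReps (G : Type*) [TopologicalSpace G] [ChartedSpace E G]
    {L : Type*} [LieRing L] [LieAlgebra ℂ L] (D : (G → ℂ) → G → L → ℂ) (v : Set L)
    (p q : ℕ) : Prop :=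
  ∀ α : G → L [⋀^Fin (p + q)]→ₗ[ℂ] ℂ, IsSmoothForm E (fun x => ⇑(α x)) →
    (∀ x, InFilt v p (α x)) → (∀ x, InFilt v (p + 1) (extD D (fun y => ⇑(α y)) x)) →
    ∃ η : L [⋀^Fin (p + q)]→ₗ[ℂ] ℂ, InFilt v p η ∧
      (∀ x, InFilt v (p + 1) (extD D (fun _ => ⇑η) x)) ∧
      IsExactMod E D v p (fun x => ⇑(α x) - ⇑η)

end

end Pool.Agent.MP_f244e7_gt
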