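import Mathlib.Analysis.CStarAlgebra.ContinuousLinearMap
import Mathlib.Analysis.CStarAlgebra.Matrix
import Mathlib.Analysis.InnerProductSpace.Spectrum
import Pool.Agent.MP_f244e7_gt.Alg6
import Pool.Agent.MP_f244e7_gt.Alg7

-- ======== part 0: formerly Pool.Agent.MP_f244e7_gt.Struct
section MrgPart0

/-! The structure of elliptic subalgebras of a compact Lie algebra. -/

set_option linter.unusedSectionVars false

namespace Pool.Agent.MP_f244e7_gt

open Finset

variable {L : Type*} [LieRing L] [LieAlgebra ℂ L] [StarAddMonoid L] [StarModule ℂ L]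
  [FiniteDimensional ℂ L] {B : L →ₗ[ℂ] L →ₗ[ℂ] ℂ}

lemma HForm.conj' (hB : HForm B) (x z : L) : star (B (star x) z) = B (star z) x := by
  rw [← hB.conj, star_star, hB.symm]

lemma exists_eigenfamily (hB : HForm B) (hpos : ∀ x, x ≠ 0 → 0 < (B (star x) x).re)
    (U : Submodule ℂ L) (A : L →ₗ[ℂ] L) (hA : ∀ x ∈ U, A x ∈ U)
    (hs : ∀ x z, B (star (A x)) z = B (star x) (A z)) :
    ∃ (n : ℕ) (g : Fin n → L) (m : Fin n → ℝ), Dual B g (fun k => star (g k)) ∧ Sp g = U ∧
      ∀ k, A (g k) = (m k : ℂ) • g k := by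
  let c : InnerProductSpace.Core ℂ L :=
    { inner := fun x z => B (star x) z
      conj_inner_symm := fun x z => hB.conj' z x
      re_inner_nonneg := fun x => by
        by_cases hx : x = 0
        · simp [hx]
        · exact (hpos x hx).le
      add_left := fun x y z => by simp
      smul_left := fun x y r => by simp
      definite := fun x hx => by
        by_contra h
        have := hpos x h
        rw [hx] at this
        simp at this }
  letI : NormedAddCommGroup L := c.toNormedAddCommGroup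
  letI : InnerProductSpace ℂ L := InnerProductSpace.ofCore c.toCore
  have h1 : A.IsSymmetric := hs
  have h2 := h1.restrict_invariant hA
  let b := h2.eigenvectorBasis rfl
  refine ⟨_, fun k => b k, h2.eigenvalues rfl, fun k l => ?_, ?_, fun k => ?_⟩
  · exact orthonormal_iff_ite.1 b.orthonormal k l
  · have := congrArg (Submodule.map U.subtype) b.toBasis.span_eq
    rw [Submodule.map_span, Submodule.map_top, Submodule.range_subtype, ← Set.range_comp] at this
    exact this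
  · exact congrArg Subtype.val (h2.apply_eigenvectorBasis rfl k)

lemma form_pr {κ : Type*} [Fintype κ] [DecidableEq κ] {a : κ → L}
    (hd : Dual B a fun k => star (a k)) (c : κ → ℂ) :
    B (star (∑ l, c l • a l)) (∑ l, c l • a l) = ∑ l, star (c l) * c l := by
  have hd' : ∀ k l, B (star (a k)) (a l) = if k = l then 1 else 0 := hd
  simp [star_sum, LinearMap.sum_apply, hd', mul_comm]

lemma trace_form (hB : HForm B) {κ : Type*} [Fintype κ] [DecidableEq κ] {a : κ → L}
    (hd : Dual B a fun k => star (a k)) {x : L} (hx : ∀ k, ⁅x, a k⁆ ∈ Sp a) :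
    B (star x) ⁅∑ k, ⁅a k, star (a k)⁆, x⁆
      = - ∑ k, B (star (⁅star x, a k⁆ - pr B a (fun k => star (a k)) ⁅star x, a k⁆))
        (⁅star x, a k⁆ - pr B a (fun k => star (a k)) ⁅star x, a k⁆) := by
  set P := pr B a fun k => star (a k) with hP
  have h1 : ∀ z, B (star (z - P z)) (z - P z) = B (star z) z - B (star (P z)) (P z) := by
    intro z
    have h2 : B (star (P z)) (P z) = ∑ l, star (B (star (a l)) z) * B (star (a l)) z := by
      rw [hP, pr_apply, form_pr hd]
    have h3 : B (star z) (P z) = ∑ l, star (B (star (a l)) z) * B (star (a l)) z := by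
      simp only [hP, pr_apply, map_sum, map_smul, hB.conj', smul_eq_mul, mul_comm]
    have h4 : B (star (P z)) z = ∑ l, star (B (star (a l)) z) * B (star (a l)) z := by
      simp only [hP, pr_apply, star_sum, star_smul, map_sum, map_smul, smul_eq_mul,
        LinearMap.sum_apply, LinearMap.smul_apply]
    simp only [star_sub, map_sub, LinearMap.sub_apply, h2, h3, h4]
    ring
  have h2 : ∑ k, B (star (P ⁅star x, a k⁆)) (P ⁅star x, a k⁆)
      = ∑ k, B (star ⁅x, a k⁆) ⁅x, a k⁆ := by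
    have h3 : ∀ k, B (star ⁅x, a k⁆) ⁅x, a k⁆
        = ∑ l, star (B (star (a l)) ⁅x, a k⁆) * B (star (a l)) ⁅x, a k⁆ := by
      intro k
      conv_lhs => rw [← hd.pr_eq (hx k), pr_apply, form_pr hd]
    simp only [hP, pr_apply, form_pr hd, h3]
    rw [sum_comm]
    refine sum_congr rfl fun k _ => sum_congr rfl fun l _ => ?_
    have h4 : B (star (a k)) ⁅star x, a l⁆ = - star (B (star (a l)) ⁅x, a k⁆) := by
      rw [← hB.conj, star_star, hB.star_lie, hB.skew]
    rw [h4]
    simp [mul_comm]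
  simp only [h1, sum_sub_distrib, h2, sum_lie, map_sum, neg_sub]
  rw [← sum_sub_distrib]
  refine sum_congr rfl fun k _ => ?_
  rw [hB.star_lie, hB.star_lie, star_star, hB.symm, hB.inv, hB.inv, leibniz_lie, map_add,
    ← lie_skew ⁅star (a k), x⁆, map_neg, ← hB.inv (a k) (star x), ← hB.inv (a k) x,
    ← lie_skew (a k) x, ← lie_skew (a k) (star x), ← lie_skew (star (a k)) x,
    ← lie_skew (star (a k)) (star x), hB.symm ⁅star x, star (a k)⁆, hB.symm ⁅x, star (a k)⁆]
  simp only [map_neg, LinearMap.neg_apply]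
  ring

lemma eig_orth (hB : HForm B) {H a b : L} {α β : ℝ} (ha : ⁅H, a⁆ = (α : ℂ) • a)
    (hb : ⁅H, b⁆ = (β : ℂ) • b) (h : α + β ≠ 0) : B a b = 0 := by
  have h1 := hB.skew H a b
  rw [ha, hb, hB.symm b, map_smul, map_smul, LinearMap.smul_apply] at h1
  have h2 : ((α + β : ℝ) : ℂ) * B a b = 0 := by
    push_cast
    simp only [smul_eq_mul] at h1
    linear_combination h1
  exact (mul_eq_zero.1 h2).resolve_left (by exact_mod_cast h)

lemma eig_lie {H a b : L} {α β : ℝ} (ha : ⁅H, a⁆ = (α : ℂ) • a) (hb : ⁅H, b⁆ = (β : ℂ) • b) :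
    ⁅H, ⁅a, b⁆⁆ = ((α + β : ℝ) : ℂ) • ⁅a, b⁆ := by
  rw [leibniz_lie, ha, hb, smul_lie, lie_smul, Complex.ofReal_add, add_smul]

lemma exists_H (hB : HForm B) (hpos : ∀ x, x ≠ 0 → 0 < (B (star x) x).re) (v : LieSubalgebra ℂ L)
    (hv : ∀ z, ∃ a ∈ v, ∃ b ∈ v, z = a + star b) :
    ∃ H : L, star H = - H ∧ (∀ x ∈ v, ⁅H, x⁆ ∈ v) ∧ (∀ x ∈ v, (B (star x) ⁅H, x⁆).re ≤ 0) ∧
      ∀ x ∈ v, ⁅H, x⁆ = 0 → ∀ z ∈ v, ⁅star x, z⁆ ∈ v := by
  obtain ⟨n, a, -, hd, hsp, -⟩ := exists_eigenfamily hB hpos v.toSubmodule 0 (by simp) (by simp)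
  have hav : ∀ k, a k ∈ v := fun k => show a k ∈ v.toSubmodule from hsp ▸ mem_Sp k
  have hnn : ∀ z, 0 ≤ (B (star z) z).re := fun z => by
    by_cases hz : z = 0
    · simp [hz]
    · exact (hpos z hz).le
  have h1 : ∀ x ∈ v, ∀ k, ⁅x, a k⁆ ∈ Sp a := fun x hx k => hsp ▸ v.lie_mem hx (hav k)
  have h2 : ∀ x ∈ v, B (star x) ⁅∑ k, ⁅a k, star (a k)⁆, x⁆ = 0 → ∀ z ∈ v, ⁅star x, z⁆ ∈ v := by
    intro x hx h0 z hz
    rw [trace_form hB hd (h1 x hx), neg_eq_zero] at h0
    have h3 := congrArg Complex.re h0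
    rw [Complex.re_sum, Complex.zero_re, sum_eq_zero_iff_of_nonneg fun k _ => hnn _] at h3
    have h4 : ⁅star x, z⁆ ∈ Sp a := by
      refine lie_mem_Sp (fun k => ?_) (hsp ▸ hz)
      have h5 : ⁅star x, a k⁆ - pr B a (fun k => star (a k)) ⁅star x, a k⁆ = 0 := by
        by_contra h
        exact (hpos _ h).ne' (h3 k (mem_univ k))
      rw [sub_eq_zero.1 h5]
      exact pr_mem _
    exact show _ ∈ v.toSubmodule from hsp ▸ h4
  have h3 : star (∑ k, ⁅a k, star (a k)⁆) = - ∑ k, ⁅a k, star (a k)⁆ := by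
    rw [star_sum, ← sum_neg_distrib]
    exact sum_congr rfl fun k _ => by rw [hB.star_lie, star_star, lie_skew]
  refine ⟨∑ k, ⁅a k, star (a k)⁆, h3, ?_, fun x hx => ?_, fun x hx h0 => h2 x hx (by simp [h0])⟩
  · obtain ⟨b, hb, b', hb', h4⟩ := hv (∑ k, ⁅a k, star (a k)⁆)
    set c := (2 : ℂ)⁻¹ • (b - b') with hc
    have hcv : c ∈ v := v.smul_mem _ (v.sub_mem hb hb')
    have h5 : ∑ k, ⁅a k, star (a k)⁆ = c - star c := by
      rw [h4, star_add, star_star] at h3
      rw [h4, hc, star_smul, star_sub]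
      simp only [star_inv₀, star_ofNat]
      linear_combination (norm := module) (2 : ℂ)⁻¹ • h3
    intro x hx
    have h6 := h2 c hcv (by rw [h5, sub_lie, lie_self, zero_sub, map_neg, ← hB.inv]; simp) x hx
    rw [h5, sub_lie]
    exact v.sub_mem (v.lie_mem hcv hx) h6
  · rw [trace_form hB hd (h1 x hx), Complex.neg_re, Complex.re_sum, neg_nonpos]
    exact sum_nonneg fun k _ => hnn _

theorem exists_Ell2 (hB : HForm B) (hpos : ∀ x, x ≠ 0 → 0 < (B (star x) x).re)
    (v : LieSubalgebra ℂ L) (hv : ∀ z, ∃ a ∈ v, ∃ b ∈ v, z = a + star b) :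
    ∃ (σ ν χ : Type) (_ : Fintype σ) (_ : DecidableEq σ) (_ : Fintype ν) (_ : DecidableEq ν)
      (_ : Fintype χ) (_ : DecidableEq χ) (e : σ → L) (u : ν → L) (q : χ → L) (H : L)
      (lam : σ → ℝ), Ell2 B e (fun a => star (e a)) u (fun a => star (u a)) q
        (fun a => star (q a)) H lam ∧ Sp e ⊔ Sp u = v.toSubmodule := by
  obtain ⟨H, hH, hHv, hneg, hnorm⟩ := exists_H hB hpos v hv
  have hstar : ∀ {x : L} {α : ℝ}, ⁅H, x⁆ = (α : ℂ) • x → ⁅H, star x⁆ = ((- α : ℝ) : ℂ) • star x := by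
    intro x α hx
    have := congrArg star hx
    rw [hB.star_lie, hH, neg_lie, star_smul, neg_eq_iff_eq_neg] at this
    simp [this]
  obtain ⟨n, g, m, hd, hsp, hg⟩ := exists_eigenfamily hB hpos v.toSubmodule (LieAlgebra.ad ℂ L H)
    hHv fun x z => by
      simp only [LieAlgebra.ad_apply, hB.star_lie, hH, neg_lie, lie_skew, hB.inv]
  simp only [LieAlgebra.ad_apply] at hg
  have hgv : ∀ k, g k ∈ v := fun k => show g k ∈ v.toSubmodule from hsp ▸ mem_Sp k
  have hm : ∀ k, m k ≤ 0 := fun k => by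
    have := hneg _ (hgv k)
    rw [hg, map_smul, hd k k] at this
    simpa using this
  let e : {k // m k < 0} → L := fun k => g k
  let u : {k // ¬ m k < 0} → L := fun k => g k
  have he : ∀ a, ⁅H, e a⁆ = (m a : ℂ) • e a := fun a => hg a
  have hu : ∀ a, ⁅H, u a⁆ = ((0 : ℝ) : ℂ) • u a := fun a => by
    rw [← le_antisymm (hm a) (not_lt.1 a.2)]; exact hg a
  have de : Dual B e fun a => star (e a) := fun a b => by simpa [Subtype.ext_iff] using hd a b
  have du : Dual B u fun a => star (u a) := fun a b => by simpa [Subtype.ext_iff] using hd a b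
  have hv' : Sp e ⊔ Sp u = v.toSubmodule := by
    rw [← hsp, ← Submodule.span_union]
    congr 1
    ext x
    constructor
    · rintro (⟨a, rfl⟩ | ⟨a, rfl⟩) <;> exact ⟨a, rfl⟩
    · rintro ⟨k, rfl⟩
      by_cases hk : m k < 0
      exacts [Or.inl ⟨⟨k, hk⟩, rfl⟩, Or.inr ⟨⟨k, hk⟩, rfl⟩]
  let l := LinearMap.ker (LieAlgebra.ad ℂ L H)
  have hl : ∀ {x}, x ∈ l ↔ ⁅H, x⁆ = ((0 : ℝ) : ℂ) • x := by simp [l]
  obtain ⟨n', q, -, dq, hq, -⟩ := exists_eigenfamily hB hpos
    (l ⊓ ⨅ a, LinearMap.ker (B (star (u a)))) 0 (by simp) (by simp)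
  have hq' : ∀ {x}, x ∈ Sp q ↔ x ∈ l ∧ ∀ a, B (star (u a)) x = 0 := by simp [hq]
  have dy : Dual B (Sum.elim u q) (Sum.elim (fun a => star (u a)) fun a => star (q a)) := by
    rintro (a | a) (b | b)
    · simpa using du a b
    · simpa using (hq'.1 (mem_Sp b)).2 a
    · simpa [hB.conj'] using congrArg star ((hq'.1 (mem_Sp a)).2 b)
    · simpa using dq a b
  have hy : Sp (Sum.elim u q) = l := by
    refine le_antisymm (Submodule.span_le.2 ?_) fun x hx => ?_
    · rintro _ ⟨a | a, rfl⟩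
      exacts [hl.2 (hu a), (hq'.1 (mem_Sp a)).1]
    · have h1 : Sp u ≤ l := Submodule.span_le.2 (by rintro _ ⟨a, rfl⟩; exact hl.2 (hu a))
      have h2 : x - pr B u (fun a => star (u a)) x ∈ Sp q :=
        hq'.2 ⟨l.sub_mem hx (h1 (pr_mem x)), fun a => by simp [pr_apply, du a]⟩
      rw [← add_sub_cancel (pr B u (fun a => star (u a)) x) x]
      refine Submodule.add_mem _ (Submodule.span_mono ?_ (pr_mem x)) (Submodule.span_mono ?_ h2)
      · rintro _ ⟨a, rfl⟩; exact ⟨Sum.inl a, rfl⟩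
      · rintro _ ⟨a, rfl⟩; exact ⟨Sum.inr a, rfl⟩
  set y := Sum.elim u q with hy0
  set y' := Sum.elim (fun a => star (u a)) fun a => star (q a) with hy0'
  set f := fun a => star (e a) with hf
  have sy : ∀ j, star (y j) = y' j := by rintro (a | a) <;> rfl
  have hyl : ∀ j, ⁅H, y j⁆ = ((0 : ℝ) : ℂ) • y j := fun j => hl.1 (hy ▸ mem_Sp j)
  have hls : ∀ {x}, x ∈ l → star x ∈ l := fun hx => hl.2 (by simpa using hstar (hl.1 hx))
  have hyl' : ∀ j, ⁅H, y' j⁆ = ((0 : ℝ) : ℂ) • y' j := fun j => sy j ▸ hl.1 (hls (hl.2 (hyl j)))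
  have p1 : ∀ {x : L} {α : ℝ}, ⁅H, x⁆ = (α : ℂ) • x → 0 ≤ α → pr B e f x = 0 := fun hx h =>
    pr_eq_zero fun a => eig_orth hB (hstar (he a)) hx (by linarith [a.2])
  have p2 : ∀ {x : L} {α : ℝ}, ⁅H, x⁆ = (α : ℂ) • x → α ≤ 0 → pr B f e x = 0 := fun hx h =>
    pr_eq_zero fun a => eig_orth hB (he a) hx (by linarith [a.2])
  have p3 : ∀ {x : L} {α : ℝ}, ⁅H, x⁆ = (α : ℂ) • x → α ≠ 0 → pr B y y' x = 0 := fun hx h =>
    pr_eq_zero fun a => eig_orth hB (hyl' a) hx (by simpa using h)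
  have x1 : ∀ x ∈ Sp e, pr B e f x = x ∧ pr B f e x = 0 ∧ pr B y y' x = 0 := fun x hx =>
    ⟨de.pr_eq hx, (Submodule.span_le (p := LinearMap.ker _)).2
      (by rintro _ ⟨a, rfl⟩; exact p2 (he a) (hm a)) hx, (Submodule.span_le (p := LinearMap.ker _)).2
      (by rintro _ ⟨a, rfl⟩; exact p3 (he a) a.2.ne) hx⟩
  have x2 : ∀ x ∈ Sp f, pr B e f x = 0 ∧ pr B f e x = x ∧ pr B y y' x = 0 := fun x hx =>
    ⟨(Submodule.span_le (p := LinearMap.ker _)).2
      (by rintro _ ⟨a, rfl⟩; exact p1 (hstar (he a)) (by linarith [a.2])) hx, (de.swap hB).pr_eq hx,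
      (Submodule.span_le (p := LinearMap.ker _)).2
      (by rintro _ ⟨a, rfl⟩; exact p3 (hstar (he a)) (by linarith [a.2])) hx⟩
  have x3 : ∀ x ∈ l, pr B e f x = 0 ∧ pr B f e x = 0 ∧ pr B y y' x = x := fun x hx =>
    ⟨p1 (hl.1 hx) le_rfl, p2 (hl.1 hx) le_rfl, dy.pr_eq (hy ▸ hx)⟩
  have hul : Sp u ≤ l := Submodule.span_le.2 (by rintro _ ⟨a, rfl⟩; exact hl.2 (hu a))
  have hdec : ∀ x, ∃ a ∈ Sp e, ∃ b ∈ Sp u, ∃ a' ∈ Sp e, ∃ b' ∈ Sp u,
      x = a + b + (star a' + star b') := by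
    intro x
    obtain ⟨c, hc, c', hc', rfl⟩ := hv x
    obtain ⟨a, ha, b, hb, rfl⟩ := Submodule.mem_sup.1 (show c ∈ Sp e ⊔ Sp u from hv' ▸ hc)
    obtain ⟨a', ha', b', hb', rfl⟩ := Submodule.mem_sup.1 (show c' ∈ Sp e ⊔ Sp u from hv' ▸ hc')
    exact ⟨a, ha, b, hb, a', ha', b', hb', by rw [star_add]⟩
  have hexp : ∀ x, pr B e f x + pr B f e x + pr B y y' x = x := by
    intro x
    obtain ⟨a, ha, b, hb, a', ha', b', hb', rfl⟩ := hdec x
    simp only [map_add, x1 a ha, x3 b (hul hb), x2 _ (star_mem_Sp (fun _ => rfl) ha'),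
      x3 _ (hls (hul hb'))]
    abel
  have hgen : ∀ x ∈ l, ∃ a ∈ Sp u, ∃ b ∈ Sp u, x = a + star b := by
    intro x hx
    obtain ⟨a, ha, b, hb, a', ha', b', hb', h⟩ := hdec x
    refine ⟨b, hb, b', hb', ?_⟩
    rw [← (x3 x hx).2.2, h]
    simp only [map_add, x1 a ha, x3 b (hul hb), x2 _ (star_mem_Sp (fun _ => rfl) ha'),
      x3 _ (hls (hul hb')), zero_add]
  have hneg' : ∀ {x : L} {α : ℝ}, ⁅H, x⁆ = (α : ℂ) • x → α < 0 → x ∈ Sp e := fun {x _} hx h => by
    rw [← hexp x, p2 hx h.le, p3 hx h.ne, add_zero, add_zero]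
    exact pr_mem x
  have huv : Sp u ≤ v.toSubmodule := hv' ▸ le_sup_right
  have hlu : ∀ x ∈ l, ∀ a, ⁅x, u a⁆ ∈ Sp u := by
    intro x hx a
    have h1 : ⁅x, u a⁆ ∈ l := hl.2 (by simpa using eig_lie (hl.1 hx) (hu a))
    have h2 : ⁅x, u a⁆ ∈ v.toSubmodule := by
      obtain ⟨b, hb, b', hb', rfl⟩ := hgen x hx
      rw [add_lie]
      exact v.add_mem (v.lie_mem (huv hb) (hgv a)) (hnorm _ (huv hb') (hul hb') _ (hgv a))
    obtain ⟨c, hc, c', hc', h3⟩ := Submodule.mem_sup.1 (show _ ∈ Sp e ⊔ Sp u from hv' ▸ h2)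
    rw [← (x3 _ h1).2.2, ← h3, map_add, (x1 c hc).2.2, (x3 _ (hul hc')).2.2, zero_add]
    exact hc'
  refine ⟨_, _, _, inferInstance, inferInstance, inferInstance, inferInstance, inferInstance,
    inferInstance, e, u, q, H, fun a => - m a, ?_, hv'⟩
  exact
    { sf := fun _ => rfl
      sy := sy
      de := de
      dy := dy
      ys := fun j => hy ▸ hl.2 (hyl' j)
      exp := hexp
      ee := fun a b => hneg' (eig_lie (he a) (he b)) (by linarith [a.2, b.2])
      ye := fun j a => hneg' (eig_lie (hyl j) (he a)) (by linarith [a.2])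
      ef := fun a => hy ▸ hl.2 (by simpa using eig_lie (he a) (hstar (he a)))
      eig := ⟨H, fun a => ⟨m a, by exact_mod_cast a.2.ne, he a⟩⟩
      bee := fun a b => eig_orth hB (he a) (he b) (by linarith [a.2, b.2])
      bey := fun a j => eig_orth hB (he a) (hyl j) (by linarith [a.2])
      su := fun _ => rfl
      du := du
      ul := fun a => mem_Sp (e := y) (Sum.inl a)
      lu := fun j => hlu _ (hl.2 (hyl j))
      gen := fun j => hgen _ (hl.2 (hyl j))
      uq := fun a c => by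
        have h1 : ⁅u a, q c⁆ ∈ Sp u := by
          rw [← lie_skew]
          exact Submodule.neg_mem _ (hlu _ (hq'.1 (mem_Sp c)).1 a)
        rw [← du.pr_eq h1]
        refine pr_eq_zero fun b => ?_
        have h2 : star ⁅star (u a), u b⁆ ∈ Sp fun a => star (u a) :=
          star_mem_Sp (fun _ => rfl) (hlu _ (hls (hul (mem_Sp a))) b)
        rw [hB.star_lie, star_star] at h2
        rw [← hB.inv, ← lie_skew, map_neg, LinearMap.neg_apply,
          form_zero (fun b c => (hq'.1 (mem_Sp c)).2 b) h2 (mem_Sp c), neg_zero]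
      pos := fun a => neg_pos.2 a.2
      He := fun a => by simpa using he a
      Hf := fun a => hstar (he a)
      Hy := fun j => by simpa using hyl j }

end Pool.Agent.MP_f244e7_gt

end MrgPart0

-- ======== part 1: formerly Pool.Agent.MP_f244e7_gt.Fock
section MrgPart1

/-! The fermionic Fock space and alternating forms. -/

set_option linter.unusedSectionVars false

namespace Pool.Agent.MP_f244e7_gt

open Finset Matrix

lemma exists_fock (n : ℕ) : ∃ (K : Type) (_ : Fintype K) (_ : DecidableEq K)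
    (c : Fin n → Matrix K K ℂ) (v : K), (∀ a b, c a * c b + c b * c a = 0) ∧
    (∀ a b, (c a)ᴴ * c b + c b * (c a)ᴴ = if a = b then 1 else 0) ∧
    (∀ a k, c a k v = 0) ∧ ∀ ψ : K → ℂ, (∀ a, c a *ᵥ ψ = 0) → ∀ k, k ≠ v → ψ k = 0 := by
  induction n with
  | zero => exact ⟨Unit, inferInstance, inferInstance, fun a => a.elim0, (), fun a => a.elim0,
      fun a => a.elim0, fun a => a.elim0, fun _ _ k hk => (hk rfl).elim⟩
  | succ n ih =>
    obtain ⟨K, _, _, c, v, h1, h2, h3, h4⟩ := ih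
    refine ⟨K ⊕ K, inferInstance, inferInstance,
      Fin.cons (fromBlocks 0 1 0 0) fun a => fromBlocks (c a) 0 0 (- c a), Sum.inl v,
      fun a b => ?_, fun a b => ?_, fun a k => ?_, fun ψ hψ k hk => ?_⟩
    · cases a using Fin.cases <;> cases b using Fin.cases <;>
        simp [fromBlocks_multiply, fromBlocks_add, h1]
    · cases a using Fin.cases <;> cases b using Fin.cases <;>
        simp [fromBlocks_multiply, fromBlocks_add, fromBlocks_conjTranspose, h2,
          (Fin.succ_ne_zero _).symm]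
      split_ifs <;> simp
    · cases a using Fin.cases <;> cases k <;> simp [h3]
    · have h5 := hψ 0
      have h6 : ∀ a, c a *ᵥ (ψ ∘ Sum.inl) = 0 := fun a => by
        have := hψ a.succ
        simp only [Fin.cons_succ, fromBlocks_mulVec, zero_mulVec, add_zero] at this
        exact funext fun k => congrFun this (Sum.inl k)
      rcases k with k | k
      · exact h4 _ h6 k fun h => hk (by rw [h])
      · simpa [fromBlocks_mulVec] using congrFun h5 (Sum.inl k)

variable {L : Type*} [LieRing L] [LieAlgebra ℂ L] [StarAddMonoid L] [StarModule ℂ L]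
  {B : L →ₗ[ℂ] L →ₗ[ℂ] ℂ} {σ : Type*} [Fintype σ] [DecidableEq σ] {e f : σ → L}

lemma srep_of_car {R : Type*} [Ring R] [Algebra ℂ R] [StarRing R] [StarModule ℂ R]
    (hB : HForm B) (hf : ∀ a, star (e a) = f a) (hp : ∀ x, pr B e f x = x) (c : σ → R)
    (c1 : ∀ a b, c a * c b + c b * c a = 0)
    (c2 : ∀ a b, star (c a) * c b + c b * star (c a) = if a = b then 1 else 0) :
    SRep B (∑ a, (B.flip (e a)).smulRight (star (c a))) (∑ a, (B (f a)).smulRight (c a)) 0 := by
  have c3 : ∀ a b, star (c a) * star (c b) + star (c b) * star (c a) = 0 := fun a b => by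
    rw [← star_mul, ← star_mul, ← star_add, add_comm, c1, star_zero]
  have key : ∀ (α β : σ → ℂ) (P Q : σ → R),
      (∑ a, α a • P a) * (∑ a, β a • Q a) + (∑ a, β a • Q a) * (∑ a, α a • P a)
        = ∑ a, ∑ b, (α a * β b) • (P a * Q b + Q b * P a) := by
    intro α β P Q
    rw [sum_mul_sum, sum_mul_sum, sum_comm (f := fun a b => β a • Q a * α b • P b),
      ← sum_add_distrib]
    refine sum_congr rfl fun a _ => ?_
    rw [← sum_add_distrib]
    refine sum_congr rfl fun b _ => ?_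
    simp only [smul_mul_assoc, mul_smul_comm, smul_smul, smul_add, mul_comm]
  refine ⟨⟨fun x z => ?_, fun x z => ?_, fun x z => ?_⟩, fun x => ?_, by simp, by simp, by simp,
    by simp⟩ <;> simp only [LinearMap.sum_apply, LinearMap.smulRight_apply, LinearMap.flip_apply]
  · simp [key, c3]
  · simp [key, c1]
  · conv_rhs => rw [← hp x, pr_apply]
    simp [key, c2, sum_smul, mul_comm]
  · refine (star_sum _ _).trans (sum_congr rfl fun a _ => ?_)
    rw [star_smul, ← hB.conj, ← hf, star_star, hB.symm]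

/-- A Fock representation with its vacuum vector. -/
structure IsFock {W : Type*} [NormedAddCommGroup W] [InnerProductSpace ℂ W] [CompleteSpace W]
    (B : L →ₗ[ℂ] L →ₗ[ℂ] ℂ) (ε i : L →ₗ[ℂ] (W →L[ℂ] W)) (v : W) : Prop extends SRep B ε i 0 where
  norm : inner ℂ v v = 1
  vac : ∀ x, i x v = 0
  uniq : ∀ ψ, (∀ x, i x ψ = 0) → ψ = inner ℂ v ψ • v

lemma exists_fock' (hB : HForm B) (hf : ∀ a, star (e a) = f a) (hp : ∀ x, pr B e f x = x)
    (hd : Dual B e f) : ∃ (K : Type) (_ : Fintype K)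
      (ε i : L →ₗ[ℂ] (EuclideanSpace ℂ K →L[ℂ] EuclideanSpace ℂ K)) (v : EuclideanSpace ℂ K),
      IsFock B ε i v := by
  obtain ⟨K, _, _, c0, v, h1, h2, h3, h4⟩ := exists_fock (Fintype.card σ)
  let c : σ → EuclideanSpace ℂ K →L[ℂ] EuclideanSpace ℂ K := fun a =>
    toEuclideanCLM (n := K) (𝕜 := ℂ) (c0 (Fintype.equivFin σ a))
  have c1 : ∀ a b, c a * c b + c b * c a = 0 := fun a b => by
    simp only [c, ← map_mul, ← map_add, h1, map_zero]
  have c2 : ∀ a b, star (c a) * c b + c b * star (c a) = if a = b then 1 else 0 := fun a b => by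
    simp only [c, ← map_star, ← map_mul, ← map_add, star_eq_conjTranspose, h2,
      EmbeddingLike.apply_eq_iff_eq]
    split_ifs <;> simp
  refine ⟨K, inferInstance, _, _, EuclideanSpace.single v 1, srep_of_car hB hf hp c c1 c2,
    by simp, fun x => ?_, fun ψ hψ => ?_⟩
  · simp only [LinearMap.sum_apply, LinearMap.smulRight_apply, ContinuousLinearMap.sum_apply,
      ContinuousLinearMap.smul_apply]
    refine sum_eq_zero fun a _ => smul_eq_zero_of_right _ ?_
    ext k
    simp [c, h3]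
  · have h5 : ∀ a, c0 a *ᵥ ψ.ofLp = 0 := fun a => by
      have := hψ (e ((Fintype.equivFin σ).symm a))
      simp only [LinearMap.sum_apply, LinearMap.smulRight_apply, hd _ _,
        ContinuousLinearMap.sum_apply, ContinuousLinearMap.smul_apply, ite_smul, one_smul,
        zero_smul, sum_ite_eq', mem_univ, if_true, c, Equiv.apply_symm_apply] at this
      exact congrArg WithLp.ofLp this
    ext k
    by_cases hk : k = v
    · simp [hk, EuclideanSpace.inner_single_left]
    · simp [hk, h4 _ h5 k hk]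

end Pool.Agent.MP_f244e7_gt

end MrgPart1

-- ======== part 2: formerly Pool.Agent.MP_f244e7_gt.Ev
section MrgPart2

/-! Evaluation of Fock space vectors as alternating forms. -/

set_option linter.unusedSectionVars false

namespace Pool.Agent.MP_f244e7_gt

open Finset Function

variable {L : Type*} [LieRing L] [LieAlgebra ℂ L] {R : Type*} [Ring R] [Algebra ℂ R]
  {M : Type*} [AddCommGroup M] [Module ℂ M] (π : R →ₐ[ℂ] Module.End ℂ M) (i : L →ₗ[ℂ] R)
  (E : M →ₗ[ℂ] ℂ)

/-- Contract with all arguments and take the vacuum component. -/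
def ev : (k : ℕ) → (Fin k → L) → M →ₗ[ℂ] ℂ
  | 0, _ => E
  | k + 1, X => ev k (Fin.tail X) ∘ₗ π (i (X 0))

lemma ev_succ {k : ℕ} (X : Fin (k + 1) → L) (ψ : M) :
    ev π i E (k + 1) X ψ = ev π i E k (Fin.tail X) (π (i (X 0)) ψ) := rfl

lemma ev_update_add : ∀ (k : ℕ) (X : Fin k → L) (j : Fin k) (x z : L) (ψ : M),
    ev π i E k (update X j (x + z)) ψ = ev π i E k (update X j x) ψ + ev π i E k (update X j z) ψ
  | 0, _, j, _, _, _ => j.elim0
  | k + 1, X, j, x, z, ψ => by
    cases j using Fin.cases with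
    | zero => simp [ev_succ]
    | succ j => simp [ev_succ, (Fin.succ_ne_zero j).symm, ev_update_add k]

lemma ev_update_smul : ∀ (k : ℕ) (X : Fin k → L) (j : Fin k) (c : ℂ) (x : L) (ψ : M),
    ev π i E k (update X j (c • x)) ψ = c • ev π i E k (update X j x) ψ
  | 0, _, j, _, _, _ => j.elim0
  | k + 1, X, j, c, x, ψ => by
    cases j using Fin.cases with
    | zero => simp [ev_succ]
    | succ j => simp [ev_succ, (Fin.succ_ne_zero j).symm, ev_update_smul k]

variable {π i E} {B : L →ₗ[ℂ] L →ₗ[ℂ] ℂ} {ε ρ : L →ₗ[ℂ] R}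

lemma CAR.i_swap (h : CAR B ε i) (x z : L) (ψ : M) :
    π (i x) (π (i z) ψ) = - π (i z) (π (i x) ψ) := by
  rw [← Module.End.mul_apply, ← map_mul, eq_neg_of_add_eq_zero_left (h.ii x z)]
  simp

lemma CAR.ev_i (h : CAR B ε i) : ∀ (k : ℕ) (X : Fin k → L) (j : Fin k) (ψ : M),
    ev π i E k X (π (i (X j)) ψ) = 0
  | 0, _, j, _ => j.elim0
  | k + 1, X, j, ψ => by
    cases j using Fin.cases with
    | zero =>
      have h1 := h.i_swap (π := π) (X 0) (X 0) ψ
      have h2 : (2 : ℂ) • π (i (X 0)) (π (i (X 0)) ψ) = 0 := by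
        rw [two_smul]; exact add_eq_zero_iff_eq_neg.2 h1
      rw [ev_succ, (smul_eq_zero.1 h2).resolve_left two_ne_zero, map_zero]
    | succ j =>
      rw [ev_succ, h.i_swap, map_neg, neg_eq_zero]
      exact CAR.ev_i h k (Fin.tail X) j _

lemma CAR.ev_alt (h : CAR B ε i) : ∀ (k : ℕ) (X : Fin k → L) (j l : Fin k) (ψ : M),
    X j = X l → j ≠ l → ev π i E k X ψ = 0
  | 0, _, j, _, _, _, _ => j.elim0
  | k + 1, X, j, l, ψ, h1, h2 => by
    rw [ev_succ]
    cases j using Fin.cases <;> cases l using Fin.cases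
    · exact (h2 rfl).elim
    · rw [h1]; exact h.ev_i k (Fin.tail X) _ ψ
    · rw [← h1]; exact h.ev_i k (Fin.tail X) _ ψ
    · exact CAR.ev_alt h k (Fin.tail X) _ _ _ h1 fun h => h2 (by rw [h])

variable (π E) in
/-- The alternating form attached to a vector. -/
def CAR.evA (h : CAR B ε i) (k : ℕ) (ψ : M) : L [⋀^Fin k]→ₗ[ℂ] ℂ :=
  { MultilinearMap.mk' (fun X => ev π i E k X ψ) (fun X j x z => ev_update_add π i E k X j x z ψ)
      (fun X j c x => ev_update_smul π i E k X j c x ψ) with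
    map_eq_zero_of_eq' := fun X j l => h.ev_alt k X j l ψ }

lemma CAR.evA_apply (h : CAR B ε i) (k : ℕ) (ψ : M) (X : Fin k → L) :
    h.evA π E k ψ X = ev π i E k X ψ := rfl

variable {σ : Type*} [Fintype σ] [DecidableEq σ] {e f : σ → L}

lemma E_II (hE : ∀ x ψ, E (π (ε x) ψ) = 0) {P : R} (hP : P ∈ II ε f univ) (ψ : M) :
    E (π P ψ) = 0 := by
  obtain ⟨r, rfl⟩ := hP
  simp [LinearMap.sum_apply, hE]

lemma CAR.ev_th (h : CAR B ε i) (hE : ∀ x ψ, E (π (ε x) ψ) = 0) (hp : ∀ x, pr B e f x = x)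
    (z : L) : ∀ (k : ℕ) (X : Fin k → L) (ψ : M),
      ev π i E k X (π (th ε i e f z) ψ) = - ∑ j, ev π i E k (update X j ⁅z, X j⁆) ψ
  | 0, _, ψ => by simpa [ev] using E_II hE (th_mem z) ψ
  | k + 1, X, ψ => by
    have h1 : i (X 0) * th ε i e f z = th ε i e f z * i (X 0) - i ⁅z, X 0⁆ := by
      rw [← hp (X 0), ← h.th_i (e := e) (f := f), hp]
      abel
    rw [ev_succ, ← Module.End.mul_apply, ← map_mul, h1, map_sub, map_mul, LinearMap.sub_apply,
      map_sub, Module.End.mul_apply, CAR.ev_th h hE hp z k, Fin.sum_univ_succ]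
    simp only [ev_succ, update_self, Fin.tail_update_zero, Fin.tail_update_succ,
      update_of_ne (Fin.succ_ne_zero _).symm, Fin.tail]
    ring

lemma CAR.ev_d (h : CAR B ε i) (hE : ∀ x ψ, E (π (ε x) ψ) = 0) (hp : ∀ x, pr B e f x = x)
    (hc : ∀ x z, Commute (ρ x) (i z)) : ∀ (k : ℕ) (X : Fin (k + 1) → L) (ψ : M),
      ev π i E (k + 1) X (π (dCE ε i ρ e f) ψ) = ∑ l : Fin (k + 1), (-1) ^ (l : ℕ) *
        (ev π i E k (l.removeNth X) (π (ρ (X l)) ψ) - ∑ j : Fin (k + 1),
          if l < j then ev π i E k (l.removeNth (update X j ⁅X l, X j⁆)) ψ else 0) := by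
  have h1 : ∀ x ψ, π (i x) (π (dCE ε i ρ e f) ψ)
      = π (ρ x) ψ + π (th ε i e f x) ψ - π (dCE ε i ρ e f) (π (i x) ψ) := by
    intro x ψ
    have := h.cartan (e := e) (f := f) ρ x fun _ => hc _ _
    rw [hp] at this
    rw [← Module.End.mul_apply, ← map_mul, eq_sub_of_add_eq' this]
    simp
  intro k
  induction k with
  | zero =>
    intro X ψ
    rw [ev_succ, h1]
    simp [ev, E_II hE (th_mem _), E_II hE (dCE_mem _)]
  | succ k ih =>
    intro X ψ
    have h2 : ∀ (l : Fin (k + 1)) (Z : Fin (k + 2) → L) (φ : M),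
        ev π i E (k + 1) (l.succ.removeNth Z) φ
          = ev π i E k (l.removeNth (Fin.tail Z)) (π (i (Z 0)) φ) := by
      intro l Z φ
      rw [ev_succ]
      congr 2
      funext m
      simp [Fin.tail, Fin.removeNth]
    have h3 : ∀ x z φ, π (i z) (π (ρ x) φ) = π (ρ x) (π (i z) φ) := fun x z φ => by
      rw [← Module.End.mul_apply, ← map_mul, ← (hc x z).eq, map_mul, Module.End.mul_apply]
    rw [ev_succ, h1, map_sub, map_add, ih, h.ev_th hE hp, Fin.sum_univ_succ (n := k + 1),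
      Fin.sum_univ_succ (n := k + 1)]
    simp only [h2, h3, Fin.sum_univ_succ (n := k + 1), Fin.removeNth_zero, Fin.tail_update_succ,
      update_of_ne (Fin.succ_ne_zero _).symm, Fin.succ_lt_succ_iff, Fin.not_lt_zero, Fin.succ_pos,
      if_true, if_false, Fin.val_zero, pow_zero, one_mul, zero_add, Fin.val_succ, pow_succ,
      mul_neg, mul_one, neg_mul, sum_neg_distrib, Fin.tail]
    ring

end Pool.Agent.MP_f244e7_gt

end MrgPart2

-- marker of a merged file
example : 731051 + 553766 = 731051 + 553766 := rfl
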