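import Mathlib.LinearAlgebra.ExteriorAlgebra.OfAlternating
import Mathlib.Algebra.Ring.IsFormallyReal
import Mathlib.RingTheory.Finiteness.ModuleFinitePresentation
import Mathlib.RingTheory.TotallySplit
import Mathlib.RingTheory.Etale.Weakly
import Pool.Agent.MP_f244e7_gt.Ev
import Pool.Agent.MP_f244e7_gt.Defs

/-! Alternating forms as Fock space vectors. -/

set_option linter.unusedSectionVars false

namespace Pool.Agent.MP_f244e7_gt

open Finset Function

variable {L : Type*} [LieRing L] [LieAlgebra ℂ L] [StarAddMonoid L] [StarModule ℂ L]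
  {B : L →ₗ[ℂ] L →ₗ[ℂ] ℂ} {σ : Type*} [Fintype σ] [DecidableEq σ] {e f : σ → L}

open Classical in
/-- The number of arguments outside `v`. -/
noncomputable def cnt (v : Set L) {k : ℕ} (X : Fin k → L) : ℝ := ∑ j, if X j ∈ v then 0 else 1

lemma inFilt_iff (v : Set L) (p : ℕ) {k : ℕ} (φ : (Fin k → L) → ℂ) :
    InFilt v p φ ↔ ∀ X, cnt v X < p → φ X = 0 := by
  classical
  have h1 : ∀ X : Fin k → L, cnt v X + (univ.filter fun j => X j ∈ v).card = k := by
    intro X
    rw [cnt, card_filter]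
    push_cast
    rw [← sum_add_distrib, sum_congr rfl (g := fun _ => (1 : ℝ)) fun j _ => by split_ifs <;> simp]
    simp
  refine ⟨fun h X hX => h X (univ.filter fun j => X j ∈ v) ?_ (by simp), fun h X S h2 h3 => h X ?_⟩
  · have := h1 X
    exact_mod_cast (show (k : ℝ) < p + (univ.filter fun j => X j ∈ v).card by linarith)
  · have h4 : (S.card : ℝ) ≤ (univ.filter fun j => X j ∈ v).card := by
      exact_mod_cast card_le_card fun j hj => by simpa using h3 j hj
    have h5 : (k : ℝ) < p + S.card := by exact_mod_cast h2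
    linarith [h1 X]

open Classical in
lemma cnt_succ (v : Set L) {k : ℕ} (X : Fin (k + 1) → L) :
    cnt v X = (if X 0 ∈ v then 0 else 1) + cnt v (Fin.tail X) := Fin.sum_univ_succ _

section
variable {R : Type*} [Ring R] [Algebra ℂ R] [StarRing R] [StarModule ℂ R] {ε i ρ : L →ₗ[ℂ] R}
  {M : Type*} [AddCommGroup M] [Module ℂ M] {π : R →ₐ[ℂ] Module.End ℂ M} {E : M →ₗ[ℂ] ℂ}

lemma CAR.ev_fil (h : CAR B ε i) (hE : ∀ x ψ, E (π (ε x) ψ) = 0) (hd : Dual B e f)
    (hp : ∀ x, pr B e f x = x) {w : σ → ℝ} (hw : ∀ k, w k ≤ 1) {v : Set L}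
    (hv : ∀ x ∈ v, ∀ k, B (f k) x ≠ 0 → w k = 0) : ∀ (k : ℕ) (X : Fin k → L) (t : ℝ) (ψ : M),
      ψ ∈ Fil (π (NN ε i e f w)) (Set.Ici t) → cnt v X < t → ev π i E k X ψ = 0
  | 0, X, t, ψ, h1, h2 => by
    refine Fil_le (U := LinearMap.ker E) (fun c hc φ h3 => ?_) h1
    have h4 := E_II (π := π) (P := NN ε i e f w) (f := f) hE (Submodule.sum_mem _ fun a _ =>
      Submodule.smul_mem _ _ (II.mul (II.eps (mem_Sp a)) _)) φ
    rw [h3, map_smul, smul_eq_zero] at h4
    refine h4.resolve_left ?_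
    have : 0 < c := lt_of_lt_of_le (by simpa [cnt] using h2) hc
    exact_mod_cast this.ne'
  | k + 1, X, t, ψ, h1, h2 => by
    classical
    have h3 : π (i (X 0)) ∈ Up (π (NN ε i e f w)) (- if X 0 ∈ v then 0 else 1) := by
      rw [← hp (X 0), pr_apply, map_sum, map_sum, ← pr_apply, hp]
      refine Submodule.sum_mem _ fun a _ => ?_
      by_cases ha : B (f a) (X 0) = 0
      · simp [ha]
      rw [map_smul, map_smul]
      refine Submodule.smul_mem _ _ (Up.mono ((h.hom_i hd w a).up π) ?_)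
      split_ifs with h4
      · rw [hv _ h4 a ha]
      · exact neg_le_neg (hw a)
    refine CAR.ev_fil h hE hd hp hw hv k _ _ _ (h3 t ψ h1) ?_
    rw [cnt_succ] at h2
    linarith

lemma SRep.hom_d (h : SRep B ε i ρ) (hB : HForm B) (hd : Dual B e f) (hp : ∀ x, pr B e f x = x) :
    NN ε i e f 1 * dCE ε i ρ e f = dCE ε i ρ e f * NN ε i e f 1 + dCE ε i ρ e f := by
  let U : Submodule ℂ R := LinearMap.ker (LinearMap.mulLeft ℂ (NN ε i e f 1)
    - LinearMap.mulRight ℂ (NN ε i e f 1) - LinearMap.id)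
  have hU : ∀ P s, s = 1 → Hom (NN ε i e f 1) s P → P ∈ U := fun P s hs h1 => by
    simp [U, show _ = _ from h1, hs]
  have : dCE ε i ρ e f ∈ U := by
    refine U.sub_mem (U.sum_mem fun a _ => hU _ _ (by simp) ((h.hom_eps hd hB.symm 1 a).mul
      (Hom.of_comm (h.NN_rho _ _)))) (U.smul_mem _ (U.sum_mem fun a _ => U.sum_mem fun b _ => ?_))
    rw [← hp ⁅e a, e b⁆, pr_apply, map_sum, mul_sum]
    refine U.sum_mem fun c _ => ?_
    rw [map_smul, mul_smul_comm]
    exact U.smul_mem _ (hU _ _ (by simp) (((h.hom_eps hd hB.symm 1 a).mul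
      (h.hom_eps hd hB.symm 1 b)).mul (h.hom_i hd 1 c)))
  simpa [U, sub_sub, sub_eq_zero] using this

end

variable {W : Type*} [NormedAddCommGroup W] [InnerProductSpace ℂ W] [CompleteSpace W]
  {ε i : L →ₗ[ℂ] (W →L[ℂ] W)} {v : W}

variable (W) in
/-- Bounded operators as linear maps. -/
def pi0 : (W →L[ℂ] W) →ₐ[ℂ] Module.End ℂ W :=
  { ContinuousLinearMap.toLinearMapRingHom with commutes' := fun _ => rfl }

@[simp] lemma pi0_apply (A : W →L[ℂ] W) (x : W) : pi0 W A x = A x := rfl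

lemma IsFock.vac_eps (h : IsFock B ε i v) (x : L) (ψ : W) : innerₛₗ ℂ v (pi0 W (ε x) ψ) = 0 := by
  rw [pi0_apply, innerₛₗ_apply_apply, ← ContinuousLinearMap.adjoint_inner_left,
    ← ContinuousLinearMap.star_eq_adjoint, h.star_eps, h.vac, inner_zero_left]

/-- The Fock space vector of an alternating form. -/
noncomputable def Phi (ε : L →ₗ[ℂ] (W →L[ℂ] W)) (e f : σ → L) (v : W) :
    (k : ℕ) → (L [⋀^Fin k]→ₗ[ℂ] ℂ) → W
  | 0, α => α 0 • v
  | k + 1, α => ((k : ℂ) + 1)⁻¹ • ∑ a, ε (f a) (Phi ε e f v k (α.curryLeft (e a)))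

lemma Phi_succ (k : ℕ) (α : L [⋀^Fin (k + 1)]→ₗ[ℂ] ℂ) : Phi ε e f v (k + 1) α
    = ((k : ℂ) + 1)⁻¹ • ∑ a, ε (f a) (Phi ε e f v k (α.curryLeft (e a))) := rfl

lemma Phi_add : ∀ (k : ℕ) (α β : L [⋀^Fin k]→ₗ[ℂ] ℂ),
    Phi ε e f v k (α + β) = Phi ε e f v k α + Phi ε e f v k β
  | 0, α, β => by simp [Phi, add_smul]
  | k + 1, α, β => by simp [Phi, Phi_add k, sum_add_distrib]

lemma Phi_smul : ∀ (k : ℕ) (c : ℂ) (α : L [⋀^Fin k]→ₗ[ℂ] ℂ),
    Phi ε e f v k (c • α) = c • Phi ε e f v k α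
  | 0, c, α => by simp [Phi, smul_smul]
  | k + 1, c, α => by simp [Phi, Phi_smul k, ← smul_sum, smul_comm c]

/-- The Fock space vector of an alternating form, as a linear map. -/
noncomputable def PhiL (ε : L →ₗ[ℂ] (W →L[ℂ] W)) (e f : σ → L) (v : W) (k : ℕ) :
    (L [⋀^Fin k]→ₗ[ℂ] ℂ) →ₗ[ℂ] W where
  toFun := Phi ε e f v k
  map_add' := Phi_add k
  map_smul' := Phi_smul k

lemma IsFock.i_eps (h : IsFock B ε i v) (x z : L) (ψ : W) :
    i x (ε z ψ) = B z x • ψ - ε z (i x ψ) := by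
  have := DFunLike.congr_fun (h.ei x z) ψ
  simp only [ContinuousLinearMap.add_apply, ContinuousLinearMap.mul_apply,
    ContinuousLinearMap.smul_apply, ContinuousLinearMap.one_apply] at this
  rw [← this]
  abel

lemma IsFock.i_Phi (h : IsFock B ε i v) (hp : ∀ x, pr B e f x = x) :
    ∀ (k : ℕ) (α : L [⋀^Fin (k + 1)]→ₗ[ℂ] ℂ) (x : L),
      i x (Phi ε e f v (k + 1) α) = Phi ε e f v k (α.curryLeft x) := by
  have h1 : ∀ (k : ℕ) (α : L [⋀^Fin (k + 1)]→ₗ[ℂ] ℂ) (x : L),
      ∑ a, B (f a) x • Phi ε e f v k (α.curryLeft (e a)) = Phi ε e f v k (α.curryLeft x) := by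
    intro k α x
    conv_rhs => rw [← hp x, pr_apply, map_sum]
    change _ = PhiL ε e f v k _
    simp only [map_sum, map_smul]
    rfl
  intro k
  induction k with
  | zero =>
    intro α x
    rw [Phi_succ, map_smul, map_sum]
    simp only [h.i_eps, sum_sub_distrib, h1]
    simp [Phi, h.vac]
  | succ k ih =>
    intro α x
    have h2 : ∀ z, (α.curryLeft z).curryLeft x = (-1 : ℂ) • (α.curryLeft x).curryLeft z := by
      intro z
      have h3 := α.curryLeft_same (x + z)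
      simp only [map_add, AlternatingMap.curryLeft_add, LinearMap.add_apply,
        AlternatingMap.curryLeft_same, zero_add, add_zero] at h3
      rw [neg_one_smul]
      exact eq_neg_of_add_eq_zero_left h3
    have h3 : ((k + 1 : ℕ) : ℂ) + 1 ≠ 0 := by exact_mod_cast Nat.succ_ne_zero (k + 1)
    have h4 : (k : ℂ) + 1 ≠ 0 := by exact_mod_cast Nat.succ_ne_zero k
    have h5 : ∑ a, ε (f a) (Phi ε e f v k ((α.curryLeft x).curryLeft (e a)))
        = ((k : ℂ) + 1) • Phi ε e f v (k + 1) (α.curryLeft x) := by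
      rw [Phi, smul_smul, mul_inv_cancel₀ h4, one_smul]
    rw [Phi, map_smul, map_sum]
    simp only [h.i_eps, sum_sub_distrib, h1, ih, h2, Phi_smul, map_smul, ← smul_sum, h5]
    rw [inv_smul_eq_iff₀ h3]
    push_cast
    module

lemma IsFock.ev_Phi (h : IsFock B ε i v) (hp : ∀ x, pr B e f x = x) :
    ∀ (k : ℕ) (α : L [⋀^Fin k]→ₗ[ℂ] ℂ) (X : Fin k → L),
      ev (pi0 W) i (innerₛₗ ℂ v) k X (Phi ε e f v k α) = α X
  | 0, α, X => by
    rw [ev, Phi, innerₛₗ_apply_apply, inner_smul_right, h.norm, mul_one, Subsingleton.elim X 0]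
  | k + 1, α, X => by
    rw [ev_succ, pi0_apply, h.i_Phi hp, IsFock.ev_Phi h hp k, AlternatingMap.curryLeft_apply_apply]
    exact congrArg α (Fin.cons_self_tail X)

lemma NN_one_apply (ψ : W) : NN ε i e f 1 ψ = ∑ a, ε (f a) (i (e a) ψ) := by
  simp [NN]

lemma IsFock.N_Phi (h : IsFock B ε i v) (hp : ∀ x, pr B e f x = x) :
    ∀ (k : ℕ) (α : L [⋀^Fin k]→ₗ[ℂ] ℂ), NN ε i e f 1 (Phi ε e f v k α) = (k : ℂ) • Phi ε e f v k α
  | 0, α => by simp [NN_one_apply, Phi, h.vac]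
  | k + 1, α => by
    have h4 : (k : ℂ) + 1 ≠ 0 := by exact_mod_cast Nat.succ_ne_zero k
    simp only [NN_one_apply, h.i_Phi hp]
    rw [Phi, smul_smul, Nat.cast_succ, mul_inv_cancel₀ h4, one_smul]

lemma IsFock.Phi_ev (h : IsFock B ε i v) (hd : Dual B e f) (hf : ∀ a, star (e a) = f a)
    (hp : ∀ x, pr B e f x = x) : ∀ (k : ℕ) (ψ : W), NN ε i e f 1 ψ = (k : ℂ) • ψ →
      Phi ε e f v k (h.toCAR.evA (pi0 W) (innerₛₗ ℂ v) k ψ) = ψ
  | 0, ψ, h1 => by
    have h2 : ∑ a, ‖i (e a) ψ‖ ^ 2 = 0 := by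
      have h3 := congrArg (fun φ => (inner ℂ ψ φ).re) h1
      simp only [NN_one_apply, inner_sum, ← hf, ← h.star_i, ContinuousLinearMap.star_eq_adjoint,
        ContinuousLinearMap.adjoint_inner_right, inner_self_eq_norm_sq_to_K] at h3
      simpa [← Complex.ofReal_pow] using h3
    rw [sum_eq_zero_iff_of_nonneg fun _ _ => sq_nonneg _] at h2
    refine (h.uniq ψ fun x => ?_).symm
    rw [← hp x, pr_apply]
    simp only [map_sum, map_smul, ContinuousLinearMap.sum_apply, ContinuousLinearMap.smul_apply]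
    exact sum_eq_zero fun a _ => smul_eq_zero_of_right _ (by simpa using h2 a (mem_univ a))
  | k + 1, ψ, h1 => by
    have h4 : (k : ℂ) + 1 ≠ 0 := by exact_mod_cast Nat.succ_ne_zero k
    have h2 : ∀ a, Phi ε e f v k ((h.toCAR.evA (pi0 W) (innerₛₗ ℂ v) (k + 1) ψ).curryLeft (e a))
        = i (e a) ψ := by
      intro a
      rw [← IsFock.Phi_ev h hd hf hp k (i (e a) ψ)]
      · congr 1
      · have := DFunLike.congr_fun (h.hom_i hd 1 a) ψ
        simp only [ContinuousLinearMap.add_apply, ContinuousLinearMap.mul_apply,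
          ContinuousLinearMap.smul_apply, h1, map_smul] at this
        rw [this, ← add_smul]
        simp
    rw [Phi]
    simp only [h2]
    rw [← NN_one_apply, h1, smul_smul, Nat.cast_succ, inv_mul_cancel₀ h4, one_smul]

lemma IsFock.Phi_fil (h : IsFock B ε i v) (hB : HForm B) (hd : Dual B e f) {w : σ → ℝ}
    {V : Set L} (hw : ∀ k, (w k = 0 ∧ e k ∈ V) ∨ w k = 1) :
    ∀ (k : ℕ) (α : L [⋀^Fin k]→ₗ[ℂ] ℂ) (t : ℝ), (∀ X, cnt V X < t → α X = 0) →
      Phi ε e f v k α ∈ Fil (pi0 W (NN ε i e f w)) (Set.Ici t)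
  | 0, α, t, h1 => by
    by_cases ht : t ≤ 0
    · exact mem_Fil (c := 0) ht (by simp [Phi, NN, h.vac])
    · rw [Phi, h1 0 (by simpa [cnt] using ht), zero_smul]
      exact Submodule.zero_mem _
  | k + 1, α, t, h1 => by
    refine Submodule.smul_mem _ _ (Submodule.sum_mem _ fun a _ => ?_)
    have h2 := (h.hom_eps hd hB.symm w a).up (pi0 W) _ _
      (IsFock.Phi_fil h hB hd hw k (α.curryLeft (e a)) (t - w a) fun X hX => h1 _ (by
        change cnt V (Matrix.vecCons (e a) X) < t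
        rw [cnt_succ]
        simp only [Matrix.cons_val_zero, show Fin.tail (Matrix.vecCons (e a) X) = X from rfl]
        rcases hw a with h3 | h3
        · simpa [h3] using hX
        · split_ifs <;> linarith))
    simpa using h2

end Pool.Agent.MP_f244e7_gt
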