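import Mathlib.Algebra.Lie.BaseChange
import Mathlib.LinearAlgebra.BilinearForm.TensorProduct
import Mathlib.RingTheory.PicardGroup
import Mathlib.Topology.Compactness.CompactlyGeneratedSpace
import Mathlib.MeasureTheory.Function.L2Space
import Mathlib.RingTheory.PiTensorProduct
import Pool.Agent.MP_f244e7_gt.Haar
import Pool.Agent.MP_f244e7_gt.Phi

-- ======== part 0: formerly Pool.Agent.MP_f244e7_gt.Solve
section MrgPart0

/-! Estimates for invariant elliptic operators on a compact Lie group. -/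

set_option maxSynthPendingDepth 3
set_option linter.unusedSectionVars false

namespace Pool.Agent.MP_f244e7_gt

open scoped Manifold ContDiff Topology
open Function Filter Set MeasureTheory

variable {E : Type*} [NormedAddCommGroup E] [NormedSpace ℝ E] [FiniteDimensional ℝ E]
  {G : Type*} [Group G] [TopologicalSpace G] [ChartedSpace E G] [LieGroup 𝓘(ℝ, E) ∞ G]
  [IsTopologicalGroup G] [CompactSpace G] [T2Space G] [MeasurableSpace G] [BorelSpace G]
  (μ : Measure G) [BiHaar μ]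
  {B : Type*} [NormedAddCommGroup B] [NormedSpace ℝ B]
  {B' : Type*} [NormedAddCommGroup B'] [NormedSpace ℝ B']

lemma sup_bound (ε : ℝ) (hε : 0 < ε) : ∃ C ≥ 0, ∀ (f : G → B) (M : ℝ), Sm E f →
    (∀ x, ‖DR E f x‖ ^ 2 ≤ M) → ∀ x, ‖f x‖ ^ 2 ≤ C * ∫ y, ‖f y‖ ^ 2 ∂μ + ε * M := by
  obtain ⟨U, hU, h⟩ := exists_nhds_lip (E := E) (G := G) (B := B) (√(ε / 2)) (by positivity)
  obtain ⟨V, hVU, hV, h1⟩ := mem_nhds_iff.1 hU
  have hpos : 0 < μ.real V :=
    ENNReal.toReal_pos (hV.measure_pos μ ⟨1, h1⟩).ne' (measure_ne_top _ _)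
  refine ⟨2 / μ.real V, by positivity, fun f M hf hM x => ?_⟩
  have hM0 : 0 ≤ M := (sq_nonneg _).trans (hM 1)
  have h2 : ∀ y ∈ V, ‖f x‖ ^ 2 - ε * M ≤ 2 * ‖f (y * x)‖ ^ 2 := by
    intro y hy
    have h3 := h f (√M) hf (fun z => Real.le_sqrt_of_sq_le (hM z)) y (hVU hy) x
    have h4 : ‖f (y * x) - f x‖ ^ 2 ≤ ε / 2 * M := by
      calc _ ≤ (√(ε / 2) * √M) ^ 2 := by gcongr
        _ = _ := by rw [mul_pow, Real.sq_sqrt (by positivity), Real.sq_sqrt hM0]
    have h5 : ‖f x‖ ≤ ‖f (y * x)‖ + ‖f (y * x) - f x‖ := by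
      simpa using norm_sub_le (f (y * x)) (f (y * x) - f x)
    have h6 : ‖f x‖ ^ 2 ≤ (‖f (y * x)‖ + ‖f (y * x) - f x‖) ^ 2 := by gcongr
    nlinarith [sq_nonneg (‖f (y * x)‖ - ‖f (y * x) - f x‖)]
  have hi : Integrable (fun y => 2 * ‖f (y * x)‖ ^ 2) μ :=
    cont_integrable μ (by have := hf.continuous; fun_prop)
  have h3 := (setIntegral_mono_on (integrable_const _).integrableOn hi.integrableOn
    hV.measurableSet h2).trans
    (setIntegral_le_integral hi (Eventually.of_forall fun y => by positivity))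
  rw [setIntegral_const, integral_const_mul,
    integral_mul_right_eq_self (fun y => ‖f y‖ ^ 2) x, smul_eq_mul] at h3
  rw [← sub_le_iff_le_add, div_mul_eq_mul_div, le_div_iff₀ hpos]
  linarith

variable {W : Type*} [NormedAddCommGroup W] [InnerProductSpace ℝ W] [FiniteDimensional ℝ W]

lemma norm_toLp_sq (f : C(G, W)) :
    ‖ContinuousMap.toLp (E := W) 2 μ ℝ f‖ ^ 2 = ∫ x, ‖f x‖ ^ 2 ∂μ := by
  rw [← real_inner_self_eq_norm_sq, L2.inner_def]
  refine integral_congr_ae ?_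
  filter_upwards [ContinuousMap.coeFn_toLp (E := W) (p := 2) (𝕜 := ℝ) μ f] with x hx
  rw [hx, real_inner_self_eq_norm_sq]

lemma poincare [ConnectedSpace G] {ι : Type*} [Fintype ι] (Y : ι → E)
    (hY : Submodule.span ℝ (range Y) = ⊤) : ∃ C ≥ 0, ∀ f : G → W, Sm E f → ∫ x, f x ∂μ = 0 →
      ∫ x, ‖f x‖ ^ 2 ∂μ ≤ C * ∑ j, ∫ x, ‖LD (Y j) f x‖ ^ 2 ∂μ := by
  have := FiniteDimensional.complete ℝ W
  obtain ⟨C, hC, h⟩ := exists_global_lip (E := E) (G := G) (B := Lp W 2 μ)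
  obtain ⟨C', hC', h'⟩ := exists_DR_bound (G := G) (B := Lp W 2 μ) Y hY
  refine ⟨C ^ 2 * C', by positivity, fun f hf h0 => ?_⟩
  set T := ContinuousMap.toLp (E := W) 2 μ ℝ with hT
  have hs := curry_smooth _ (trR_joint hf)
  set M := C' * ∑ j, ∫ x, ‖LD (Y j) f x‖ ^ 2 ∂μ with hM
  have h1 : ∀ x, ‖DR E (fun g => T (trR hf.continuous g)) x‖ ^ 2 ≤ M := by
    intro x
    refine (h' _ (hs.clm T) x).trans (le_of_eq ?_)
    rw [hM]
    congr 1
    refine Finset.sum_congr rfl fun j _ => ?_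
    rw [LD_clm T hs, LD_trR hf, hT, norm_toLp_sq]
    exact integral_mul_right_eq_self (fun y => ‖LD (Y j) f y‖ ^ 2) x
  have h2 := h _ (√M) (hs.clm T) (fun z => Real.le_sqrt_of_sq_le (h1 z))
  have hM0 : 0 ≤ M := (sq_nonneg _).trans (h1 1)
  have hi := cont_integrable μ hs.continuous
  have h3 : ∫ g, trR hf.continuous g ∂μ = 0 := by
    ext y
    have := (ContinuousMap.evalCLM ℝ y).integral_comp_comm hi
    simp only [ContinuousMap.evalCLM_apply] at this
    rw [← this]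
    exact (integral_mul_left_eq_self f y).trans h0
  have h4 : ∫ g, (T (trR hf.continuous g) - T (trR hf.continuous 1)) ∂μ
      = - T (trR hf.continuous 1) := by
    rw [integral_sub (T.integrable_comp hi) (integrable_const _), T.integral_comp_comm hi, h3]
    simp
  have h5 := norm_integral_le_of_norm_le_const (μ := μ)
    (f := fun g => T (trR hf.continuous g) - T (trR hf.continuous 1)) (C := C * √M)
    (Eventually.of_forall fun g => by simpa using h2 g 1)
  rw [h4, norm_neg] at h5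
  have h6 : ‖T (trR hf.continuous 1)‖ ^ 2 = ∫ x, ‖f x‖ ^ 2 ∂μ := by
    rw [hT, norm_toLp_sq]
    simp [trR]
  rw [← h6, mul_assoc, ← hM]
  calc _ ≤ (C * √M) ^ 2 := by
        gcongr
        simpa using h5
    _ = _ := by rw [mul_pow, Real.sq_sqrt hM0]

variable (E G B) in
/-- The space of smooth functions. -/
def SF : Submodule ℝ (G → B) where
  carrier := {f | Sm E f}
  add_mem' := ContMDiff.add
  zero_mem' := contMDiff_const
  smul_mem' c _ hf := Sm.clm (c • ContinuousLinearMap.id ℝ B) hf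

lemma SF.sm (f : SF E G B) : Sm E f.1 := f.2

/-- Left-invariant derivative as a linear map. -/
noncomputable def LDl (X : E) : SF E G B →ₗ[ℝ] SF E G B where
  toFun f := ⟨LD X f.1, (SF.sm f).LD X⟩
  map_add' f g := Subtype.ext (LD_add f.2 g.2 X)
  map_smul' c f := Subtype.ext (funext fun x =>
    LD_clm (c • ContinuousLinearMap.id ℝ B) f.2 X x)

/-- Right-invariant derivative as a linear map. -/
noncomputable def RDl (X : E) : SF E G B →ₗ[ℝ] SF E G B where
  toFun f := ⟨RD X f.1, (SF.sm f).RD X⟩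
  map_add' f g := Subtype.ext (RD_add f.2 g.2 X)
  map_smul' c f := Subtype.ext (funext fun x =>
    RD_clm (c • ContinuousLinearMap.id ℝ B) f.2 X x)

/-- Pointwise action of a linear map. -/
def act (A : B →L[ℝ] B') : SF E G B →ₗ[ℝ] SF E G B' where
  toFun f := ⟨fun x => A (f.1 x), (SF.sm f).clm A⟩
  map_add' f g := Subtype.ext (funext fun x => by simp)
  map_smul' c f := Subtype.ext (funext fun x => by simp)

/-- A smooth function as a continuous map. -/
def toC : SF E G B →ₗ[ℝ] C(G, B) where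
  toFun f := ⟨f.1, (SF.sm f).continuous⟩
  map_add' _ _ := rfl
  map_smul' _ _ := rfl

@[simp] lemma LDl_val (X : E) (f : SF E G B) : (LDl X f).1 = LD X f.1 := rfl
@[simp] lemma RDl_val (X : E) (f : SF E G B) : (RDl X f).1 = RD X f.1 := rfl
@[simp] lemma act_val (A : B →L[ℝ] B') (f : SF E G B) (x : G) : (act A f).1 x = A (f.1 x) := rfl
@[simp] lemma toC_apply (f : SF E G B) (x : G) : toC f x = f.1 x := rfl

lemma RDl_LDl (X Y : E) (f : SF E G B) : RDl Y (LDl X f) = LDl X (RDl Y f) :=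
  Subtype.ext (funext fun x => (LD_RD_comm f.2 X Y x).symm)

lemma RDl_act (A : B →L[ℝ] B') (Y : E) (f : SF E G B) : RDl Y (act A f) = act A (RDl Y f) :=
  Subtype.ext (funext fun x => RD_clm A f.2 Y x)

lemma LDl_act (A : B →L[ℝ] B') (Y : E) (f : SF E G B) : LDl Y (act A f) = act A (LDl Y f) :=
  Subtype.ext (funext fun x => LD_clm A f.2 Y x)

variable {ι : Type*} [Fintype ι]

/-- A second order operator whose principal part is a sum of squares. -/
noncomputable def Dop (Y : ι → E) (A : ι → B →L[ℝ] B) (N : B →L[ℝ] B) :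
    SF E G B →ₗ[ℝ] SF E G B :=
  - ∑ j, LDl (Y j) ∘ₗ LDl (Y j) + ∑ j, act (A j) ∘ₗ LDl (Y j) + act N

lemma Dop_val (Y : ι → E) (A : ι → B →L[ℝ] B) (N : B →L[ℝ] B) (f : SF E G B) (x : G) :
    (Dop Y A N f).1 x
      = - ∑ j, LD (Y j) (LD (Y j) f.1) x + ∑ j, A j (LD (Y j) f.1 x) + N (f.1 x) := by
  simp [Dop, LinearMap.sum_apply, Finset.sum_apply]

lemma RDl_Dop (Y : ι → E) (A : ι → B →L[ℝ] B) (N : B →L[ℝ] B) (X : E) (f : SF E G B) :
    RDl X (Dop Y A N f) = Dop Y A N (RDl X f) := by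
  simp [Dop, LinearMap.sum_apply, RDl_LDl, RDl_act]

/-- The pointwise inner product. -/
noncomputable def ipl (f g : SF E G W) : SF E G ℝ :=
  ⟨fun x => inner ℝ (f.1 x) (g.1 x), Sm.bilin (innerSL ℝ) f.2 g.2⟩

@[simp] lemma ipl_val (f g : SF E G W) (x : G) : (ipl f g).1 x = inner ℝ (f.1 x) (g.1 x) := rfl

lemma LDl_ipl (X : E) (f g : SF E G W) : LDl X (ipl f g) = ipl (LDl X f) g + ipl f (LDl X g) :=
  Subtype.ext (funext fun x => LD_bilin (innerSL ℝ) f.2 g.2 X x)

lemma lap_sq (Y : ι → E) (A : ι → W →L[ℝ] W) (N : W →L[ℝ] W) : ∃ b ≥ 0, ∀ (f : SF E G W) x,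
    ∑ j, ‖LD (Y j) f.1 x‖ ^ 2 - ‖(Dop Y A N f).1 x‖ ^ 2 - b * ‖f.1 x‖ ^ 2
      ≤ ∑ j, (LDl (Y j) (LDl (Y j) (ipl f f))).1 x := by
  refine ⟨1 + ∑ j, ‖A j‖ ^ 2 + 2 * ‖N‖, by positivity, fun f x => ?_⟩
  have e : ∑ j, (LDl (Y j) (LDl (Y j) (ipl f f))).1 x = 2 * ∑ j, ‖LD (Y j) f.1 x‖ ^ 2
      + 2 * (∑ j, inner ℝ (f.1 x) (A j (LD (Y j) f.1 x)) + inner ℝ (f.1 x) (N (f.1 x))
        - inner ℝ (f.1 x) ((Dop Y A N f).1 x)) := by
    simp only [LDl_ipl, map_add, Submodule.coe_add, Pi.add_apply, ipl_val, LDl_val, Dop_val,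
      inner_add_right, inner_neg_right, inner_sum, Finset.sum_add_distrib,
      real_inner_self_eq_norm_sq, real_inner_comm (f.1 x)]
    ring
  have h1 : ∀ j, -(‖LD (Y j) f.1 x‖ ^ 2 + ‖A j‖ ^ 2 * ‖f.1 x‖ ^ 2)
      ≤ 2 * inner ℝ (f.1 x) (A j (LD (Y j) f.1 x)) := by
    intro j
    have h2 := (abs_le.1 ((abs_real_inner_le_norm (f.1 x) (A j (LD (Y j) f.1 x))).trans
      (mul_le_mul_of_nonneg_left ((A j).le_opNorm _) (norm_nonneg _)))).1
    nlinarith [sq_nonneg (‖LD (Y j) f.1 x‖ - ‖A j‖ * ‖f.1 x‖)]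
  have h2 := Finset.sum_le_sum fun j (_ : j ∈ Finset.univ) => h1 j
  have h3 := (abs_le.1 ((abs_real_inner_le_norm (f.1 x) (N (f.1 x))).trans
      (mul_le_mul_of_nonneg_left (N.le_opNorm _) (norm_nonneg _)))).1
  have h4 := real_inner_le_norm (f.1 x) ((Dop Y A N f).1 x)
  rw [Finset.sum_neg_distrib, Finset.sum_add_distrib, ← Finset.sum_mul, ← Finset.mul_sum] at h2
  rw [e]
  nlinarith [sq_nonneg (‖f.1 x‖ - ‖(Dop Y A N f).1 x‖)]

/-- First order jets. -/
noncomputable def jet (Y : ι → E) : SF E G B →ₗ[ℝ] C(G, B) × (ι → C(G, B)) :=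
  toC.prod (LinearMap.pi fun j => toC ∘ₗ RDl (Y j))

lemma le_jet (Y : ι → E) (f : SF E G B) (x : G) : ‖f.1 x‖ ≤ ‖jet Y f‖ :=
  ((toC f).norm_coe_le_norm x).trans (norm_fst_le (jet Y f))

lemma le_jet' (Y : ι → E) (f : SF E G B) (x : G) (j : ι) : ‖RD (Y j) f.1 x‖ ≤ ‖jet Y f‖ :=
  (((toC (RDl (Y j) f)).norm_coe_le_norm x).trans (norm_le_pi_norm (jet Y f).2 j)).trans
    (norm_snd_le (jet Y f))

lemma bernstein (Y : ι → E) (hY : Submodule.span ℝ (range Y) = ⊤) (A : ι → W →L[ℝ] W)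
    (N : W →L[ℝ] W) : ∃ C ≥ 0, ∀ (f : SF E G W) x,
      ‖DR E f.1 x‖ ^ 2 ≤ C * (‖jet Y (Dop Y A N f)‖ ^ 2 + ‖toC f‖ ^ 2) := by
  obtain ⟨b, hb, h1⟩ := lap_sq (G := G) Y A N
  obtain ⟨C1, hC1, h2⟩ := exists_DR_bound (G := G) (B := W) Y hY
  obtain ⟨C2, hC2, h3⟩ := exists_span_bound (B := W) Y hY
  set K := (∑ j, ‖Y j‖ ^ 2) * C1 * (b + 1) with hK
  have hK0 : 0 ≤ K := by positivity
  refine ⟨C2 * (Fintype.card ι + K * (b + 1)), by positivity, fun f x => ?_⟩
  set H := ‖jet Y (Dop Y A N f)‖ with hH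
  set S := ‖toC f‖ with hS
  let w : SF E G ℝ := ∑ k, ipl (RDl (Y k) f) (RDl (Y k) f) + K • ipl f f
  have hw : ∀ y, w.1 y = ∑ k, ‖RD (Y k) f.1 y‖ ^ 2 + K * ‖f.1 y‖ ^ 2 := by
    intro y
    simp [w, Finset.sum_apply]
  obtain ⟨x0, -, hx0⟩ := isCompact_univ.exists_isMaxOn univ_nonempty
    (SF.sm w).continuous.continuousOn
  have h4 : ∑ j, (LDl (Y j) (LDl (Y j) w)).1 x0 ≤ 0 :=
    Finset.sum_nonpos fun j _ => LD_LD_nonpos w.2 (fun y => hx0 (mem_univ y)) (Y j)
  have h5 : ∑ j, (LDl (Y j) (LDl (Y j) w)).1 x0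
      = ∑ k, ∑ j, (LDl (Y j) (LDl (Y j) (ipl (RDl (Y k) f) (RDl (Y k) f)))).1 x0
        + K * ∑ j, (LDl (Y j) (LDl (Y j) (ipl f f))).1 x0 := by
    rw [Finset.sum_comm, Finset.mul_sum, ← Finset.sum_add_distrib]
    refine Finset.sum_congr rfl fun j _ => ?_
    simp only [w, map_add, map_sum, map_smul, Submodule.coe_add, Submodule.coe_sum,
      Submodule.coe_smul, Pi.add_apply, Finset.sum_apply, Pi.smul_apply, smul_eq_mul]
  have h6 : ∀ k, -H ^ 2 - b * ‖RD (Y k) f.1 x0‖ ^ 2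
      ≤ ∑ j, (LDl (Y j) (LDl (Y j) (ipl (RDl (Y k) f) (RDl (Y k) f)))).1 x0 := by
    intro k
    refine le_trans ?_ (h1 _ x0)
    have : ‖(Dop Y A N (RDl (Y k) f)).1 x0‖ ^ 2 ≤ H ^ 2 := by
      rw [← RDl_Dop]
      gcongr
      exact le_jet' Y _ x0 k
    have : 0 ≤ ∑ j, ‖LD (Y j) (RDl (Y k) f).1 x0‖ ^ 2 := by positivity
    simp only [RDl_val] at *
    linarith
  have h7 := Finset.sum_le_sum fun k (_ : k ∈ Finset.univ) => h6 k
  rw [Finset.sum_sub_distrib, ← Finset.mul_sum, Finset.sum_const, Finset.card_univ,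
    nsmul_eq_mul] at h7
  have h8 : ∑ k, ‖RD (Y k) f.1 x0‖ ^ 2
      ≤ (∑ j, ‖Y j‖ ^ 2) * C1 * ∑ j, ‖LD (Y j) f.1 x0‖ ^ 2 := by
    rw [mul_assoc, Finset.sum_mul]
    refine Finset.sum_le_sum fun k _ => ?_
    calc _ ≤ (‖DR E f.1 x0‖ * ‖Y k‖) ^ 2 := by
          gcongr
          exact (DR E f.1 x0).le_opNorm _
      _ ≤ _ := by
          rw [mul_pow, mul_comm]
          gcongr
          exact h2 _ f.2 x0
  have h9 := mul_le_mul_of_nonneg_left (h1 f x0) hK0
  have h10 : ‖(Dop Y A N f).1 x0‖ ^ 2 ≤ H ^ 2 := by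
    gcongr
    exact le_jet Y _ x0
  have h11 : ‖f.1 x0‖ ^ 2 ≤ S ^ 2 := by
    gcongr
    exact (toC f).norm_coe_le_norm x0
  have h12 : w.1 x ≤ w.1 x0 := hx0 (mem_univ x)
  rw [hw, hw] at h12
  refine (h3 _).trans ?_
  rw [mul_assoc]
  gcongr
  simp only [DR_apply]
  have h13 := mul_le_mul_of_nonneg_left h8 (show 0 ≤ b + 1 by positivity)
  have h14 := mul_le_mul_of_nonneg_left h10 hK0
  have h15 := mul_le_mul_of_nonneg_left h11 (show 0 ≤ K * (b + 1) by positivity)
  have h16 : 0 ≤ K * ‖f.1 x‖ ^ 2 := by positivity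
  have h17 : 0 ≤ K * b * H ^ 2 := by positivity
  have h18 : 0 ≤ (Fintype.card ι : ℝ) * S ^ 2 := by positivity
  have h19 : (b + 1) * ((∑ j, ‖Y j‖ ^ 2) * C1 * ∑ j, ‖LD (Y j) f.1 x0‖ ^ 2)
      = K * ∑ j, ‖LD (Y j) f.1 x0‖ ^ 2 := by rw [hK]; ring
  linarith

lemma sup_le_jet (Y : ι → E) (hY : Submodule.span ℝ (range Y) = ⊤) (A : ι → W →L[ℝ] W)
    (N : W →L[ℝ] W) {c : ℝ} (hc : 0 < c) : ∃ C ≥ 0, ∀ f : SF E G W,
      c * ∫ x, ‖f.1 x‖ ^ 2 ∂μ ≤ ∫ x, inner ℝ (f.1 x) ((Dop Y A N f).1 x) ∂μ →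
      ‖f.1 1‖ ≤ C * ‖jet Y (Dop Y A N f)‖ := by
  obtain ⟨C, hC, h1⟩ := bernstein (G := G) Y hY A N
  obtain ⟨C', hC', h2⟩ := sup_bound (E := E) (B := W) μ (1 / (2 * (C + 1))) (by positivity)
  refine ⟨√(2 * C' / c ^ 2 + 1), by positivity, fun f hf => ?_⟩
  set H := ‖jet Y (Dop Y A N f)‖ with hH
  have hcont := (SF.sm f).continuous
  have h3 : ∫ x, inner ℝ (f.1 x) ((Dop Y A N f).1 x) ∂μ
      ≤ ∫ x, (c / 2 * ‖f.1 x‖ ^ 2 + H ^ 2 / (2 * c)) ∂μ := by
    refine integral_mono (cont_integrable μ (SF.sm (ipl _ _)).continuous)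
      (cont_integrable μ (by fun_prop)) fun x => ?_
    have h4 := (real_inner_le_norm (f.1 x) ((Dop Y A N f).1 x)).trans
      (mul_le_mul_of_nonneg_left (le_jet Y _ x) (norm_nonneg _))
    have h5 : c / 2 * ‖f.1 x‖ ^ 2 + H ^ 2 / (2 * c) - ‖f.1 x‖ * H
        = (c * ‖f.1 x‖ - H) ^ 2 / (2 * c) := by field_simp; ring
    have h6 : 0 ≤ (c * ‖f.1 x‖ - H) ^ 2 / (2 * c) := by positivity
    simp only
    linarith
  rw [integral_add (cont_integrable μ (by fun_prop)) (integrable_const _), integral_const_mul,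
    integral_const, probReal_univ, one_smul] at h3
  have h4 : ∫ x, ‖f.1 x‖ ^ 2 ∂μ ≤ H ^ 2 / c ^ 2 := by
    have : c / 2 * ∫ x, ‖f.1 x‖ ^ 2 ∂μ ≤ c / 2 * (H ^ 2 / c ^ 2) := by
      have : c / 2 * (H ^ 2 / c ^ 2) = H ^ 2 / (2 * c) := by field_simp
      linarith
    exact le_of_mul_le_mul_left this (by positivity)
  obtain ⟨x0, -, hx0⟩ := isCompact_univ.exists_isMaxOn univ_nonempty hcont.norm.continuousOn
  have h5 : ‖toC f‖ ≤ ‖f.1 x0‖ :=
    (ContinuousMap.norm_le _ (norm_nonneg _)).2 fun y => hx0 (mem_univ y)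
  have h6 := h2 f.1 _ f.2 (h1 f) x0
  have h7 : 1 / (2 * (C + 1)) * (C * (H ^ 2 + ‖toC f‖ ^ 2)) ≤ (H ^ 2 + ‖f.1 x0‖ ^ 2) / 2 := by
    calc _ ≤ 1 / (2 * (C + 1)) * ((C + 1) * (H ^ 2 + ‖f.1 x0‖ ^ 2)) := by gcongr; linarith
      _ = _ := by field_simp
  have h8 := mul_le_mul_of_nonneg_left h4 hC'
  have h9 : ‖f.1 1‖ ^ 2 ≤ ‖f.1 x0‖ ^ 2 := by
    gcongr
    exact hx0 (mem_univ 1)
  refine (pow_le_pow_iff_left₀ (norm_nonneg _) (by positivity) two_ne_zero).1 ?_
  rw [mul_pow, Real.sq_sqrt (by positivity)]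
  have : (2 * C' / c ^ 2 + 1) * H ^ 2 = 2 * (C' * (H ^ 2 / c ^ 2)) + H ^ 2 := by ring
  linarith

lemma exists_ext {V X : Type*} [AddCommGroup V] [Module ℝ V] [NormedAddCommGroup X]
    [NormedSpace ℝ X] (T : V →ₗ[ℝ] X) (l : V →ₗ[ℝ] W) (C : ℝ) (h : ∀ v, ‖l v‖ ≤ C * ‖T v‖) :
    ∃ F : X →L[ℝ] W, ∀ v, F (T v) = l v := by
  have hk : LinearMap.ker T ≤ LinearMap.ker l := fun v hv => by
    have := h v
    rw [LinearMap.mem_ker.1 hv] at this
    simpa using this
  let l' : LinearMap.range T →ₗ[ℝ] W :=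
    (LinearMap.ker T).liftQ l hk ∘ₗ T.quotKerEquivRange.symm.toLinearMap
  have hl : ∀ v, l' ⟨T v, LinearMap.mem_range_self T v⟩ = l v := fun v => by
    simp [l', LinearMap.quotKerEquivRange_symm_apply_image]
  obtain ⟨F, hF⟩ := (l'.mkContinuous C (by
    rintro ⟨_, v, rfl⟩
    rw [hl]
    exact h v)).exist_extension_of_finiteDimensional_range
  refine ⟨F, fun v => ?_⟩
  rw [← hl]
  exact (DFunLike.congr_fun hF ⟨T v, LinearMap.mem_range_self T v⟩).symm

end Pool.Agent.MP_f244e7_gt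

end MrgPart0

-- ======== part 1: formerly Pool.Agent.MP_f244e7_gt.Solve2
section MrgPart1

/-! Solvability of coercive invariant elliptic operators on a compact Lie group. -/

set_option maxSynthPendingDepth 3
set_option linter.unusedSectionVars false

namespace Pool.Agent.MP_f244e7_gt

open scoped Manifold ContDiff Topology
open Function Filter Set MeasureTheory

variable {E : Type*} [NormedAddCommGroup E] [NormedSpace ℝ E] [FiniteDimensional ℝ E]
  {G : Type*} [Group G] [TopologicalSpace G] [ChartedSpace E G] [LieGroup 𝓘(ℝ, E) ∞ G]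
  [IsTopologicalGroup G] [CompactSpace G] [T2Space G] [MeasurableSpace G] [BorelSpace G]
  (μ : Measure G) [BiHaar μ]
  {B : Type*} [NormedAddCommGroup B] [NormedSpace ℝ B]
  {B' : Type*} [NormedAddCommGroup B'] [NormedSpace ℝ B']
  {W : Type*} [NormedAddCommGroup W] [InnerProductSpace ℝ W] [FiniteDimensional ℝ W]
  {ι : Type*} [Fintype ι]

lemma inv_deriv {f : G → B} (hf : Sm E f) (X : E) :
    fderiv ℝ (fun z => f (kap G z)⁻¹) (org E G) X
      = - fderiv ℝ (fun z => f (kap G z)) (org E G) X := by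
  have h : DifferentiableAt ℝ (fun p : E × E => f (kap G p.1 * (kap G p.2)⁻¹))
      (org E G, org E G) := by
    refine (contDiffAt_of_prod ((hf _).comp _ ?_)).differentiableAt (by simp)
    exact (kap_smoothAt_org.comp (org E G, org E G) contMDiffAt_fst).mul
      (kap_smoothAt_org.comp (org E G, org E G) contMDiffAt_snd).inv
  have h1 := (h.hasFDerivAt.comp (f := fun z : E => (z, org E G)) (org E G)
    (hasFDerivAt_prodMk_left (𝕜 := ℝ) (org E G) (org E G))).fderiv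
  have h2 := (h.hasFDerivAt.comp (org E G)
    (hasFDerivAt_prodMk_right (𝕜 := ℝ) (org E G) (org E G))).fderiv
  have h3 := (h.hasFDerivAt.comp (f := fun z : E => (z, z)) (org E G)
    ((hasFDerivAt_id _).prodMk (hasFDerivAt_id _))).fderiv
  simp only [Function.comp_def, kap_org, inv_one, mul_one, one_mul, mul_inv_cancel] at h1 h2 h3
  rw [h1, h2, eq_neg_iff_add_eq_zero]
  have h4 := congrArg (fun T : E →L[ℝ] B => T X) h3
  simp only [fderiv_fun_const, Pi.zero_apply, ContinuousLinearMap.zero_apply,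
    ContinuousLinearMap.comp_apply, ContinuousLinearMap.prod_apply,
    ContinuousLinearMap.id_apply] at h4
  simp only [ContinuousLinearMap.comp_apply, ← map_add]
  rw [h4]
  simp

/-- Jointly smooth families. -/
def JS (F : G → SF E G B) : Prop :=
  ContMDiff (𝓘(ℝ, E).prod 𝓘(ℝ, E)) 𝓘(ℝ, B) ∞ (fun p : G × G => (F p.1).1 p.2)

lemma JS.dF_aux {F : G → SF E G B} (hF : JS F) (X : E) :
    ContMDiff (𝓘(ℝ, E).prod 𝓘(ℝ, E)) 𝓘(ℝ, B) ∞
      (fun p : G × G => LD X (fun g => (F g).1 p.2) p.1) :=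
  (LD_param_smooth (J := 𝓘(ℝ, E)) X (fun y g => (F g).1 y)
    (hF.comp (contMDiff_snd.prodMk contMDiff_fst))).comp (contMDiff_snd.prodMk contMDiff_fst)

/-- The derivative of a family with respect to the parameter. -/
noncomputable def JS.dF {F : G → SF E G B} (hF : JS F) (X : E) (g : G) : SF E G B :=
  ⟨fun y => LD X (fun g => (F g).1 y) g,
    (hF.dF_aux X).comp (contMDiff_const.prodMk contMDiff_id)⟩

lemma JS.dF_JS {F : G → SF E G B} (hF : JS F) (X : E) : JS (hF.dF X) := hF.dF_aux X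

lemma JS.RDl {F : G → SF E G B} (hF : JS F) (X : E) : JS (fun g => RDl X (F g)) :=
  RD_param_smooth (J := 𝓘(ℝ, E)) X (fun g => (F g).1) hF

lemma JS.LDl {F : G → SF E G B} (hF : JS F) (X : E) : JS (fun g => LDl X (F g)) :=
  LD_param_smooth (J := 𝓘(ℝ, E)) X (fun g => (F g).1) hF

lemma JS.comm {F : G → SF E G B} (hF : JS F) (X Z : E) (g : G) {b : E → G}
    (hb : ContMDiffAt 𝓘(ℝ, E) 𝓘(ℝ, E) ∞ b (org E G)) :
    LD X (fun g => fderiv ℝ (fun w => (F g).1 (b w)) (org E G) Z) g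
      = fderiv ℝ (fun w => (hF.dF X g).1 (b w)) (org E G) Z := by
  have h : ContDiffAt ℝ ∞ (fun p : E × E => (F (g * kap G p.1)).1 (b p.2))
      (org E G, org E G) := by
    apply contDiffAt_of_prod
    exact (hF _).comp (org E G, org E G)
      ((contMDiffAt_const.mul (kap_smoothAt_org.comp (org E G, org E G) contMDiffAt_fst)).prodMk
        (hb.comp (org E G, org E G) contMDiffAt_snd))
  exact fderiv_fderiv_comm h X Z

lemma JS.dF_RDl {F : G → SF E G B} (hF : JS F) (X Z : E) (g : G) :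
    (hF.RDl Z).dF X g = Pool.Agent.MP_f244e7_gt.RDl Z (hF.dF X g) :=
  Subtype.ext (funext fun _ => hF.comm X Z g (kap_smoothAt_org.mul contMDiffAt_const))

lemma JS.dF_LDl {F : G → SF E G B} (hF : JS F) (X Z : E) (g : G) :
    (hF.LDl Z).dF X g = Pool.Agent.MP_f244e7_gt.LDl Z (hF.dF X g) :=
  Subtype.ext (funext fun _ => hF.comm X Z g (contMDiffAt_const.mul kap_smoothAt_org))

lemma JS.toC_smooth {F : G → SF E G B} (hF : JS F) : Sm E (fun g => toC (F g)) :=
  curry_smooth _ hF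

lemma JS.LD_toC {F : G → SF E G B} (hF : JS F) (X : E) (g : G) :
    LD X (fun g => toC (F g)) g = toC (hF.dF X g) := by
  ext y
  exact LD_curry (fun g => toC (F g)) hF X g y

lemma JS.jet_smooth {F : G → SF E G B} (hF : JS F) (Y : ι → E) : Sm E (fun g => jet Y (F g)) :=
  hF.toC_smooth.prodMk_space (contMDiff_pi_space.2 fun j => (hF.RDl (Y j)).toC_smooth)

lemma JS.LD_jet {F : G → SF E G B} (hF : JS F) (Y : ι → E) (X : E) (g : G) :
    LD X (fun g => jet Y (F g)) g = jet Y (hF.dF X g) := by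
  refine Prod.ext ?_ (funext fun j => ?_)
  · exact (LD_clm (ContinuousLinearMap.fst ℝ _ _) (hF.jet_smooth Y) X g).symm.trans
      (hF.LD_toC X g)
  · refine (LD_clm ((ContinuousLinearMap.proj j).comp (ContinuousLinearMap.snd ℝ _ _))
      (hF.jet_smooth Y) X g).symm.trans (((hF.RDl (Y j)).LD_toC X g).trans ?_)
    rw [hF.dF_RDl]
    rfl

/-- The family of functions `y ↦ f (g * y⁻¹)`. -/
def trI (f : SF E G B) (g : G) : SF E G B :=
  ⟨fun y => f.1 (g * y⁻¹), (SF.sm f).comp (contMDiff_const.mul contMDiff_id.inv)⟩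

lemma trI_JS (f : SF E G B) : JS (trI f) :=
  (SF.sm f).comp (contMDiff_fst.mul contMDiff_snd.inv)

lemma dF_trI (f : SF E G B) (X : E) (g : G) : (trI_JS f).dF X g = - LDl X (trI f g) := by
  refine Subtype.ext (funext fun y => ?_)
  have h := inv_deriv (f := fun z => f.1 (g * z * y⁻¹))
    ((SF.sm f).comp ((contMDiff_const.mul contMDiff_id).mul contMDiff_const)) X
  simp only [JS.dF, trI, LD, Submodule.coe_neg, Pi.neg_apply, LDl_val, mul_inv_rev,
    ← mul_assoc, h, neg_neg]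

/-- Action of a linear map on jets. -/
noncomputable def jetMap (ι : Type*) [Fintype ι] (P : B →L[ℝ] B') :
    (C(G, B) × (ι → C(G, B))) →L[ℝ] (C(G, B') × (ι → C(G, B'))) :=
  (P.compLeftContinuous ℝ G).prodMap (ContinuousLinearMap.pi fun j =>
    (P.compLeftContinuous ℝ G).comp (ContinuousLinearMap.proj j))

lemma jetMap_jet (Y : ι → E) (P : B →L[ℝ] B') (f : SF E G B) :
    jetMap ι P (jet Y f) = jet Y (act P f) := by
  refine Prod.ext rfl (funext fun j => ?_)
  change _ = toC (RDl (Y j) (act P f))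
  rw [RDl_act]
  rfl

lemma integral_ipl_LDl (X : E) (f g : SF E G W) :
    ∫ x, inner ℝ (LD X f.1 x) (g.1 x) ∂μ = - ∫ x, inner ℝ (f.1 x) (LD X g.1 x) ∂μ := by
  have h := integral_LD μ (SF.sm (ipl f g)) X
  rw [← LDl_val, LDl_ipl, Submodule.coe_add] at h
  simp only [Pi.add_apply] at h
  rw [integral_add (cont_integrable μ (SF.sm _).continuous)
    (cont_integrable μ (SF.sm _).continuous)] at h
  exact eq_neg_of_add_eq_zero_left h

/-- The mean as a linear map. -/
noncomputable def mean : SF E G B →ₗ[ℝ] B := (intC μ).toLinearMap ∘ₗ toC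

lemma mean_apply (f : SF E G B) : mean μ f = ∫ x, f.1 x ∂μ := rfl

lemma mean_LDl (X : E) (f : SF E G B) : mean μ (LDl X f) = 0 := integral_LD μ f.2 X

lemma mean_act [CompleteSpace B] [CompleteSpace B'] (A : B →L[ℝ] B') (f : SF E G B) :
    mean μ (act A f) = A (mean μ f) :=
  A.integral_comp_comm (cont_integrable μ (SF.sm f).continuous)

lemma mean_Dop_adj [CompleteSpace W] (Y : ι → E) (A : ι → W →L[ℝ] W) (N : W →L[ℝ] W)
    (f : SF E G W) :
    mean μ (ipl f (Dop Y (fun j => - ContinuousLinearMap.adjoint (A j))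
      (ContinuousLinearMap.adjoint N) f)) = mean μ (ipl f (Dop Y A N f)) := by
  have e : ∀ (A : ι → W →L[ℝ] W) (N : W →L[ℝ] W), ipl f (Dop Y A N f)
      = - ∑ j, ipl f (LDl (Y j) (LDl (Y j) f)) + ∑ j, ipl f (act (A j) (LDl (Y j) f))
        + ipl f (act N f) := by
    intro A N
    refine Subtype.ext (funext fun x => ?_)
    simp [Dop_val, inner_add_right, inner_sum, Finset.sum_apply]
  rw [e, e]
  simp only [map_add, map_sum]
  congr 1
  · congr 1
    refine Finset.sum_congr rfl fun j _ => ?_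
    have h := integral_ipl_LDl μ (Y j) f (act (A j) f)
    rw [← LDl_val (Y j) (act (A j) f), LDl_act] at h
    simp only [mean_apply, ipl_val, act_val, ContinuousLinearMap.neg_apply, inner_neg_right,
      integral_neg, ContinuousLinearMap.adjoint_inner_right, LDl_val] at h ⊢
    rw [neg_eq_iff_eq_neg, ← h]
    simp only [real_inner_comm]
  · simp only [mean_apply, ipl_val, act_val, ContinuousLinearMap.adjoint_inner_right,
      real_inner_comm]

theorem solve (Y : ι → E) (hY : Submodule.span ℝ (range Y) = ⊤) (A : ι → W →L[ℝ] W)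
    (N : W →L[ℝ] W) {c : ℝ} (hc : 0 < c)
    (h : ∀ f : SF E G W, mean μ f = 0 →
      c * ∫ x, ‖f.1 x‖ ^ 2 ∂μ ≤ mean μ (ipl f (Dop Y A N f)))
    (f : SF E G W) (hf : mean μ f = 0) : ∃ u : SF E G W, mean μ u = 0 ∧ Dop Y A N u = f := by
  have := FiniteDimensional.complete ℝ W
  set A' := fun j => - ContinuousLinearMap.adjoint (A j) with hA'
  set N' := ContinuousLinearMap.adjoint N with hN'
  obtain ⟨C, -, hC⟩ := sup_le_jet μ Y hY A' N' hc
  obtain ⟨T, hT⟩ := exists_ext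
    ((jet Y ∘ₗ Dop Y A' N') ∘ₗ (LinearMap.ker (mean (E := E) (B := W) μ)).subtype)
    (((ContinuousMap.evalCLM ℝ (1 : G)).toLinearMap ∘ₗ toC) ∘ₗ
      (LinearMap.ker (mean (E := E) (B := W) μ)).subtype) C fun v =>
      hC v.1 ((h v.1 v.2).trans_eq (mean_Dop_adj μ Y A N v.1).symm)
  have hT' : ∀ v : SF E G W, mean μ v = 0 → T (jet Y (Dop Y A' N' v)) = v.1 1 :=
    fun v hv => hT ⟨v, hv⟩
  let e := stdOrthonormalBasis ℝ W
  let P : W → W → W →L[ℝ] W := fun a w => (innerSL ℝ a).smulRight w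
  let Θ : (C(G, W) × (ι → C(G, W))) →L[ℝ] W :=
    ∑ d, ∑ b, P (e b) (e d) ∘L T ∘L jetMap ι (P (e b) (e d))
  have hΘ : ∀ (w : W) (v : SF E G W),
      inner ℝ w (Θ (jet Y v)) = ∑ b, inner ℝ (e b) (T (jet Y (act (P (e b) w) v))) := by
    intro w v
    have h1 : ∀ b, act (P (e b) w) v = ∑ d, inner ℝ (e d) w • act (P (e b) (e d)) v := by
      intro b
      refine Subtype.ext (funext fun x => ?_)
      simp only [P, act_val, ContinuousLinearMap.smulRight_apply, Submodule.coe_sum,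
        Finset.sum_apply, Submodule.coe_smul, Pi.smul_apply, smul_comm (inner ℝ (e _) w),
        ← Finset.smul_sum, e.sum_repr']
    simp only [Θ, ContinuousLinearMap.sum_apply, ContinuousLinearMap.comp_apply, jetMap_jet, h1,
      map_sum, map_smul, inner_sum, inner_smul_right]
    rw [Finset.sum_comm]
    simp only [P, ContinuousLinearMap.smulRight_apply, innerSL_apply_apply, inner_smul_right,
      mul_comm, real_inner_comm w]
  have key : ∀ v : SF E G W, mean μ v = 0 →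
      - ∑ j, Θ (jet Y (LDl (Y j) (LDl (Y j) v))) + ∑ j, A j (Θ (jet Y (- LDl (Y j) v)))
        + N (Θ (jet Y v)) = v.1 1 := by
    intro v hv
    refine ext_inner_left ℝ fun w => ?_
    have h1 : ∀ b, Dop Y A' N' (act (P (e b) w) v)
        = - ∑ j, act (P (e b) w) (LDl (Y j) (LDl (Y j) v))
          + ∑ j, act (P (e b) (ContinuousLinearMap.adjoint (A j) w)) (- LDl (Y j) v)
          + act (P (e b) (N' w)) v := by
      intro b
      simp only [Dop, LinearMap.add_apply, LinearMap.neg_apply, LinearMap.sum_apply,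
        LinearMap.comp_apply, LDl_act]
      refine Subtype.ext (funext fun x => ?_)
      simp [P, A', Finset.sum_apply]
    have h2 : ∑ b, inner ℝ (e b) (T (jet Y (Dop Y A' N' (act (P (e b) w) v))))
        = inner ℝ w (v.1 1) := by
      rw [← e.sum_inner_mul_inner w]
      refine Finset.sum_congr rfl fun b _ => ?_
      rw [hT' _ (by rw [mean_act, hv, map_zero])]
      simp [P, inner_smul_right, mul_comm, real_inner_comm w]
    rw [← h2]
    simp only [h1, inner_add_right, inner_neg_right, inner_sum, map_add, map_neg, map_sum,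
      ← ContinuousLinearMap.adjoint_inner_left, hΘ, Finset.sum_add_distrib,
      Finset.sum_neg_distrib]
    rw [Finset.sum_comm, Finset.sum_comm (γ := ι)]
  have hs := trI_JS f
  let u : SF E G W := ⟨fun g => Θ (jet Y (trI f g)), (hs.jet_smooth Y).clm Θ⟩
  have hu1 : ∀ X, LD X u.1 = fun g => Θ (jet Y (- LDl X (trI f g))) := by
    intro X
    funext g
    rw [LD_clm Θ (hs.jet_smooth Y), hs.LD_jet, dF_trI]
  have hu2 : ∀ X g, LD X (LD X u.1) g = Θ (jet Y (LDl X (LDl X (trI f g)))) := by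
    intro X g
    have := LD_clm (-Θ) ((hs.LDl X).jet_smooth Y) X g
    rw [(hs.LDl X).LD_jet, hs.dF_LDl, dF_trI] at this
    simpa [hu1] using this
  have hu : Dop Y A N u = f := by
    refine Subtype.ext (funext fun g => ?_)
    have h0 : mean μ (trI f g) = 0 := by
      rw [← hf]
      simpa only [div_eq_mul_inv, mean_apply, trI] using integral_div_left_eq_self f.1 μ g
    rw [Dop_val]
    simp only [hu2]
    simp only [hu1]
    simpa [trI, u] using key _ h0
  let m : SF E G W := ⟨fun _ => mean μ u, contMDiff_const⟩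
  have hm : ∀ X, LDl X m = 0 := fun X => Subtype.ext (LD_const X _)
  have h1 : N (mean μ u) = 0 := by
    rw [← hf, ← hu]
    simp [Dop, LinearMap.sum_apply, mean_LDl, mean_act]
  refine ⟨u - m, ?_, ?_⟩
  · rw [map_sub, mean_apply μ m]
    simp [m]
  · rw [map_sub, hu, sub_eq_self]
    simp only [Dop, LinearMap.add_apply, LinearMap.neg_apply, LinearMap.sum_apply,
      LinearMap.comp_apply, hm, map_zero, Finset.sum_const_zero, neg_zero, zero_add]
    exact Subtype.ext (funext fun _ => h1)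

end Pool.Agent.MP_f244e7_gt

end MrgPart1

-- ======== part 2: formerly Pool.Agent.MP_f244e7_gt.Ops
section MrgPart2

/-! The algebra of adjointable operators on smooth functions of mean zero. -/

set_option maxSynthPendingDepth 3
set_option linter.unusedSectionVars false

namespace Pool.Agent.MP_f244e7_gt

open scoped Manifold ContDiff Topology TensorProduct
open Function Filter Set MeasureTheory

section adj
variable (M : Type*) [NormedAddCommGroup M] [InnerProductSpace ℂ M]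

/-- Operators having an adjoint. -/
def Adj : Subalgebra ℂ (Module.End ℂ M) where
  carrier := {P | ∃ Q : Module.End ℂ M, ∀ x y, inner ℂ (P x) y = inner ℂ x (Q y)}
  mul_mem' := by
    rintro P P' ⟨Q, h⟩ ⟨Q', h'⟩
    exact ⟨Q' * Q, fun x y => by simp [h, h']⟩
  add_mem' := by
    rintro P P' ⟨Q, h⟩ ⟨Q', h'⟩
    exact ⟨Q + Q', fun x y => by simp [h, h', inner_add_left, inner_add_right]⟩
  algebraMap_mem' c := ⟨algebraMap ℂ _ (starRingEnd ℂ c), fun x y => by
    simp [inner_smul_left, inner_smul_right, mul_comm]⟩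

variable {M}

noncomputable instance : Star (Adj M) where
  star P := ⟨P.2.choose, P.1, fun x y => by
    rw [← inner_conj_symm, ← P.2.choose_spec, inner_conj_symm]⟩

lemma Adj.spec (P : Adj M) (x y : M) : inner ℂ (P.1 x) y = inner ℂ x ((star P).1 y) :=
  P.2.choose_spec x y

lemma Adj.star_eq {P Q : Adj M} (h : ∀ x y, inner ℂ (P.1 x) y = inner ℂ x (Q.1 y)) :
    star P = Q :=
  Subtype.ext (LinearMap.ext fun y => ext_inner_left ℂ fun x => by rw [← Adj.spec, h])

noncomputable instance : StarRing (Adj M) where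
  star_involutive P := Adj.star_eq fun x y => by
    rw [← inner_conj_symm, ← Adj.spec, inner_conj_symm]
  star_mul P Q := Adj.star_eq fun x y => by simp [Adj.spec]
  star_add P Q := Adj.star_eq fun x y => by simp [Adj.spec, inner_add_left, inner_add_right]

instance : StarModule ℂ (Adj M) where
  star_smul c P := Adj.star_eq fun x y => by
    simp [Adj.spec, inner_smul_left, inner_smul_right, mul_comm]

lemma Adj.isStarAct : IsStarAct (Adj M).val := fun P x y => Adj.spec P x y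

end adj

variable {E : Type*} [NormedAddCommGroup E] [NormedSpace ℝ E] [FiniteDimensional ℝ E]
  {G : Type*} [Group G] [TopologicalSpace G] [ChartedSpace E G] [LieGroup 𝓘(ℝ, E) ∞ G]
  [IsTopologicalGroup G] [CompactSpace G] [T2Space G] [MeasurableSpace G] [BorelSpace G]
  (μ : Measure G) [BiHaar μ]
  {W : Type*} [NormedAddCommGroup W] [InnerProductSpace ℂ W] [FiniteDimensional ℂ W]
  [CompleteSpace W]

variable (E W) in
/-- Smooth functions of mean zero. -/
def SZ : Submodule ℂ (G → W) where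
  carrier := {f | Sm E f ∧ ∫ x, f x ∂μ = 0}
  add_mem' {f g} hf hg := ⟨hf.1.add hg.1, by
    simp only [Pi.add_apply]
    rw [integral_add (cont_integrable μ hf.1.continuous) (cont_integrable μ hg.1.continuous),
      hf.2, hg.2, add_zero]⟩
  zero_mem' := ⟨contMDiff_const, by simp⟩
  smul_mem' c f hf := ⟨Sm.clm ((c • ContinuousLinearMap.id ℂ W).restrictScalars ℝ) hf.1, by
    simp only [Pi.smul_apply]
    rw [integral_smul, hf.2, smul_zero]⟩

variable (E W) in
/-- Smooth functions of mean zero, with the Hilbert norm. -/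
def MZ : Type _ := SZ E μ W

noncomputable instance : AddCommGroup (MZ E μ W) := inferInstanceAs (AddCommGroup (SZ E μ W))

noncomputable instance : Module ℂ (MZ E μ W) := inferInstanceAs (Module ℂ (SZ E μ W))

variable {μ}

/-- The underlying function. -/
def MZ.val : MZ E μ W →ₗ[ℂ] (G → W) := (SZ E μ W).subtype

lemma MZ.sm (f : MZ E μ W) : Sm E (MZ.val f) := f.2.1

lemma MZ.mean (f : MZ E μ W) : ∫ x, MZ.val f x ∂μ = 0 := f.2.2

lemma MZ.ext {f g : MZ E μ W} (h : ∀ x, MZ.val f x = MZ.val g x) : f = g :=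
  Subtype.ext (funext h)

/-- A function of mean zero. -/
def MZ.mk (f : G → W) (h1 : Sm E f) (h2 : ∫ x, f x ∂μ = 0) : MZ E μ W := ⟨f, h1, h2⟩

@[simp] lemma MZ.val_mk (f : G → W) (h1 : Sm E f) (h2 : ∫ x, f x ∂μ = 0) :
    MZ.val (MZ.mk f h1 h2) = f := rfl

/-- The class in the Hilbert space. -/
noncomputable def MZ.toL2 : MZ E μ W →ₗ[ℂ] Lp W 2 μ :=
  (ContinuousMap.toLp (E := W) 2 μ ℂ).toLinearMap ∘ₗ
    { toFun := fun f => ⟨MZ.val f, f.sm.continuous⟩
      map_add' := fun _ _ => rfl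
      map_smul' := fun _ _ => rfl }

noncomputable instance : NormedAddCommGroup (MZ E μ W) :=
  NormedAddCommGroup.induced _ _ MZ.toL2 fun _ _ h =>
    MZ.ext (DFunLike.congr_fun (ContinuousMap.toLp_injective μ h))

noncomputable instance : InnerProductSpace ℂ (MZ E μ W) := InnerProductSpace.induced MZ.toL2

lemma MZ.inner_eq (f g : MZ E μ W) :
    inner ℂ f g = ∫ x, inner ℂ (MZ.val f x) (MZ.val g x) ∂μ := by
  refine (L2.inner_def (MZ.toL2 f) (MZ.toL2 g)).trans (integral_congr_ae ?_)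
  filter_upwards [ContinuousMap.coeFn_toLp (E := W) (p := 2) (𝕜 := ℂ) μ
    ⟨MZ.val f, f.sm.continuous⟩, ContinuousMap.coeFn_toLp (E := W) (p := 2) (𝕜 := ℂ) μ
    ⟨MZ.val g, g.sm.continuous⟩] with x hf hg
  exact congrArg₂ _ hf hg

lemma MZ.re_inner (f g : MZ E μ W) :
    (inner ℂ f g).re = ∫ x, (inner ℂ (MZ.val f x) (MZ.val g x)).re ∂μ := by
  rw [MZ.inner_eq]
  exact (Complex.reCLM.integral_comp_comm
    (cont_integrable μ (f.sm.continuous.inner g.sm.continuous))).symm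

lemma MZ.norm_sq (f : MZ E μ W) : ‖f‖ ^ 2 = ∫ x, ‖MZ.val f x‖ ^ 2 ∂μ := by
  rw [← inner_self_eq_norm_sq (𝕜 := ℂ)]
  refine (MZ.re_inner f f).trans ?_
  simp only [← inner_self_eq_norm_sq (𝕜 := ℂ)]
  rfl

variable (E μ) in
/-- Pointwise action of a linear map. -/
noncomputable def actE (A : W →L[ℂ] W) : Module.End ℂ (MZ E μ W) where
  toFun f := MZ.mk (fun x => A (MZ.val f x)) (f.sm.clm (A.restrictScalars ℝ)) (by
    rw [A.integral_comp_comm (cont_integrable μ f.sm.continuous), f.mean, map_zero])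
  map_add' f g := MZ.ext fun x => by simp
  map_smul' c f := MZ.ext fun x => by simp

@[simp] lemma actE_val (A : W →L[ℂ] W) (f : MZ E μ W) (x : G) :
    MZ.val (actE E μ A f) x = A (MZ.val f x) := rfl

lemma actE_adj (A : W →L[ℂ] W) (f g : MZ E μ W) :
    inner ℂ (actE E μ A f) g = inner ℂ f (actE E μ (star A) g) := by
  simp only [MZ.inner_eq, actE_val, ContinuousLinearMap.star_eq_adjoint,
    ContinuousLinearMap.adjoint_inner_right]

variable (E μ W) in
/-- Pointwise action as an algebra map. -/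
noncomputable def actM : (W →L[ℂ] W) →ₐ[ℂ] Adj (MZ E μ W) where
  toFun A := ⟨actE E μ A, _, actE_adj A⟩
  map_one' := rfl
  map_mul' _ _ := rfl
  map_zero' := rfl
  map_add' _ _ := rfl
  commutes' _ := rfl

@[simp] lemma actM_val (A : W →L[ℂ] W) (f : MZ E μ W) (x : G) :
    MZ.val ((actM E μ W A).1 f) x = A (MZ.val f x) := rfl

lemma star_actM (A : W →L[ℂ] W) : star (actM E μ W A) = actM E μ W (star A) :=
  Adj.star_eq (actE_adj A)

variable (μ W) in
/-- Left-invariant derivatives. -/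
noncomputable def ldE (X : E) : Module.End ℂ (MZ E μ W) where
  toFun f := MZ.mk (LD X (MZ.val f)) (f.sm.LD X) (integral_LD μ f.sm X)
  map_add' f g := MZ.ext (congrFun (LD_add f.sm g.sm X))
  map_smul' c f := MZ.ext fun x =>
    LD_clm ((c • ContinuousLinearMap.id ℂ W).restrictScalars ℝ) f.sm X x

lemma ldE_adj (X : E) (f g : MZ E μ W) :
    inner ℂ (ldE μ W X f) g = inner ℂ f ((- ldE μ W X) g) := by
  let β : W →L[ℝ] W →L[ℝ] ℂ := (isBoundedBilinearMap_inner (𝕜 := ℂ)).toContinuousLinearMap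
  have h := integral_LD μ (Sm.bilin β f.sm g.sm) X
  simp only [LD_bilin β f.sm g.sm] at h
  rw [integral_add (cont_integrable μ (Sm.bilin β (f.sm.LD X) g.sm).continuous)
    (cont_integrable μ (Sm.bilin β f.sm (g.sm.LD X)).continuous)] at h
  rw [LinearMap.neg_apply, inner_neg_right, MZ.inner_eq, MZ.inner_eq]
  exact eq_neg_of_add_eq_zero_left h

variable (μ W) in
/-- Left-invariant derivatives as adjointable operators. -/
noncomputable def ldM : E →ₗ[ℝ] Adj (MZ E μ W) where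
  toFun X := ⟨ldE μ W X, _, ldE_adj X⟩
  map_add' X Y := Subtype.ext (LinearMap.ext fun f => MZ.ext fun x =>
    (DL E (MZ.val f) x).map_add X Y)
  map_smul' c X := Subtype.ext (LinearMap.ext fun f => MZ.ext fun x =>
    (DL E (MZ.val f) x).map_smul c X)

@[simp] lemma ldM_val (X : E) (f : MZ E μ W) :
    MZ.val ((ldM μ W X).1 f) = LD X (MZ.val f) := rfl

lemma star_ldM (X : E) : star (ldM μ W X) = - ldM μ W X := Adj.star_eq (ldE_adj X)

lemma ldM_lie (X Y : E) :
    ldM μ W X * ldM μ W Y - ldM μ W Y * ldM μ W X = ldM μ W (brk G X Y) :=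
  Subtype.ext (LinearMap.ext fun f => MZ.ext fun x => LD_LD_sub f.sm X Y x)

lemma ldM_comm (X : E) (A : W →L[ℂ] W) : Commute (ldM μ W X) (actM E μ W A) :=
  Subtype.ext (LinearMap.ext fun f => MZ.ext fun x => LD_clm (A.restrictScalars ℝ) f.sm X x)

lemma poincare_MZ [ConnectedSpace G] {ι : Type*} [Fintype ι] (Y : ι → E)
    (hY : Submodule.span ℝ (range Y) = ⊤) :
    ∃ C ≥ 0, ∀ f : MZ E μ W, ‖f‖ ^ 2 ≤ C * ∑ j, ‖(ldM μ W (Y j)).1 f‖ ^ 2 := by
  letI : InnerProductSpace ℝ W := InnerProductSpace.complexToReal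
  obtain ⟨C, hC, h⟩ := poincare (W := W) μ Y hY
  exact ⟨C, hC, fun f => by simpa only [MZ.norm_sq, ldM_val] using h _ f.sm f.mean⟩

lemma bijective_MZ {ι : Type*} [Fintype ι] (Y : ι → E) (hY : Submodule.span ℝ (range Y) = ⊤)
    {D : Adj (MZ E μ W)} (A : ι → W →L[ℂ] W) (N : W →L[ℂ] W)
    (hD : D + ∑ j, ldM μ W (Y j) * ldM μ W (Y j)
      = ∑ j, actM E μ W (A j) * ldM μ W (Y j) + actM E μ W N) {c : ℝ} (hc : 0 < c)
    (h : ∀ f, c * ‖f‖ ^ 2 ≤ qf (Adj _).val D f) : Bijective ((Adj _).val D) := by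
  change Bijective D.1
  letI : InnerProductSpace ℝ W := InnerProductSpace.complexToReal
  have h1 : ∀ (f : MZ E μ W) x, MZ.val (D.1 f) x = (Dop Y (fun j => (A j).restrictScalars ℝ)
      (N.restrictScalars ℝ) ⟨MZ.val f, f.sm⟩).1 x := by
    intro f x
    rw [Dop_val, eq_sub_of_add_eq hD]
    simp [LinearMap.sum_apply, Finset.sum_apply]
    abel
  constructor
  · rw [injective_iff_map_eq_zero]
    intro f hf
    have := h f
    simp only [qf, Subalgebra.coe_val, hf, inner_zero_right, Complex.zero_re] at this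
    have h2 : ‖f‖ ^ 2 ≤ 0 := by
      by_contra h3
      exact absurd this (not_le.2 (mul_pos hc (not_le.1 h3)))
    simpa using le_antisymm h2 (sq_nonneg _)
  · intro f
    obtain ⟨u, hu, hu'⟩ := solve μ Y hY (fun j => (A j).restrictScalars ℝ) (N.restrictScalars ℝ) hc
      (fun g hg => by
        have := h (MZ.mk g.1 g.2 hg)
        rw [MZ.norm_sq, qf, MZ.re_inner] at this
        simp only [Subalgebra.coe_val, h1] at this
        exact this) ⟨MZ.val f, f.sm⟩ f.mean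
    exact ⟨MZ.mk u.1 u.2 hu, MZ.ext fun x => (h1 _ x).trans (congrFun (congrArg Subtype.val hu') x)⟩

end Pool.Agent.MP_f244e7_gt

end MrgPart2

-- ======== part 3: formerly Pool.Agent.MP_f244e7_gt.Cplx
section MrgPart3

/-! The complexified Lie algebra and its action on functions. -/

set_option maxSynthPendingDepth 3
set_option linter.unusedSectionVars false

namespace Pool.Agent.MP_f244e7_gt

open scoped Manifold ContDiff Topology TensorProduct
open Function Filter Set MeasureTheory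

variable {g : Type*} [LieRing g] [LieAlgebra ℝ g]

@[simp] lemma conjC_tmul (c : ℂ) (X : g) : conjC g (c ⊗ₜ X) = (starRingEnd ℂ c) ⊗ₜ X := rfl

/-- Conjugation as a star operation. -/
noncomputable abbrev starC : StarAddMonoid (ℂ ⊗[ℝ] g) where
  star := conjC g
  star_involutive z := by
    induction z using TensorProduct.induction_on with
    | zero => simp
    | tmul c X => simp
    | add a b ha hb => simp only [map_add] at *; rw [ha, hb]
  star_add := map_add _

attribute [local instance] starC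

lemma starC_eq (z : ℂ ⊗[ℝ] g) : star z = conjC g z := rfl

@[simp] lemma starC_tmul (c : ℂ) (X : g) : star (c ⊗ₜ[ℝ] X) = (starRingEnd ℂ c) ⊗ₜ[ℝ] X := rfl

lemma starModC : StarModule ℂ (ℂ ⊗[ℝ] g) where
  star_smul c z := by
    induction z using TensorProduct.induction_on with
    | zero => simp
    | tmul a X => simp [TensorProduct.smul_tmul']
    | add a b ha hb => simp only [smul_add, star_add, ha, hb]

attribute [local instance] starModC

/-- The real part. -/
noncomputable def reL (g : Type*) [LieRing g] [LieAlgebra ℝ g] : ℂ ⊗[ℝ] g →ₗ[ℝ] g :=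
  (TensorProduct.lid ℝ g).toLinearMap ∘ₗ LinearMap.rTensor g Complex.reLm

/-- The imaginary part. -/
noncomputable def imL (g : Type*) [LieRing g] [LieAlgebra ℝ g] : ℂ ⊗[ℝ] g →ₗ[ℝ] g :=
  (TensorProduct.lid ℝ g).toLinearMap ∘ₗ LinearMap.rTensor g Complex.imLm

@[simp] lemma reL_tmul (c : ℂ) (X : g) : reL g (c ⊗ₜ X) = c.re • X := by simp [reL]

@[simp] lemma imL_tmul (c : ℂ) (X : g) : imL g (c ⊗ₜ X) = c.im • X := by simp [imL]

lemma re_add_im (z : ℂ ⊗[ℝ] g) :
    z = (1 : ℂ) ⊗ₜ[ℝ] reL g z + Complex.I • (1 : ℂ) ⊗ₜ[ℝ] imL g z := by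
  induction z using TensorProduct.induction_on with
  | zero => simp
  | tmul c X =>
    simp only [reL_tmul, imL_tmul, TensorProduct.tmul_smul, TensorProduct.smul_tmul',
      ← TensorProduct.add_tmul]
    congr 1
    simp [mul_comm Complex.I]
  | add a b ha hb =>
    simp only [map_add, TensorProduct.tmul_add, smul_add]
    linear_combination (norm := abel) ha + hb

lemma reL_star (z : ℂ ⊗[ℝ] g) : reL g (star z) = reL g z := by
  induction z using TensorProduct.induction_on with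
  | zero => simp
  | tmul c X => simp
  | add a b ha hb => simp only [star_add, map_add, ha, hb]

lemma reL_smul (c : ℂ) (z : ℂ ⊗[ℝ] g) : reL g (c • z) = c.re • reL g z - c.im • imL g z := by
  induction z using TensorProduct.induction_on with
  | zero => simp
  | tmul a X => simp [TensorProduct.smul_tmul', sub_smul, smul_smul]
  | add a b ha hb => simp only [smul_add, map_add, ha, hb]; abel

lemma imL_smul (c : ℂ) (z : ℂ ⊗[ℝ] g) : imL g (c • z) = c.re • imL g z + c.im • reL g z := by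
  induction z using TensorProduct.induction_on with
  | zero => simp
  | tmul a X => simp [TensorProduct.smul_tmul', add_smul, smul_smul]
  | add a b ha hb => simp only [smul_add, map_add, ha, hb]; abel

lemma hform_baseChange (β : LinearMap.BilinForm ℝ g) (h1 : ∀ X Y, β X Y = β Y X)
    (h2 : ∀ X Y Z, β ⁅X, Z⁆ Y + β X ⁅Y, Z⁆ = 0) : HForm (β.baseChange ℂ) where
  symm := (LinearMap.BilinForm.IsSymm.baseChange ℂ (B₂ := β) ⟨h1⟩).eq
  inv x y z := by
    induction x using TensorProduct.induction_on with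
    | zero => simp
    | add a b ha hb => simp only [add_lie, map_add, LinearMap.add_apply, ha, hb]
    | tmul a X =>
      induction y using TensorProduct.induction_on with
      | zero => simp
      | add a b ha hb => simp only [add_lie, lie_add, map_add, LinearMap.add_apply, ha, hb]
      | tmul b Y =>
        induction z using TensorProduct.induction_on with
        | zero => simp
        | add a b ha hb => simp only [lie_add, map_add, ha, hb]
        | tmul c Z =>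
          have := h2 X Z Y
          rw [← lie_skew Z, map_neg, add_neg_eq_zero] at this
          simp [this, mul_assoc]
  conj x y := by
    induction x using TensorProduct.induction_on with
    | zero => simp
    | add a b ha hb => simp only [star_add, map_add, LinearMap.add_apply, ha, hb]
    | tmul a X =>
      induction y using TensorProduct.induction_on with
      | zero => simp
      | add a b ha hb => simp only [star_add, map_add, ha, hb]
      | tmul b Y => simp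
  star_lie x y := by
    induction x using TensorProduct.induction_on with
    | zero => simp
    | add a b ha hb => simp only [star_add, add_lie, ha, hb]
    | tmul a X =>
      induction y using TensorProduct.induction_on with
      | zero => simp
      | add a b ha hb => simp only [star_add, lie_add, ha, hb]
      | tmul b Y => simp

lemma pos_baseChange (β : LinearMap.BilinForm ℝ g) (h1 : ∀ X Y, β X Y = β Y X)
    (h2 : ∀ X, X ≠ 0 → 0 < β X X) (z : ℂ ⊗[ℝ] g) (hz : z ≠ 0) :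
    0 < (β.baseChange ℂ (star z) z).re := by
  have h3 : ∀ X, 0 ≤ β X X := fun X => by
    by_cases h : X = 0
    · simp [h]
    · exact (h2 X h).le
  have h4 : (β.baseChange ℂ (star z) z).re = β (reL g z) (reL g z) + β (imL g z) (imL g z) := by
    conv_lhs => rw [re_add_im z]
    simp [star_add, star_smul]
  rw [h4]
  by_cases h : reL g z = 0
  · have : imL g z ≠ 0 := fun h' => hz (by rw [re_add_im z, h, h']; simp)
    linarith [h3 (reL g z), h2 _ this]
  · linarith [h3 (imL g z), h2 _ h]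

lemma span_re_im {σ ν : Type*} (e : σ → ℂ ⊗[ℝ] g) (u : ν → ℂ ⊗[ℝ] g) {k : ℝ} (hk : k ≠ 0)
    (h : ∀ z, ∃ a ∈ Sp e ⊔ Sp u, ∃ b ∈ Sp e ⊔ Sp u, z = a + star b) :
    Submodule.span ℝ (range (Sum.elim (fun a => reL g (e a)) (Sum.elim (fun a => imL g (e a))
      (Sum.elim (fun a => k • reL g (u a)) (fun a => k • imL g (u a)))))) = ⊤ := by
  set S := Submodule.span ℝ (range (Sum.elim (fun a => reL g (e a))
    (Sum.elim (fun a => imL g (e a))
      (Sum.elim (fun a => k • reL g (u a)) (fun a => k • imL g (u a)))))) with hS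
  let U : Submodule ℂ (ℂ ⊗[ℝ] g) :=
    { carrier := {z | reL g z ∈ S ∧ imL g z ∈ S}
      add_mem' := fun ha hb => ⟨by rw [map_add]; exact S.add_mem ha.1 hb.1,
        by rw [map_add]; exact S.add_mem ha.2 hb.2⟩
      zero_mem' := by simp
      smul_mem' := fun c z hz => ⟨by
        rw [reL_smul]; exact S.sub_mem (S.smul_mem _ hz.1) (S.smul_mem _ hz.2), by
        rw [imL_smul]; exact S.add_mem (S.smul_mem _ hz.2) (S.smul_mem _ hz.1)⟩ }
  have h1 : Sp e ⊔ Sp u ≤ U := by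
    refine sup_le (Submodule.span_le.2 ?_) (Submodule.span_le.2 ?_)
    · rintro _ ⟨a, rfl⟩
      exact ⟨Submodule.subset_span ⟨.inl a, rfl⟩, Submodule.subset_span ⟨.inr (.inl a), rfl⟩⟩
    · rintro _ ⟨a, rfl⟩
      exact ⟨(S.smul_mem_iff hk).1 (Submodule.subset_span ⟨.inr (.inr (.inl a)), rfl⟩),
        (S.smul_mem_iff hk).1 (Submodule.subset_span ⟨.inr (.inr (.inr a)), rfl⟩)⟩
  refine eq_top_iff.2 fun X _ => ?_
  obtain ⟨a, ha, b, hb, h2⟩ := h ((1 : ℂ) ⊗ₜ X)
  have h3 := congrArg (reL g) h2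
  rw [map_add, reL_star, reL_tmul, Complex.one_re, one_smul] at h3
  exact h3 ▸ S.add_mem (h1 ha).1 (h1 hb).1

lemma span_one_tmul {ι : Type*} (Y : ι → g) (hY : Submodule.span ℝ (range Y) = ⊤)
    (z : ℂ ⊗[ℝ] g) : z ∈ Sp fun j => (1 : ℂ) ⊗ₜ[ℝ] Y j := by
  have h : ∀ X : g, (1 : ℂ) ⊗ₜ[ℝ] X ∈ Sp fun j => (1 : ℂ) ⊗ₜ[ℝ] Y j := fun X =>
    (Submodule.span_le (p := ((Sp fun j => (1 : ℂ) ⊗ₜ[ℝ] Y j).restrictScalars ℝ).comap
      (TensorProduct.mk ℝ ℂ g 1))).2 (by rintro _ ⟨j, rfl⟩; exact Submodule.subset_span ⟨j, rfl⟩)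
      (hY ▸ Submodule.mem_top)
  rw [re_add_im z]
  exact Submodule.add_mem _ (h _) (Submodule.smul_mem _ _ (h _))

variable {E : Type*} [NormedAddCommGroup E] [NormedSpace ℝ E] [FiniteDimensional ℝ E]
  {G : Type*} [Group G] [TopologicalSpace G] [ChartedSpace E G] [LieGroup 𝓘(ℝ, E) ∞ G]
  [IsTopologicalGroup G] [CompactSpace G] [T2Space G] [MeasurableSpace G] [BorelSpace G]
  (μ : Measure G) [BiHaar μ]
  {W : Type*} [NormedAddCommGroup W] [InnerProductSpace ℂ W] [FiniteDimensional ℂ W]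
  [CompleteSpace W] (j : g ≃ₗ[ℝ] E)

variable (W) in
/-- The action of the complexified Lie algebra. -/
noncomputable def rhoM : ℂ ⊗[ℝ] g →ₗ[ℂ] Adj (MZ E μ W) :=
  LinearMap.liftBaseChange ℂ (ldM μ W ∘ₗ j.toLinearMap)

@[simp] lemma rhoM_tmul (c : ℂ) (X : g) : rhoM μ W j (c ⊗ₜ X) = c • ldM μ W (j X) := by
  simp [rhoM]

lemma srep_rhoM (hj : ∀ X Y, j ⁅X, Y⁆ = brk G (j X) (j Y)) {B : (ℂ ⊗[ℝ] g) →ₗ[ℂ] _ →ₗ[ℂ] ℂ}
    {ε i : (ℂ ⊗[ℝ] g) →ₗ[ℂ] (W →L[ℂ] W)} (h : SRep B ε i 0) :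
    SRep B ((actM E μ W).toLinearMap ∘ₗ ε) ((actM E μ W).toLinearMap ∘ₗ i) (rhoM μ W j) := by
  have hc : ∀ x A, Commute (rhoM μ W j x) (actM E μ W A) := by
    intro x A
    induction x using TensorProduct.induction_on with
    | zero => simp
    | tmul c X => rw [rhoM_tmul]; exact (ldM_comm _ _).smul_left _
    | add a b ha hb => rw [map_add]; exact ha.add_left hb
  refine ⟨⟨fun x z => ?_, fun x z => ?_, fun x z => ?_⟩, fun x => ?_, fun x => ?_, fun x z => ?_,
    fun x z => hc _ _, fun x z => hc _ _⟩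
  · simp only [LinearMap.comp_apply, AlgHom.toLinearMap_apply, ← map_mul, ← map_add, h.ee, map_zero]
  · simp only [LinearMap.comp_apply, AlgHom.toLinearMap_apply, ← map_mul, ← map_add, h.ii, map_zero]
  · simp only [LinearMap.comp_apply, AlgHom.toLinearMap_apply, ← map_mul, ← map_add, h.ei,
      map_smul, map_one]
  · simp only [LinearMap.comp_apply, AlgHom.toLinearMap_apply, star_actM, h.star_i]
  · induction x using TensorProduct.induction_on with
    | zero => simp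
    | tmul c X => simp [star_ldM]
    | add a b ha hb => simp only [map_add, star_add, ha, hb, neg_add]
  · induction x using TensorProduct.induction_on with
    | zero => simp
    | add a b ha hb => rw [add_lie, map_add, map_add, ← ha, ← hb]; noncomm_ring
    | tmul a X =>
      induction z using TensorProduct.induction_on with
      | zero => simp
      | add a b ha hb => rw [lie_add, map_add, map_add, ← ha, ← hb]; noncomm_ring
      | tmul b Y =>
        simp only [rhoM_tmul, LieAlgebra.ExtendScalars.bracket_tmul, hj, ← ldM_lie, smul_sub,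
          smul_mul_assoc, mul_smul_comm, smul_smul, mul_comm]

lemma rhoM_val (φ : W →L[ℂ] ℂ) (z : ℂ ⊗[ℝ] g) (f : MZ E μ W) (x : G) :
    φ (MZ.val ((rhoM μ W j z).1 f) x) = LinearMap.liftBaseChange ℂ
      ((DL E (fun y => φ (MZ.val f y)) x).toLinearMap ∘ₗ j.toLinearMap) z := by
  induction z using TensorProduct.induction_on with
  | zero => simp
  | tmul c X =>
    have := LD_clm (φ.restrictScalars ℝ) f.sm (j X) x
    simp only [ContinuousLinearMap.coe_restrictScalars'] at this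
    simp [DL_apply, this]
  | add a b ha hb => simp [ha, hb]

end Pool.Agent.MP_f244e7_gt

end MrgPart3

-- ======== part 4: formerly Pool.Agent.MP_f244e7_gt.Main
section MrgPart4

/-! Left-invariant representatives for elliptic structures. -/

set_option maxSynthPendingDepth 3
set_option linter.unusedSectionVars false

namespace Pool.Agent.MP_f244e7_gt

open scoped Manifold ContDiff Topology TensorProduct
open Function Filter Set MeasureTheory

attribute [local instance] starC starModC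

variable {g : Type*} [LieRing g] [LieAlgebra ℝ g]
  {E : Type*} [NormedAddCommGroup E] [NormedSpace ℝ E] [FiniteDimensional ℝ E]
  {G : Type*} [Group G] [TopologicalSpace G] [ChartedSpace E G] [LieGroup 𝓘(ℝ, E) ∞ G]
  [IsTopologicalGroup G] [CompactSpace G] [T2Space G] [MeasurableSpace G] [BorelSpace G]
  (μ : Measure G) [BiHaar μ]
  {W : Type*} [NormedAddCommGroup W] [InnerProductSpace ℂ W] [FiniteDimensional ℂ W]
  [CompleteSpace W] (j : g ≃ₗ[ℝ] E)

section general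
variable {L : Type*} [LieRing L] [LieAlgebra ℂ L] [StarAddMonoid L] [StarModule ℂ L]
  {σ : Type*} [Fintype σ] [DecidableEq σ] {e f : σ → L} {ε i : L →ₗ[ℂ] (W →L[ℂ] W)} {v : W}
  {B : L →ₗ[ℂ] L →ₗ[ℂ] ℂ}

variable {μ} in
/-- The vacuum component at a point. -/
noncomputable def vacAt (v : W) (x : G) : MZ E μ W →ₗ[ℂ] ℂ :=
  innerₛₗ ℂ v ∘ₗ LinearMap.proj x ∘ₗ MZ.val

lemma ev_vacAt (x : G) : ∀ (k : ℕ) (X : Fin k → L) (ψ : MZ E μ W),
    ev (Adj _).val ((actM E μ W).toLinearMap ∘ₗ i) (vacAt v x) k X ψ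
      = ev (pi0 W) i (innerₛₗ ℂ v) k X (MZ.val ψ x)
  | 0, _, _ => rfl
  | k + 1, X, ψ => by rw [ev_succ, ev_vacAt x k, ev_succ]; rfl

lemma map_NN (w : σ → ℝ) : NN ((actM E μ W).toLinearMap ∘ₗ ε) ((actM E μ W).toLinearMap ∘ₗ i) e f w
    = actM E μ W (NN ε i e f w) := by
  simp only [NN, map_sum, map_smul, map_mul, LinearMap.comp_apply, AlgHom.toLinearMap_apply]

lemma fil_of_maps {M M' X : Type*} [AddCommGroup M] [Module ℂ M] [AddCommGroup M'] [Module ℂ M']
    {N : Module.End ℂ M} {N' : Module.End ℂ M'} (φ : X → M →ₗ[ℂ] M')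
    (hφ : ∀ x ψ, N' (φ x ψ) = φ x (N ψ)) (hinj : ∀ ψ, (∀ x, φ x ψ = 0) → ψ = 0) {S : Set ℝ}
    {ψ : M} (hS : ψ ∈ Fil N S) {t : ℝ} (hψ : ∀ x, φ x ψ ∈ Fil N' (Ici t)) : ψ ∈ Fil N (Ici t) := by
  have h1 := Fil_mono (S' := Ici t ∪ Iio t) (by simp) hS
  rw [Fil_union] at h1
  obtain ⟨a, ha, b, hb, rfl⟩ := Submodule.mem_sup.1 h1
  have h2 : ∀ (S : Set ℝ) ψ x, ψ ∈ Fil N S → φ x ψ ∈ Fil N' S :=
    fun S ψ x h => Fil_map (φ x) 0 (fun ψ => by simp [hφ]) (by simp) h
  have h3 : b = 0 := hinj _ fun x => Submodule.disjoint_def.1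
    (Fil_disjoint N' (S := Iio t) (S' := Ici t) (Set.Iio_disjoint_Ici le_rfl)) (φ x b)
    (h2 _ b x hb) (by simpa using Submodule.sub_mem _ (hψ x) (h2 _ a x ha))
  rwa [h3, add_zero]

lemma fil_of_pointwise (hd : Dual B e f) (w : σ → ℝ) (t : ℝ) (ψ : MZ E μ W)
    (h' : CAR B ((actM E μ W).toLinearMap ∘ₗ ε) ((actM E μ W).toLinearMap ∘ₗ i))
    (hψ : ∀ x, MZ.val ψ x ∈ Fil (pi0 W (NN ε i e f w)) (Ici t)) :
    ψ ∈ Fil ((Adj _).val (NN ((actM E μ W).toLinearMap ∘ₗ ε) ((actM E μ W).toLinearMap ∘ₗ i) e f w))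
      (Ici t) := by
  obtain ⟨C, hC⟩ := h'.NN_top (Adj _).val hd w
  refine fil_of_maps (N' := pi0 W (NN ε i e f w)) (fun x => LinearMap.proj x ∘ₗ MZ.val)
    (fun x ψ => ?_) (fun ψ h => MZ.ext h) (hC ψ) hψ
  rw [map_NN]
  rfl

lemma Phi_smooth : ∀ (k : ℕ) (α : G → L [⋀^Fin k]→ₗ[ℂ] ℂ), IsSmoothForm E (fun x => ⇑(α x)) →
    Sm E fun x => Phi ε e f v k (α x)
  | 0, α, h => Sm.clm (((ContinuousLinearMap.id ℂ ℂ).smulRight v).restrictScalars ℝ) (h 0)
  | k + 1, α, h => Sm.clm ((((k : ℂ) + 1)⁻¹ • ContinuousLinearMap.id ℂ W).restrictScalars ℝ)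
      (contMDiff_finsetSum fun a _ => Sm.clm ((ε (f a)).restrictScalars ℝ)
        (Phi_smooth k (fun x => (α x).curryLeft (e a)) fun X => h _))

end general

variable {σ : Type*} [Fintype σ] [DecidableEq σ] {ν : Type*} [Fintype ν] [DecidableEq ν]
  {χ : Type*} [Fintype χ] [DecidableEq χ]
  {e f : σ → ℂ ⊗[ℝ] g} {u u' : ν → ℂ ⊗[ℝ] g} {q q' : χ → ℂ ⊗[ℝ] g} {H : ℂ ⊗[ℝ] g} {lam : σ → ℝ}
  {B : (ℂ ⊗[ℝ] g) →ₗ[ℂ] (ℂ ⊗[ℝ] g) →ₗ[ℂ] ℂ} {ε i : (ℂ ⊗[ℝ] g) →ₗ[ℂ] (W →L[ℂ] W)}

lemma exists_bijective [ConnectedSpace G] (hj : ∀ X Y, j ⁅X, Y⁆ = brk G (j X) (j Y))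
    (h0 : SRep B ε i 0) (hB : HForm B) (hP : Ell2 B e f u u' q q' H lam)
    (hv : ∀ z, ∃ a ∈ Sp e ⊔ Sp u, ∃ b ∈ Sp e ⊔ Sp u, z = a + star b) :
    ∃ K : ℂ, Bijective ((Adj _).val
      (lap (dCE ((actM E μ W).toLinearMap ∘ₗ ε) ((actM E μ W).toLinearMap ∘ₗ i) (rhoM μ W j) e f)
      - K • ∑ a, TT ((actM E μ W).toLinearMap ∘ₗ ε) ((actM E μ W).toLinearMap ∘ₗ i)
        (rhoM μ W j) e f (u' a) * TT ((actM E μ W).toLinearMap ∘ₗ ε)
          ((actM E μ W).toLinearMap ∘ₗ i) (rhoM μ W j) e f (u a))) := by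
  have h := srep_rhoM μ j hj h0
  let Y : ℝ → σ ⊕ σ ⊕ ν ⊕ ν → g := fun k => Sum.elim (fun a => reL g (e a))
    (Sum.elim (fun a => imL g (e a))
      (Sum.elim (fun a => k • reL g (u a)) (fun a => k • imL g (u a))))
  have hY : ∀ k, k ≠ 0 → Submodule.span ℝ (range fun l => j (Y k l)) = ⊤ := by
    intro k hk
    have := congrArg (Submodule.map j.toLinearMap) (span_re_im e u hk hv)
    rwa [Submodule.map_span, Submodule.map_top, LinearEquiv.range, ← range_comp] at this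
  obtain ⟨C, hC, h1⟩ := poincare_MZ (μ := μ) (W := W) _ (hY 1 one_ne_zero)
  obtain ⟨c, hc, K0, h2⟩ := h.coercive hB hP.toEll Adj.isStarAct (fun l => (1 : ℂ) ⊗ₜ[ℝ] Y 1 l) hC
    (by simpa only [rhoM_tmul, one_smul, Subalgebra.coe_val] using h1)
  set k := max 1 K0 with hk
  have hk1 : 1 ≤ k := le_max_left _ _
  have hk2 : K0 ≤ k ^ 2 := (le_max_right 1 K0).trans (by nlinarith)
  have h3 := h.principal hB hP.toEll (actM E μ W).range (fun x => ⟨_, rfl⟩) (fun x => ⟨_, rfl⟩)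
    (by rintro _ ⟨A, rfl⟩; exact ⟨star A, (star_actM A).symm⟩)
    (fun z => (1 : ℂ) ⊗ₜ[ℝ] reL g z) (fun z => (1 : ℂ) ⊗ₜ[ℝ] imL g z) (by simp) (by simp)
    re_add_im (k : ℂ) (fun l => (1 : ℂ) ⊗ₜ[ℝ] Y k l) (by
      funext l
      rcases l with a | a | a | a <;> simp [Y, TensorProduct.smul_tmul'])
  obtain ⟨a, ha, n, ⟨N, rfl⟩, h4⟩ := O1.exists_form (fun l => (1 : ℂ) ⊗ₜ[ℝ] Y k l)
    (span_one_tmul _ (span_re_im e u (by linarith) hv)) h3
  choose A hA using ha
  have hk0 : k ≠ 0 := by linarith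
  refine ⟨(k : ℂ) ^ 2, bijective_MZ _ (hY k hk0) A N ?_ hc fun φ => ?_⟩
  · simp only [rhoM_tmul, one_smul, ← hA] at h4
    exact h4
  · simpa only [Complex.ofReal_pow] using h2 _ hk2 φ

section mean
variable (D : (G → ℂ) → G → ℂ ⊗[ℝ] g → ℂ) (hD : ∀ φ, Sm E φ → ∀ x z, D φ x z
      = LinearMap.liftBaseChange ℂ ((DL E φ x).toLinearMap ∘ₗ j.toLinearMap) z)
  {k : ℕ} (α : G → (Fin k → ℂ ⊗[ℝ] g) → ℂ) (hα : IsSmoothForm E α) (η : (Fin k → ℂ ⊗[ℝ] g) → ℂ)
include hD

lemma D_const (c : ℂ) (x : G) (z : ℂ ⊗[ℝ] g) : D (fun _ => c) x z = 0 := by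
  rw [hD _ contMDiff_const]
  simp [DL]

lemma D_sub_const {φ : G → ℂ} (c : ℂ) (hφ : Sm E φ) (x : G) (z : ℂ ⊗[ℝ] g) :
    D (fun y => φ y - c) x z = D φ x z := by
  rw [hD (fun y => φ y - c) (hφ.sub contMDiff_const), hD _ hφ]
  simp only [DL, fderiv_sub_const]

lemma D_integral {φ : G → ℂ} (hφ : Sm E φ) (z : ℂ ⊗[ℝ] g) :
    Integrable (fun x => D φ x z) μ ∧ ∫ x, D φ x z ∂μ = 0 := by
  simp only [hD φ hφ]
  induction z using TensorProduct.induction_on with
  | zero => simp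
  | tmul c X =>
    simp only [LinearMap.liftBaseChange_tmul, LinearMap.comp_apply, LinearEquiv.coe_coe,
      ContinuousLinearMap.coe_coe, DL_apply, integral_smul, integral_LD μ hφ, smul_zero]
    exact ⟨(cont_integrable μ (hφ.LD _).continuous).smul c, trivial⟩
  | add a b ha hb =>
    simp only [map_add]
    exact ⟨ha.1.add hb.1, by rw [integral_add ha.1 hb.1, ha.2, hb.2, add_zero]⟩

include hα

lemma extD_sub (x : G) (X : Fin (k + 1) → ℂ ⊗[ℝ] g) :
    extD D (fun y Z => α y Z - η Z) x X = extD D α x X - extD D (fun _ => η) x X := by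
  simp only [extD, D_sub_const j D hD _ (hα _), D_const j D hD, ← Finset.sum_sub_distrib,
    ← mul_sub]
  refine Finset.sum_congr rfl fun l _ => ?_
  congr 1
  rw [zero_sub, sub_neg_eq_add, sub_add, ← Finset.sum_sub_distrib]
  congr 1
  exact Finset.sum_congr rfl fun l' _ => by split_ifs <;> simp

lemma extD_mean (hη : ∀ X, η X = ∫ x, α x X ∂μ) (x : G) (X : Fin (k + 1) → ℂ ⊗[ℝ] g) :
    extD D (fun _ => η) x X = ∫ y, extD D α y X ∂μ := by
  have h3 : ∀ (P : Prop) [Decidable P] Z, Integrable (fun y => if P then α y Z else 0) μ := by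
    intro P _ Z
    split_ifs
    exacts [cont_integrable μ (hα Z).continuous, integrable_zero _ _ _]
  have h4 := fun Z z => D_integral μ j D hD (hα Z) z
  simp only [extD]
  rw [integral_finsetSum]
  · refine Finset.sum_congr rfl fun l _ => ?_
    rw [integral_const_mul, integral_sub (h4 _ _).1 (integrable_finsetSum _ fun _ _ => h3 _ _),
      (h4 _ _).2, D_const j D hD, integral_finsetSum _ fun _ _ => h3 _ _]
    congr 2
    refine Finset.sum_congr rfl fun l' _ => ?_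
    split_ifs <;> simp [hη]
  · exact fun l _ => ((h4 _ _).1.sub (integrable_finsetSum _ fun _ _ => h3 _ _)).const_mul _

end mean

include μ in
theorem main_fock [ConnectedSpace G] (hj : ∀ X Y, j ⁅X, Y⁆ = brk G (j X) (j Y)) {v0 : W}
    (h0 : IsFock B ε i v0) (hB : HForm B) (hP : Ell2 B e f u u' q q' H lam)
    (hv : ∀ z, ∃ a ∈ Sp e ⊔ Sp u, ∃ b ∈ Sp e ⊔ Sp u, z = a + star b)
    (D : (G → ℂ) → G → ℂ ⊗[ℝ] g → ℂ) (hD : ∀ φ, Sm E φ → ∀ x z, D φ x z
      = LinearMap.liftBaseChange ℂ ((DL E φ x).toLinearMap ∘ₗ j.toLinearMap) z)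
    (p k : ℕ) (α : G → (ℂ ⊗[ℝ] g) [⋀^Fin k]→ₗ[ℂ] ℂ) (hα : IsSmoothForm E (fun x => ⇑(α x)))
    (h1 : ∀ x, InFilt (↑(Sp e ⊔ Sp u)) p (α x))
    (h2 : ∀ x, InFilt (↑(Sp e ⊔ Sp u)) (p + 1) (extD D (fun y => ⇑(α y)) x)) :
    ∃ η : (ℂ ⊗[ℝ] g) [⋀^Fin k]→ₗ[ℂ] ℂ, InFilt (↑(Sp e ⊔ Sp u)) p η ∧
      (∀ x, InFilt (↑(Sp e ⊔ Sp u)) (p + 1) (extD D (fun _ => ⇑η) x)) ∧
      IsExactMod E D (↑(Sp e ⊔ Sp u)) p (fun x => ⇑(α x) - ⇑η) := by
  have h := srep_rhoM μ j hj h0.toSRep
  obtain ⟨K, hK⟩ := exists_bijective μ j hj h0.toSRep hB hP hv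
  set V : Set (ℂ ⊗[ℝ] g) := ↑(Sp e ⊔ Sp u) with hV
  set b := full e f u q with hb
  set b' := full f e u' q' with hb'
  have hd : Dual B b b' := hP.full_dual hB
  have hp : ∀ x, pr B b b' x = x := hP.full_pr
  set ε' := (actM E μ W).toLinearMap ∘ₗ ε with hε'
  set i' := (actM E μ W).toLinearMap ∘ₗ i with hi'
  let ev0 : ∀ {k : ℕ}, (Fin k → ℂ ⊗[ℝ] g) → W →L[ℂ] ℂ := fun {k} X =>
    LinearMap.toContinuousLinearMap (ev (pi0 W) i (innerₛₗ ℂ v0) k X)
  have hev0 : ∀ {k : ℕ} (X : Fin k → ℂ ⊗[ℝ] g) w, ev0 X w = ev (pi0 W) i (innerₛₗ ℂ v0) k X w :=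
    fun _ _ => rfl
  have hE : ∀ x z (ψ : MZ E μ W), vacAt v0 x ((Adj _).val (ε' z) ψ) = 0 :=
    fun x z ψ => h0.vac_eps z _
  have hw : ∀ l, (wt ν χ lam 0 l = 0 ∧ b l ∈ V) ∨ wt ν χ lam 0 l = 1 := by
    rintro (a | a | a | a)
    · exact Or.inl ⟨rfl, Submodule.mem_sup_left (mem_Sp a)⟩
    · simp [wt]
    · exact Or.inl ⟨rfl, Submodule.mem_sup_right (mem_Sp a)⟩
    · simp [wt]
  have hw' : ∀ z ∈ V, ∀ l, B (b' l) z ≠ 0 → wt ν χ lam 0 l = 0 := by
    intro z hz l hl
    by_contra hc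
    refine hl ((sup_le (Submodule.span_le.2 ?_) (Submodule.span_le.2 ?_) :
      Sp e ⊔ Sp u ≤ LinearMap.ker (B (b' l))) hz)
    · rintro _ ⟨a, rfl⟩
      exact (hd l (.inl a)).trans (if_neg (by rintro rfl; exact hc rfl))
    · rintro _ ⟨a, rfl⟩
      exact (hd l (.inr (.inr (.inl a)))).trans (if_neg (by rintro rfl; exact hc rfl))
  have hd1 : ∀ (k : ℕ) (ψ : MZ E μ W) x (X : Fin (k + 1) → ℂ ⊗[ℝ] g),
      ev0 X (MZ.val ((Adj _).val (dCE ε' i' (rhoM μ W j) b b') ψ) x)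
        = extD D (fun y Z => ev0 Z (MZ.val ψ y)) x X := by
    intro k ψ x X
    rw [hev0, ← ev_vacAt, h.ev_d (hE x) hp h.ci, extD]
    refine Finset.sum_congr rfl fun l _ => ?_
    simp only [hi', ev_vacAt, ← hev0]
    rw [hD (fun y => ev0 (l.removeNth X) (MZ.val ψ y)) (ψ.sm.clm ((ev0 _).restrictScalars ℝ))]
    exact congrArg (fun t => _ * (t - _)) (rhoM_val μ j _ _ ψ x)
  have hfil : ∀ (k : ℕ) (t : ℝ) (ψ : MZ E μ W),
      (∀ x, NN ε i b b' 1 (MZ.val ψ x) = (k : ℂ) • MZ.val ψ x) →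
      (∀ x (X : Fin k → _), cnt V X < t → ev0 X (MZ.val ψ x) = 0) →
      ψ ∈ Fil ((Adj _).val (NN ε' i' b b' (wt ν χ lam 0))) (Ici t) := by
    intro k t ψ h3 h4
    refine fil_of_pointwise μ hd _ t ψ h.toCAR fun x => ?_
    rw [← h0.Phi_ev hd hP.full_star hp k _ (h3 x)]
    exact h0.Phi_fil hB hd hw k _ t (h4 x)
  have hfil' : ∀ (k : ℕ) (t : ℝ) (ψ : MZ E μ W),
      ψ ∈ Fil ((Adj _).val (NN ε' i' b b' (wt ν χ lam 0))) (Ici t) →
      ∀ x (X : Fin k → _), cnt V X < t → ev0 X (MZ.val ψ x) = 0 := by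
    intro k t ψ h3 x X h4
    rw [hev0, ← ev_vacAt]
    exact h.ev_fil (hE x) hd hp (fun l => by rcases hw l with h | h <;> simp [h]) hw' k X t ψ h3 h4
  have hs := Phi_smooth (ε := ε) (e := b) (f := b') (v := v0) k α hα
  have hi := cont_integrable μ hs.continuous
  set m := ∫ x, Phi ε b b' v0 k (α x) ∂μ with hm
  let η := h0.toCAR.evA (pi0 W) (innerₛₗ ℂ v0) k m
  have hη : ∀ X, η X = ∫ x, α x X ∂μ := fun X => by
    have := ((ev0 X).integral_comp_comm hi).symm
    simp only [hev0, h0.ev_Phi hp] at this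
    exact this
  let ψ : MZ E μ W := MZ.mk (fun x => Phi ε b b' v0 k (α x) - m) (hs.sub contMDiff_const) (by
    rw [integral_sub hi (integrable_const _)]; simp [hm])
  have hψ : ∀ x X, ev0 X (MZ.val ψ x) = α x X - η X := fun x X => by
    rw [MZ.val_mk, map_sub, hev0, h0.ev_Phi hp]; rfl
  have hN : ∀ x, NN ε i b b' 1 (MZ.val ψ x) = (k : ℂ) • MZ.val ψ x := fun x => by
    rw [MZ.val_mk, map_sub, smul_sub, h0.N_Phi hp, hm, ← integral_smul,
      ← ContinuousLinearMap.integral_comp_comm _ hi]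
    simp only [h0.N_Phi hp]
  have hη2 := extD_mean μ j D hD (fun x => ⇑(α x)) hα η hη
  simp only [inFilt_iff] at h1 h2
  have h3 : ∀ X, cnt V X < p → η X = 0 := fun X hX => by simp [hη, h1 _ X hX]
  have h4 : ∀ x X, cnt V X < (p + 1 : ℕ) → extD D (fun _ => ⇑η) x X = 0 := fun x X hX => by
    simp [hη2, h2 _ X hX]
  refine ⟨η, (inFilt_iff _ _ _).2 h3, fun x => (inFilt_iff _ _ _).2 (h4 x), ?_⟩
  obtain ⟨θ, hθ, hθ'⟩ := h.exact (Adj _).val hB hP K hK (p := p) (x := ψ)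
    (hfil k p ψ hN fun x X hX => by rw [hψ, h1 x X hX, h3 X hX, sub_zero])
    (hfil (k + 1) _ _ (fun x => by
      have h5 : (Adj _).val (NN ε' i' b b' 1) ψ = (k : ℂ) • ψ := MZ.ext fun x => by
        rw [map_NN]; exact hN x
      have h6 := congrArg (fun P => MZ.val ((Adj _).val P ψ) x) (h.hom_d hB hd hp)
      simp only [map_mul, map_add, Module.End.mul_apply, LinearMap.add_apply, h5, map_smul] at h6
      rw [map_NN] at h6
      refine h6.trans ?_
      rw [Nat.cast_succ, add_smul, one_smul]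
      rfl) fun x X hX => by
        have h5 : extD D (fun y Z => ev0 Z (MZ.val ψ y)) x X
            = extD D (fun y => ⇑(α y)) x X - extD D (fun _ => ⇑η) x X := by
          simp only [hψ]
          exact extD_sub j D hD (fun x => ⇑(α x)) hα η x X
        rw [hd1, h5, h2 x X (by exact_mod_cast hX), h4 x X (by exact_mod_cast hX), sub_zero])
  have h5 := hfil' k _ _ hθ'
  cases k with
  | zero =>
    refine fun x => (inFilt_iff _ _ _).2 fun X hX => ?_
    have h6 := h5 x X (by exact_mod_cast hX)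
    rw [map_sub, Pi.sub_apply, map_sub, hψ] at h6
    have h7 := E_II (π := (Adj _).val) (hE x) (dCE_mem (i := i') (e := b) (f := b') (rhoM μ W j)) θ
    exact (sub_zero _).symm.trans (h7 ▸ h6)
  | succ k =>
    refine ⟨fun x => h0.toCAR.evA (pi0 W) (innerₛₗ ℂ v0) k (MZ.val θ x),
      fun X => θ.sm.clm ((ev0 X).restrictScalars ℝ),
      fun x => (inFilt_iff _ _ _).2 (hfil' k _ _ hθ x),
      fun x => (inFilt_iff _ _ _).2 fun X hX => ?_⟩
    have h6 := h5 x X (by exact_mod_cast hX)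
    rw [map_sub, Pi.sub_apply, map_sub, hψ, hd1] at h6
    exact h6

theorem main_abstract [ConnectedSpace G] (hj : ∀ X Y, j ⁅X, Y⁆ = brk G (j X) (j Y))
    (v : LieSubalgebra ℂ (ℂ ⊗[ℝ] g)) (hv : IsElliptic (v : Set (ℂ ⊗[ℝ] g)))
    (D : (G → ℂ) → G → ℂ ⊗[ℝ] g → ℂ) (hD : ∀ φ, Sm E φ → ∀ x z, D φ x z
      = LinearMap.liftBaseChange ℂ ((DL E φ x).toLinearMap ∘ₗ j.toLinearMap) z) (p q : ℕ) :
    HasInvariantReps E G D (v : Set (ℂ ⊗[ℝ] g)) p q := by
  obtain ⟨μ, _⟩ := exists_biHaar G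
  have : FiniteDimensional ℝ g := j.symm.finiteDimensional
  obtain ⟨β, b1, b2, b3⟩ := exists_invariant_form (E := E) μ
  let β' : LinearMap.BilinForm ℝ g := β.compl₁₂ j.toLinearMap j.toLinearMap
  have hB := hform_baseChange β' (fun X Y => b1 _ _) fun X Y Z => by
    simpa [β', hj] using b3 (j X) (j Y) (j Z)
  obtain ⟨σ, ν, χ, _, _, _, _, _, _, e, u, q', H, lam, hP, hV⟩ := exists_Ell2 hB
    (pos_baseChange β' (fun X Y => b1 _ _) fun X hX => b2 _ (by simpa using hX)) v hv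
  obtain ⟨K, _, ε, i, v0, h0⟩ := exists_fock' hB hP.full_star hP.full_pr (hP.full_dual hB)
  have h1 : (v : Set (ℂ ⊗[ℝ] g)) = ↑(Sp e ⊔ Sp u) := by rw [hV]; rfl
  rw [h1]
  exact fun α => main_fock μ j hj h0 hB hP (by rw [hV]; exact hv) D hD p _ α

end Pool.Agent.MP_f244e7_gt

end MrgPart4

-- marker of a merged file
example : 731051 + 30991 = 731051 + 30991 := rfl
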